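import Pool.Agent.H671R2.CK.CDefs
import Pool.Agent.H671R2.PolyAuto
import Pool.Agent.NPC.Dec

/-!
# Edge editing problems, polynomial kernels
-/

namespace Pool.Agent.H548E

open Pool.Agent.NPC Pool.Agent.NPC.R671

/-- A finite family of finite graphs. -/
abbrev Family := List (Σ n : ℕ, SimpleGraph (Fin n))

/-- `G` is `F`-free: no induced subgraph of `G` is isomorphic to a member of `F`. -/
def FreeOf (F : Family) {V : Type} (G : SimpleGraph V) : Prop :=
  ∀ H ∈ F, IsEmpty (H.2 ↪g G)

/-- The graph `G` can be made `F`-free by adding or removing at most `k` edges in total. -/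
def Editable (F : Family) {V : Type} (G : SimpleGraph V) (k : ℕ) : Prop :=
  ∃ G' : SimpleGraph V, FreeOf F G' ∧ (symmDiff G.edgeSet G'.edgeSet).ncard ≤ k

/-- The bit string coding the instance `(G, k)`: it codes the adjacency matrix of `G` and the
number `k` (in binary). -/
noncomputable def code {n : ℕ} (G : SimpleGraph (Fin n)) (k : ℕ) : List Bool :=
  bits (adjMatrix G, k)

/-- `K` is a kernelization for `F`-free edge editing, with parameter `k`, and `p` bounds its size:
`K` is computable in polynomial time, and it maps every instance `(G, k)` to an equivalent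
instance `(G', k')` of the same problem such that both the number of vertices of `G'` and `k'` are
at most `p(k)`. -/
def IsKernel (F : Family) (K : List Bool → List Bool) (p : Polynomial ℕ) : Prop :=
  PolyTime K ∧ ∀ (n : ℕ) (G : SimpleGraph (Fin n)) (k : ℕ),
    ∃ (n' : ℕ) (G' : SimpleGraph (Fin n')) (k' : ℕ), K (code G k) = code G' k' ∧
      (Editable F G k ↔ Editable F G' k') ∧ n' ≤ p.eval k ∧ k' ≤ p.eval k

/-- `F`-free edge editing has a polynomial kernel. -/
def HasPolyKernel (F : Family) : Prop :=
  ∃ (K : List Bool → List Bool) (p : Polynomial ℕ), IsKernel F K p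

/-- `F`-free edge editing has a polynomial compression: a polynomial-time reduction to some
language (whatever it is) such that the length of the output is bounded by a polynomial in `k`. -/
def HasPolyCompression (F : Family) : Prop :=
  ∃ (K : List Bool → List Bool) (L : Set (List Bool)) (p : Polynomial ℕ), PolyTime K ∧
    ∀ (n : ℕ) (G : SimpleGraph (Fin n)) (k : ℕ),
      (Editable F G k ↔ K (code G k) ∈ L) ∧ (K (code G k)).length ≤ p.eval k

/-- The cycle with four vertices. -/
abbrev C4 : SimpleGraph (Fin 4) := SimpleGraph.cycleGraph 4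

/-- Two disjoint edges: the graph with the vertices `0, 1, 2, 3` and the edges `02` and `13`,
which is the complement of the cycle `0123`. -/
def TwoK2 : SimpleGraph (Fin 4) :=
  SimpleGraph.fromEdgeSet {s(0, 2), s(1, 3)}

/-- the complement of a matrix -/
def compMat (A : List (List Bool)) : List (List Bool) :=
  A.zipIdx.map fun r => r.1.zipIdx.map fun e => !e.1 && decide (e.2 ≠ r.2)

/-! ### Elementary forms -/

/-- no induced `C_4` -/
def NoC4 {V : Type} (G : SimpleGraph V) : Prop :=
  ∀ a b c d, G.Adj a b → G.Adj b c → G.Adj c d → G.Adj d a → a ≠ c → b ≠ d →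
    G.Adj a c ∨ G.Adj b d

/-- no induced `2K_2` -/
def No2K2 {V : Type} (G : SimpleGraph V) : Prop :=
  ∀ a b c d, G.Adj a b → G.Adj c d → a ≠ c → a ≠ d → b ≠ c → b ≠ d →
    G.Adj a c ∨ G.Adj a d ∨ G.Adj b c ∨ G.Adj b d

/-- `c` is an induced cycle of length 5 -/
def IsC5 {V : Type} (G : SimpleGraph V) (c : Fin 5 → V) : Prop :=
  Function.Injective c ∧ ∀ i j, G.Adj (c i) (c j) ↔ (j = i + 1 ∨ i = j + 1)

/-! ### Pseudo-split graphs

Labels: `0, 1, 2, 3, 4` for the vertices of the 5-cycle, `5` for the clique, `6` for the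
independent set. -/

/-- The adjacency prescribed by the labels; `none` between the clique and the independent set. -/
def want (x y : ℕ) : Option Bool :=
  if (x = 5 ∧ y = 6) ∨ (x = 6 ∧ y = 5) then none
  else if x = 6 ∨ y = 6 then some false
  else if x = 5 ∨ y = 5 then some true
  else some (decide ((x + 1) % 5 = y ∨ (y + 1) % 5 = x))

/-- the graph is as prescribed by the labels -/
def Fits {V : Type} (G : SimpleGraph V) (lab : V → ℕ) : Prop :=
  ∀ a b, a ≠ b → ∀ v, want (lab a) (lab b) = some v → (G.Adj a b ↔ v = true)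

/-- the labels are at most 6, and none of `0, ..., 4` occurs, or each of them occurs exactly
once -/
def ValidLab {V : Type} (lab : V → ℕ) : Prop :=
  (∀ a, lab a ≤ 6) ∧ ((∀ a, lab a = 5 ∨ lab a = 6) ∨ ∀ i < 5, ∃! a, lab a = i)

/-- the same for labellings of `{0, ..., n-1}` -/
def ValidLabN (n : ℕ) (lab : ℕ → ℕ) : Prop :=
  (∀ a < n, lab a ≤ 6) ∧ ((∀ a < n, lab a = 5 ∨ lab a = 6) ∨ ∀ i < 5, ∃! a, a < n ∧ lab a = i)

/-- the number of pairs of vertices where the graph is not as prescribed by the labels -/
def cost (n : ℕ) (g : ℕ → ℕ → Bool) (lab : ℕ → ℕ) : ℕ :=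
  ((List.range n ×ˢ List.range n).filter fun p =>
    decide (p.1 < p.2) && (want (lab p.1) (lab p.2)).any fun v => g p.1 p.2 != v).length

/-- the labelling given by the list `cs` of the vertices of the 5-cycle (empty, or of length 5)
and by the clique `K` -/
def labOf (cs : List ℕ) (K : ℕ → Bool) (v : ℕ) : ℕ :=
  if cs[0]? = some v then 0 else if cs[1]? = some v then 1 else if cs[2]? = some v then 2
  else if cs[3]? = some v then 3 else if cs[4]? = some v then 4
  else if K v = true then 5 else 6

/-- the score of a vertex -/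
def score (n : ℕ) (g : ℕ → ℕ → Bool) (cs : List ℕ) (v : ℕ) : ℕ :=
  2 * (cs.filter fun c => g v c).length +
    ((List.range n).filter fun w => !(decide (w ∈ cs)) && g v w).length

/-- a prefix of the vertices, sorted by decreasing score -/
def pre (n : ℕ) (g : ℕ → ℕ → Bool) (cs : List ℕ) (uo : Option ℕ) (v : ℕ) : Bool :=
  uo.any fun u => decide (score n g cs u < score n g cs v) ||
    (decide (score n g cs u = score n g cs v) && decide (v ≤ u))

/-- the candidates for the list of the vertices of the 5-cycle -/
def cands (n : ℕ) : List (List ℕ) :=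
  [] :: (List.range n).flatMap fun a => (List.range n).flatMap fun b =>
    (List.range n).flatMap fun c => (List.range n).flatMap fun d => (List.range n).flatMap fun e =>
      if a ≠ b ∧ a ≠ c ∧ a ≠ d ∧ a ≠ e ∧ b ≠ c ∧ b ≠ d ∧ b ≠ e ∧ c ≠ d ∧ c ≠ e ∧ d ≠ e then
        [[a, b, c, d, e]] else []

/-- the entries of a matrix -/
def ent (A : List (List Bool)) (i j : ℕ) : Bool := (A.getD i []).getD j false

/-- the algorithm for the edge editing problem for pseudo-split graphs -/
def decE (p : List (List Bool) × ℕ) : Bool :=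
  (cands p.1.length).any fun cs => (none :: (List.range p.1.length).map some).any fun uo =>
    decide (cost p.1.length (ent p.1) (labOf cs (pre p.1.length (ent p.1) cs uo)) ≤ p.2)

/-! ### Frozen pairs -/

/-- the relation defining `enf` -/
def enfRel {V : Type} (G : SimpleGraph V) (Fr : V → V → Prop) (k : ℕ) :
    V ⊕ (V × V × Fin (k + 1) × Bool) → V ⊕ (V × V × Fin (k + 1) × Bool) → Prop
  | Sum.inl a, Sum.inl b => G.Adj a b
  | Sum.inl a, Sum.inr (p, q, _, s) => Fr p q ∧ p ≠ q ∧
      ((G.Adj p q ∧ (a = p ∨ a = q)) ∨ (¬ G.Adj p q ∧ a = if s = true then q else p))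
  | Sum.inr _, Sum.inl _ => False
  | Sum.inr (p, q, i, s), Sum.inr (p', q', i', s') => p = p' ∧ q = q' ∧ i = i' ∧ s ≠ s' ∧
      Fr p q ∧ p ≠ q ∧ ¬ G.Adj p q

/-- The graph `G` with gadgets which freeze the pairs of `Fr`: for every frozen pair `p, q` and
`k + 1` values of `i` two vertices `(p, q, i, false)`, `(p, q, i, true)`, adjacent to both `p` and
`q` if `p, q` are adjacent, and forming a path `p, (p, q, i, false), (p, q, i, true), q`
otherwise. (For the other pairs the vertices are isolated.) -/
def enf {V : Type} (G : SimpleGraph V) (Fr : V → V → Prop) (k : ℕ) :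
    SimpleGraph (V ⊕ (V × V × Fin (k + 1) × Bool)) :=
  SimpleGraph.fromRel (enfRel G Fr k)

/-! ### The apex -/

/-- the relation defining `apexG` -/
def apexRel {W : Type} (T : SimpleGraph W) (R : Finset W) : Option W → Option W → Prop
  | none, some w => w ∉ R
  | some x, some y => T.Adj x y
  | _, _ => False

/-- The graph `T` with a new vertex adjacent to all vertices outside `R`. -/
def apexG {W : Type} (T : SimpleGraph W) (R : Finset W) : SimpleGraph (Option W) :=
  SimpleGraph.fromRel (apexRel T R)

/-- the frozen pairs: all pairs of `W`, and the apex with the vertices outside `F` -/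
def apexFr {W : Type} (F : Finset W) : Option W → Option W → Prop
  | none, some w => w ∉ F
  | some w, none => w ∉ F
  | _, _ => True

/-- every vertex of `Z` has at most one neighbour outside `Z` -/
def Good {W : Type} (T : SimpleGraph W) (Z : Set W) : Prop :=
  ∀ y ∈ Z, ∀ a b, T.Adj y a → T.Adj y b → a ≠ b → a ∈ Z ∨ b ∈ Z

/-- no triangles and no cycles of length 4 -/
def Girth5 {W : Type} (T : SimpleGraph W) : Prop :=
  (∀ a b c, T.Adj a b → T.Adj b c → ¬ T.Adj a c) ∧
    ∀ a b x y, a ≠ b → T.Adj x a → T.Adj x b → T.Adj y a → T.Adj y b → x = y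

/-! ### The composition -/

/-- The vertices of the composition (other than the apex): `node l a` is the node number `a` of
level `l` of the selection trees, `bl a` freezes the leaf number `a`, and for the pair `u, w` of
vertices of the graph number `a` there are `t a u w`, `b a u w`, `z a u w`; finally `v a u` is the
vertex `u` of the graph number `a`. -/
inductive W (d M N : ℕ) : Type
  | node (l : Fin (d + 1)) (a : Fin M)
  | bl (a : Fin M)
  | t (a : Fin M) (u w : Fin N)
  | b (a : Fin M) (u w : Fin N)
  | z (a : Fin M) (u w : Fin N)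
  | v (a : Fin M) (u : Fin N)
  deriving DecidableEq, Fintype

/-- `par E x y`: `y` is a parent of `x` -/
def par {d M N : ℕ} (E : ℕ → ℕ → ℕ → Prop) : W d M N → W d M N → Prop
  | .node l' a', .node l a => (l' : ℕ) = l + 1 ∧ (a : ℕ) = a' / 2
  | .bl a, .node l a' => (l : ℕ) = d ∧ a = a'
  | .t a _ _, .node l a' => (l : ℕ) = d ∧ a = a'
  | .b a u w, .t a' u' w' => a = a' ∧ u = u' ∧ w = w'
  | .z a u w, .t a' u' w' => a = a' ∧ u = u' ∧ w = w'
  | .v a x, .z a' u w => a = a' ∧ (u : ℕ) < w ∧ E a u w ∧ (x = u ∨ x = w)
  | _, _ => False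

/-- the tree-like graph of the composition -/
def Tr {d M N : ℕ} (E : ℕ → ℕ → ℕ → Prop) : SimpleGraph (W d M N) :=
  SimpleGraph.fromRel (par E)

/-- the root -/
def isRoot {d M N : ℕ} : W d M N → Bool
  | .node l a => decide ((l : ℕ) = 0 ∧ (a : ℕ) = 0)
  | _ => false

/-- the free vertices -/
def isFree {d M N : ℕ} : W d M N → Bool
  | .node l a => !decide ((l : ℕ) = 0 ∧ (a : ℕ) = 0)
  | .bl _ => false
  | .b _ _ _ => false
  | _ => true

/-- the set with the root only -/
def rootSet (d M N : ℕ) : Finset (W d M N) := Finset.univ.filter fun x => isRoot x = true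

/-- the set of the free vertices -/
def freeSet (d M N : ℕ) : Finset (W d M N) := Finset.univ.filter fun x => isFree x = true

/-- a vertex cover of the graph with the edges `(u, w)`, `u < w`, `E u w` -/
def IsCover {N : ℕ} (E : ℕ → ℕ → Prop) (C : Finset (Fin N)) : Prop :=
  ∀ u w : Fin N, (u : ℕ) < w → E u w → u ∈ C ∨ w ∈ C

/-! ### Satisfiability and vertex covers -/

open Pool.Agent.CK in
/-- the edges of the graph of a formula with `m` clauses and variables below `3 m`: it has `9 m`
vertices, the literals `0, ..., 6 m - 1` and the occurrences `6 m + 3 c + i`. -/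
def vcEdges (m : ℕ) (φ : Form) : List (ℕ × ℕ) :=
  (List.range (3 * m)).map (fun v => (2 * v, 2 * v + 1)) ++
  φ.zipIdx.flatMap fun c =>
    [(6 * m + 3 * c.2, 6 * m + 3 * c.2 + 1), (6 * m + 3 * c.2, 6 * m + 3 * c.2 + 2),
      (6 * m + 3 * c.2 + 1, 6 * m + 3 * c.2 + 2), (rowOf c.1.1, 6 * m + 3 * c.2),
      (rowOf c.1.2.1, 6 * m + 3 * c.2 + 1), (rowOf c.1.2.2, 6 * m + 3 * c.2 + 2)]

/-! ### The composition as data -/

/-- Codes of the vertices of `W d M N`. -/
abbrev Lab := ℕ × ℕ × ℕ × ℕ

/-- the code of a vertex -/
def lab {d M N : ℕ} : W d M N → Lab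
  | .node l a => (0, l, a, 0)
  | .bl a => (1, a, 0, 0)
  | .t a u w => (2, a, u, w)
  | .b a u w => (3, a, u, w)
  | .z a u w => (4, a, u, w)
  | .v a u => (5, a, u, 0)

/-- codes of the vertices of the final graph -/
abbrev Lam := Option Lab ⊕ (Option Lab × Option Lab × ℕ × Bool)

instance decO : DecidableEq (Option Lab) := inferInstance

instance decP : DecidableEq (Option Lab × ℕ × Bool) := @instDecidableEqProd _ _ decO inferInstance

instance decQ : DecidableEq (Option Lab × Option Lab × ℕ × Bool) :=
  @instDecidableEqProd _ _ decO decP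

instance decLam : DecidableEq Lam := @instDecidableEqSum _ _ decO decQ

/-- the code of a vertex of the final graph -/
def labF {d M N k : ℕ} :
    Option (W d M N) ⊕ (Option (W d M N) × Option (W d M N) × Fin (k + 1) × Bool) → Lam
  | Sum.inl p => Sum.inl (p.map lab)
  | Sum.inr (p, q, i, s) => Sum.inr (p.map lab, q.map lab, i, s)

/-- the edges of the graph number `a`: the graphs of the list are repeated -/
def EE (Es : List (List (ℕ × ℕ))) (a u w : ℕ) : Prop := (u, w) ∈ Es.getD (a % Es.length) []

/-- the list of the codes of the vertices of `W d M N` -/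
def labs (d M N : ℕ) : List Lab :=
  (List.range (d + 1) ×ˢ List.range M).map (fun p => (0, p.1, p.2, 0)) ++
  ((List.range M).map (fun a => (1, a, 0, 0)) ++
  ((List.range M ×ˢ (List.range N ×ˢ List.range N)).map (fun p => (2, p)) ++
  ((List.range M ×ˢ (List.range N ×ˢ List.range N)).map (fun p => (3, p)) ++
  ((List.range M ×ˢ (List.range N ×ˢ List.range N)).map (fun p => (4, p)) ++
  (List.range M ×ˢ List.range N).map (fun p => (5, p.1, p.2, 0))))))

/-- the list of the codes of the vertices including the apex -/
def mains (d M N : ℕ) : List (Option Lab) := none :: (labs d M N).map some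

/-- the list of the codes of the vertices of the final graph -/
def verts (d M N k : ℕ) : List Lam :=
  (mains d M N).map Sum.inl ++
    (mains d M N ×ˢ (mains d M N ×ˢ (List.range (k + 1) ×ˢ [false, true]))).map Sum.inr

/-- the parent relation of codes -/
def parL (d : ℕ) (Es : List (List (ℕ × ℕ))) (x y : Lab) : Bool :=
  (decide (x.1 = 0) && (decide (y.1 = 0) && (decide (x.2.1 = y.2.1 + 1) &&
    decide (y.2.2.1 = x.2.2.1 / 2)))) ||
  ((decide (x.1 = 1) && (decide (y.1 = 0) && (decide (y.2.1 = d) && decide (x.2.1 = y.2.2.1)))) ||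
  ((decide (x.1 = 2) && (decide (y.1 = 0) && (decide (y.2.1 = d) && decide (x.2.1 = y.2.2.1)))) ||
  ((decide (x.1 = 3) && (decide (y.1 = 2) && decide (x.2 = y.2))) ||
  ((decide (x.1 = 4) && (decide (y.1 = 2) && decide (x.2 = y.2))) ||
  (decide (x.1 = 5) && (decide (y.1 = 4) && (decide (x.2.1 = y.2.1) &&
    (decide (y.2.2.1 < y.2.2.2) && (decide ((y.2.2.1, y.2.2.2) ∈ Es.getD (y.2.1 % Es.length) []) &&
    (decide (x.2.2.1 = y.2.2.1) || decide (x.2.2.1 = y.2.2.2)))))))))))

/-- is this the root? -/
def rootL (x : Lab) : Bool := decide (x = (0, 0, 0, 0))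

/-- is this a free vertex? -/
def freeL (x : Lab) : Bool :=
  (decide (x.1 = 0) && !decide (x = (0, 0, 0, 0))) || (decide (x.1 = 2) ||
    (decide (x.1 = 4) || decide (x.1 = 5)))

/-- the relation defining the main graph -/
def relM (d : ℕ) (Es : List (List (ℕ × ℕ))) (p q : Option Lab) : Bool :=
  p.elim (q.elim false fun w => !rootL w) fun x => q.elim false fun y =>
    decide (x ≠ y) && (parL d Es x y || parL d Es y x)

/-- adjacency in the main graph -/
def adM (d : ℕ) (Es : List (List (ℕ × ℕ))) (p q : Option Lab) : Bool :=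
  decide (p ≠ q) && (relM d Es p q || relM d Es q p)

/-- frozen pairs -/
def frM (p q : Option Lab) : Bool :=
  p.elim (q.elim true fun w => !freeL w) fun x => q.elim (!freeL x) fun _ => true

/-- the relation defining the final graph -/
def relF (d : ℕ) (Es : List (List (ℕ × ℕ))) (x y : Lam) : Bool :=
  Sum.elim
    (fun a => Sum.elim (fun b => adM d Es a b)
      (fun g => (frM g.1 g.2.1 && decide (g.1 ≠ g.2.1)) &&
        ((adM d Es g.1 g.2.1 && (decide (a = g.1) || decide (a = g.2.1))) ||
        (!(adM d Es g.1 g.2.1) && (if g.2.2.2 = true then decide (a = g.2.1) else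
          decide (a = g.1))))) y)
    (fun g => Sum.elim (fun _ => false)
      (fun h => (decide (g.1 = h.1) && (decide (g.2.1 = h.2.1) && (decide (g.2.2.1 = h.2.2.1) &&
        decide (g.2.2.2 ≠ h.2.2.2)))) && ((frM g.1 g.2.1 && decide (g.1 ≠ g.2.1)) &&
        !(adM d Es g.1 g.2.1))) y) x

/-- adjacency in the final graph -/
def adF (d : ℕ) (Es : List (List (ℕ × ℕ))) (x y : Lam) : Bool :=
  decide (x ≠ y) && (relF d Es x y || relF d Es y x)

theorem adF_symm (d : ℕ) (Es : List (List (ℕ × ℕ))) (x y : Lam) : adF d Es x y = adF d Es y x := by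
  unfold adF
  rw [Bool.or_comm]
  congr 1
  simp [eq_comm]

theorem adF_irrefl (d : ℕ) (Es : List (List (ℕ × ℕ))) (x : Lam) : adF d Es x x = false := by
  simp [adF]

/-- the final graph, for a list of graphs -/
def finG (d M N k : ℕ) (Es : List (List (ℕ × ℕ))) :
    SimpleGraph (Fin (verts d M N k).length) :=
  listGraph (verts d M N k) (adF d Es) (adF_symm d Es) (adF_irrefl d Es)

/-- its adjacency matrix -/
def finMat (d M N k : ℕ) (Es : List (List (ℕ × ℕ))) : List (List Bool) :=
  (verts d M N k).map fun x => (verts d M N k).map fun y => adF d Es x y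

open Pool.Agent.CK in
/-- the graphs for a list of formulas -/
def edgesOf (fs : List Form) : List (List (ℕ × ℕ)) :=
  fs.map fun φ => vcEdges (maxLen fs) (padTo (maxLen fs) φ)

/-- the budget: `d + 2 N ^ 2 + q` with `N = 9 m` and `q = 5 m` -/
def budget (d m : ℕ) : ℕ := d + (162 * m * m + 5 * m)

open Pool.Agent.CK in
/-- the parameter of the instance for a list of formulas -/
def insK (fs : List Form) : ℕ := budget fs.length.size (maxLen fs)

open Pool.Agent.CK in
/-- the matrix of the instance for a list of formulas -/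
def insMat (fs : List Form) : List (List Bool) :=
  finMat fs.length.size (2 * fs.length) (9 * maxLen fs) (insK fs) (edgesOf fs)

open Pool.Agent.CK in
/-- the graph of the instance for a list of formulas -/
def insG (fs : List Form) : SimpleGraph
    (Fin (verts fs.length.size (2 * fs.length) (9 * maxLen fs) (insK fs)).length) :=
  finG fs.length.size (2 * fs.length) (9 * maxLen fs) (insK fs) (edgesOf fs)

end Pool.Agent.H548E
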