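import Pool.Agent.H548E.Defs

/-! T01: induced C4 / 2K2 in elementary form -/

namespace Pool.Agent.H548E

open Pool.Agent.NPC Pool.Agent.NPC.R671 Pool.Agent.CK

theorem t01_C4_adj : ∀ i j : Fin 4, C4.Adj i j ↔ (j = i + 1 ∨ i = j + 1) := by decide

theorem t01_K_adj (i j : Fin 4) : TwoK2.Adj i j ↔
    ((i = 0 ∧ j = 2) ∨ (i = 2 ∧ j = 0) ∨ (i = 1 ∧ j = 3) ∨ (i = 3 ∧ j = 1)) := by
  unfold TwoK2
  rw [SimpleGraph.fromEdgeSet_adj]
  fin_cases i <;> fin_cases j <;> simp

/-- four vertices of an induced copy -/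
theorem t01_mk {V : Type} (G : SimpleGraph V) (H : SimpleGraph (Fin 4)) (f : Fin 4 → V)
    (hf : Function.Injective f) (h : ∀ i j, G.Adj (f i) (f j) ↔ H.Adj i j) :
    ¬ FreeOf [⟨4, H⟩] G := by
  intro hF
  have h1 := hF ⟨4, H⟩ (List.mem_singleton.2 rfl)
  exact h1.elim ⟨⟨f, hf⟩, fun {a b} => h a b⟩

theorem t01_inj {V : Type} {a b c d : V} (h1 : a ≠ b) (h2 : a ≠ c) (h3 : a ≠ d) (h4 : b ≠ c)
    (h5 : b ≠ d) (h6 : c ≠ d) : Function.Injective ![a, b, c, d] := by
  intro i j hij
  fin_cases i <;> fin_cases j <;> first | rfl | (exfalso; revert hij; simp [h1, h2, h3, h4, h5, h6, h1.symm, h2.symm, h3.symm, h4.symm, h5.symm, h6.symm])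

theorem freeOf_C4 {V : Type} (G : SimpleGraph V) : FreeOf [⟨4, C4⟩] G ↔ NoC4 G := by
  constructor
  · intro h a b c d hab hbc hcd hda hac hbd
    by_contra hn
    push Not at hn
    obtain ⟨n1, n2⟩ := hn
    refine t01_mk G C4 ![a, b, c, d] (t01_inj hab.ne hac hda.ne.symm hbc.ne hbd hcd.ne) ?_ h
    intro i j
    rw [t01_C4_adj]
    fin_cases i <;> fin_cases j <;>
      simp [hab, hab.symm, hbc, hbc.symm, hcd, hcd.symm, hda, hda.symm, n1, n2,
        G.adj_comm c a, G.adj_comm d b]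
  · intro h H hH
    rw [List.mem_singleton] at hH
    subst hH
    refine ⟨fun f => ?_⟩
    have e : ∀ i j, G.Adj (f i) (f j) ↔ C4.Adj i j := fun i j => f.map_adj_iff
    have h1 := h (f 0) (f 1) (f 2) (f 3) ((e 0 1).2 (by decide)) ((e 1 2).2 (by decide))
      ((e 2 3).2 (by decide)) ((e 3 0).2 (by decide))
      (fun h => by simpa using f.injective h) (fun h => by simpa using f.injective h)
    rw [e, e] at h1
    revert h1
    decide

theorem freeOf_TwoK2 {V : Type} (G : SimpleGraph V) : FreeOf [⟨4, TwoK2⟩] G ↔ No2K2 G := by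
  constructor
  · intro h a b c d hab hcd hac had hbc hbd
    by_contra hn
    push Not at hn
    obtain ⟨n1, n2, n3, n4⟩ := hn
    refine t01_mk G TwoK2 ![a, c, b, d] (t01_inj hac hab.ne had hbc.symm hcd.ne hbd) ?_ h
    intro i j
    rw [t01_K_adj]
    fin_cases i <;> fin_cases j <;>
      simp [hab, hab.symm, hcd, hcd.symm, n1, n2, n3, n4,
        G.adj_comm c a, G.adj_comm d b, G.adj_comm d a, G.adj_comm c b]
  · intro h H hH
    rw [List.mem_singleton] at hH
    subst hH
    refine ⟨fun f => ?_⟩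
    have e : ∀ i j, G.Adj (f i) (f j) ↔ TwoK2.Adj i j := fun i j => f.map_adj_iff
    have h1 := h (f 0) (f 2) (f 1) (f 3) ((e 0 2).2 (by rw [t01_K_adj]; decide))
      ((e 1 3).2 (by rw [t01_K_adj]; decide))
      (fun h => by simpa using f.injective h) (fun h => by simpa using f.injective h)
      (fun h => by simpa using f.injective h) (fun h => by simpa using f.injective h)
    rw [e, e, e, e, t01_K_adj, t01_K_adj, t01_K_adj, t01_K_adj] at h1
    revert h1
    decide

theorem noC4_compl {V : Type} (G : SimpleGraph V) : NoC4 Gᶜ ↔ No2K2 G := by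
  constructor
  · intro h a b c d hab hcd hac had hbc hbd
    by_contra hn
    push Not at hn
    obtain ⟨n1, n2, n3, n4⟩ := hn
    have h1 := h a c b d
      (by rw [SimpleGraph.compl_adj]; exact ⟨hac, n1⟩)
      (by rw [SimpleGraph.compl_adj]; exact ⟨hbc.symm, fun h => n3 h.symm⟩)
      (by rw [SimpleGraph.compl_adj]; exact ⟨hbd, n4⟩)
      (by rw [SimpleGraph.compl_adj]; exact ⟨had.symm, fun h => n2 h.symm⟩) hab.ne hcd.ne
    rw [SimpleGraph.compl_adj, SimpleGraph.compl_adj] at h1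
    tauto
  · intro h a b c d hab hbc hcd hda hac hbd
    rw [SimpleGraph.compl_adj] at *
    rw [SimpleGraph.compl_adj]
    by_contra hn
    have h1 : G.Adj a c := by tauto
    have h2 : G.Adj b d := by tauto
    have h3 := h a c b d h1 h2 hab.1 hda.1.symm hbc.1.symm hcd.1
    rcases h3 with h3 | h3 | h3 | h3
    · exact hab.2 h3
    · exact hda.2 h3.symm
    · exact hbc.2 h3.symm
    · exact hcd.2 h3

end Pool.Agent.H548E
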