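import Pool.Agent.H548E.Defs
import Pool.Agent.H548E.T01

namespace Pool.Agent.H548E

open Pool.Agent.NPC Pool.Agent.NPC.R671 Pool.Agent.CK

private theorem t03_mem {V : Type} (G : SimpleGraph V) (e : Sym2 V) (he : ¬ e.IsDiag) :
    e ∈ Gᶜ.edgeSet ↔ e ∉ G.edgeSet := by
  induction e using Sym2.ind with
  | _ a b =>
    rw [Sym2.mk_isDiag_iff] at he
    rw [SimpleGraph.mem_edgeSet, SimpleGraph.mem_edgeSet, SimpleGraph.compl_adj]
    exact ⟨fun h => h.2, fun h => ⟨he, h⟩⟩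

private theorem t03_symm {V : Type} (G H : SimpleGraph V) :
    symmDiff Gᶜ.edgeSet Hᶜ.edgeSet = symmDiff G.edgeSet H.edgeSet := by
  ext e
  by_cases he : e.IsDiag
  · have h : ∀ K : SimpleGraph V, e ∉ K.edgeSet := fun K hK => K.not_isDiag_of_mem_edgeSet hK he
    simp only [Set.mem_symmDiff, h, false_and, or_false]
  · rw [Set.mem_symmDiff, Set.mem_symmDiff, t03_mem G e he, t03_mem H e he]
    tauto

private theorem t03_free {V : Type} (G : SimpleGraph V) :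
    FreeOf [⟨4, TwoK2⟩] G ↔ FreeOf [⟨4, C4⟩] Gᶜ := by
  rw [freeOf_TwoK2, freeOf_C4, noC4_compl]

theorem editable_compl {V : Type} (G : SimpleGraph V) (k : ℕ) :
    Editable [⟨4, TwoK2⟩] G k ↔ Editable [⟨4, C4⟩] Gᶜ k := by
  constructor
  · rintro ⟨G', h1, h2⟩
    exact ⟨G'ᶜ, (t03_free G').1 h1, by rw [t03_symm]; exact h2⟩
  · rintro ⟨G', h1, h2⟩
    refine ⟨G'ᶜ, (t03_free _).2 (by rw [compl_compl]; exact h1), ?_⟩
    rw [← t03_symm, compl_compl]
    exact h2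

end Pool.Agent.H548E
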