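import Pool.Agent.H548E.Defs

namespace Pool.Agent.H548E

open Pool.Agent.NPC Pool.Agent.NPC.R671 Pool.Agent.CK

theorem adjMatrix_compl {n : ℕ} (G : SimpleGraph (Fin n)) :
    adjMatrix Gᶜ = compMat (adjMatrix G) := by
  classical
  apply List.ext_getElem
  · simp [adjMatrix, compMat]
  · intro i h1 h2
    apply List.ext_getElem
    · simp [adjMatrix, compMat]
    · intro j h3 h4
      simp [adjMatrix, compMat, SimpleGraph.compl_adj]
      by_cases h : j = i
      · subst h; simp
      · have h2 : ¬ i = j := fun h3 => h h3.symm
        simp [h, h2]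

theorem poly_compMat : Poly compMat := by
  unfold compMat
  fun_prop

end Pool.Agent.H548E
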