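import Pool.Agent.H548E.Defs

/-! T17: the algorithm runs in polynomial time. -/

namespace Pool.Agent.H548E

open Pool.Agent.NPC Pool.Agent.NPC.R671 Pool.Agent.CK

variable {α : Type} [TEnc α]

theorem t17_ent {A : α → List (List Bool)} {i j : α → ℕ} (hA : Poly A) (hi : Poly i)
    (hj : Poly j) : Poly (fun a => ent (A a) (i a) (j a)) := by
  unfold ent
  fun_prop

theorem t17_range {β : Type} [TEnc β] {A : α → List β} (hA : Poly A) :
    Poly (fun a => List.range (A a).length) := Poly.range_length hA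

theorem t17_want {x y : α → ℕ} (hx : Poly x) (hy : Poly y) :
    Poly (fun a => want (x a) (y a)) := by
  unfold want
  fun_prop

theorem t17_score {A : α → List (List Bool)} {cs : α → List ℕ} {v : α → ℕ} (hA : Poly A)
    (hcs : Poly cs) (hv : Poly v) :
    Poly (fun a => score (A a).length (ent (A a)) (cs a) (v a)) := by
  have h1 : Poly (fun a => (cs a).filter fun c => ent (A a) (v a) c) :=
    Poly.filter hcs (t17_ent (Poly.comp hA (Poly.fst Poly.id)) (Poly.comp hv (Poly.fst Poly.id))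
      (Poly.snd Poly.id))
  have h2 : Poly (fun a => (List.range (A a).length).filter fun w =>
      !(decide (w ∈ cs a)) && ent (A a) (v a) w) :=
    Poly.filter (t17_range hA) (Poly.and (Poly.not (Poly.dec_mem (Poly.snd Poly.id)
      (Poly.comp hcs (Poly.fst Poly.id))))
      (t17_ent (Poly.comp hA (Poly.fst Poly.id)) (Poly.comp hv (Poly.fst Poly.id))
      (Poly.snd Poly.id)))
  unfold score
  exact Poly.add (Poly.mul (NPC.Poly.const (2 : ℕ)) (Poly.length h1)) (Poly.length h2)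

theorem t17_pre {A : α → List (List Bool)} {cs : α → List ℕ} {uo : α → Option ℕ} {v : α → ℕ}
    (hA : Poly A) (hcs : Poly cs) (huo : Poly uo) (hv : Poly v) :
    Poly (fun a => pre (A a).length (ent (A a)) (cs a) (uo a) (v a)) := by
  have hA' : Poly (fun p : α × ℕ => A p.1) := Poly.comp hA (Poly.fst Poly.id)
  have hcs' : Poly (fun p : α × ℕ => cs p.1) := Poly.comp hcs (Poly.fst Poly.id)
  have hv' : Poly (fun p : α × ℕ => v p.1) := Poly.comp hv (Poly.fst Poly.id)
  have hs1 : Poly (fun p : α × ℕ => score (A p.1).length (ent (A p.1)) (cs p.1) p.2) :=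
    t17_score hA' hcs' (Poly.snd Poly.id)
  have hs2 : Poly (fun p : α × ℕ => score (A p.1).length (ent (A p.1)) (cs p.1) (v p.1)) :=
    t17_score hA' hcs' hv'
  unfold pre
  refine Poly.optAny_fp huo ?_
  exact Poly.or (Poly.decide_lt hs1 hs2)
    (Poly.and (Poly.dec_eq hs1 hs2) (Poly.decide_le hv' (Poly.snd Poly.id)))

theorem t17_labOf {cs : α → List ℕ} {K : α → ℕ → Bool} {v : α → ℕ} (hcs : Poly cs)
    (hK : Poly (fun a => K a (v a))) (hv : Poly v) : Poly (fun a => labOf (cs a) (K a) (v a)) := by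
  have hs : Poly (fun a => some (v a)) := Poly.some hv
  have hg : ∀ i : ℕ, Poly (fun a => decide ((cs a)[i]? = some (v a))) := fun i =>
    Poly.dec_eq (Poly.getElem? hcs (NPC.Poly.const i)) hs
  unfold labOf
  refine Poly.ite (hg 0) (NPC.Poly.const _) (Poly.ite (hg 1) (NPC.Poly.const _)
    (Poly.ite (hg 2) (NPC.Poly.const _) (Poly.ite (hg 3) (NPC.Poly.const _)
    (Poly.ite (hg 4) (NPC.Poly.const _) (Poly.ite (Poly.decide_bool hK) (NPC.Poly.const _)
      (NPC.Poly.const _))))))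

theorem t17_cost {A : α → List (List Bool)} {lab : α → ℕ → ℕ} (hA : Poly A)
    (hl : Poly (fun p : α × ℕ => lab p.1 p.2)) :
    Poly (fun a => cost (A a).length (ent (A a)) (lab a)) := by
  have hr := t17_range hA
  have hA' : Poly (fun p : α × (ℕ × ℕ) => A p.1) := Poly.comp hA (Poly.fst Poly.id)
  have h1 : Poly (fun p : α × (ℕ × ℕ) => p.2.1) := Poly.fst (Poly.snd Poly.id)
  have h2 : Poly (fun p : α × (ℕ × ℕ) => p.2.2) := Poly.snd (Poly.snd Poly.id)
  have hl1 : Poly (fun p : α × (ℕ × ℕ) => lab p.1 p.2.1) :=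
    Poly.comp hl (Poly.pair (Poly.fst Poly.id) h1)
  have hl2 : Poly (fun p : α × (ℕ × ℕ) => lab p.1 p.2.2) :=
    Poly.comp hl (Poly.pair (Poly.fst Poly.id) h2)
  have hw := t17_want hl1 hl2
  have he := t17_ent hA' h1 h2
  unfold cost
  refine Poly.length (Poly.filter (poly_product hr hr) ?_)
  refine Poly.and (Poly.decide_lt h1 h2) (Poly.optAny_fp hw ?_)
  have he' : Poly (fun q : (α × (ℕ × ℕ)) × Bool => ent (A q.1.1) q.1.2.1 q.1.2.2) :=
    Poly.comp he (Poly.fst Poly.id)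
  have hq : Poly (fun q : (α × (ℕ × ℕ)) × Bool => q.2) := Poly.snd Poly.id
  exact (Poly.xor he' hq).congr fun q => by
    cases ent (A q.1.1) q.1.2.1 q.1.2.2 <;> cases q.2 <;> rfl

theorem t17_cands {A : α → List (List Bool)} (hA : Poly A) :
    Poly (fun a => cands (A a).length) := by
  have key : ∀ (β : Type) [TEnc β] (e : β → α), Poly e →
      Poly (fun b => List.range (A (e b)).length) := fun β _ e he => t17_range (Poly.comp hA he)
  have hf : Poly (fun q : ((((α × ℕ) × ℕ) × ℕ) × ℕ) × ℕ =>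
      if q.1.1.1.1.2 ≠ q.1.1.1.2 ∧ q.1.1.1.1.2 ≠ q.1.1.2 ∧ q.1.1.1.1.2 ≠ q.1.2 ∧
        q.1.1.1.1.2 ≠ q.2 ∧ q.1.1.1.2 ≠ q.1.1.2 ∧ q.1.1.1.2 ≠ q.1.2 ∧ q.1.1.1.2 ≠ q.2 ∧
        q.1.1.2 ≠ q.1.2 ∧ q.1.1.2 ≠ q.2 ∧ q.1.2 ≠ q.2 then
        [[q.1.1.1.1.2, q.1.1.1.2, q.1.1.2, q.1.2, q.2]] else []) := by
    fun_prop
  unfold cands
  refine Poly.cons (NPC.Poly.const _) ?_
  refine Poly.flatMap (F := fun a x => _) (key _ (fun a => a) Poly.id) ?_
  refine Poly.flatMap (F := fun (p : α × ℕ) x => _)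
    (key _ (fun p : α × ℕ => p.1) (Poly.fst Poly.id)) ?_
  refine Poly.flatMap (F := fun (p : (α × ℕ) × ℕ) x => _)
    (key _ (fun p : (α × ℕ) × ℕ => p.1.1) (Poly.fst (Poly.fst Poly.id))) ?_
  refine Poly.flatMap (F := fun (p : ((α × ℕ) × ℕ) × ℕ) x => _)
    (key _ (fun p : ((α × ℕ) × ℕ) × ℕ => p.1.1.1) (Poly.fst (Poly.fst (Poly.fst Poly.id)))) ?_
  refine Poly.flatMap (F := fun (p : (((α × ℕ) × ℕ) × ℕ) × ℕ) x => _)
    (key _ (fun p : (((α × ℕ) × ℕ) × ℕ) × ℕ => p.1.1.1.1)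
      (Poly.fst (Poly.fst (Poly.fst (Poly.fst Poly.id))))) ?_
  exact hf

theorem poly_decE : Poly decE := by
  have hA : Poly (fun p : List (List Bool) × ℕ => p.1) := Poly.fst Poly.id
  have hk : Poly (fun p : List (List Bool) × ℕ => p.2) := Poly.snd Poly.id
  have hL : Poly (fun q : (List (List Bool) × ℕ) × List ℕ =>
      (none :: (List.range q.1.1.length).map some : List (Option ℕ))) :=
    Poly.cons (NPC.Poly.const _) (NPC.Poly.map (F := fun _ x => some x)
      (t17_range (Poly.comp hA (Poly.fst Poly.id))) (Poly.some (Poly.snd Poly.id)))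
  unfold decE
  refine Poly.any (t17_cands hA) ?_
  refine Poly.any hL ?_
  have hA2 : Poly (fun q : ((List (List Bool) × ℕ) × List ℕ) × Option ℕ => q.1.1.1) :=
    Poly.fst (Poly.fst (Poly.fst Poly.id))
  have hA3 : Poly (fun q : (((List (List Bool) × ℕ) × List ℕ) × Option ℕ) × ℕ => q.1.1.1.1) :=
    Poly.fst (Poly.fst (Poly.fst (Poly.fst Poly.id)))
  have hpre : Poly (fun q : (((List (List Bool) × ℕ) × List ℕ) × Option ℕ) × ℕ =>
      pre q.1.1.1.1.length (ent q.1.1.1.1) q.1.1.2 q.1.2 q.2) :=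
    t17_pre hA3 (Poly.snd (Poly.fst (Poly.fst Poly.id))) (Poly.snd (Poly.fst Poly.id))
      (Poly.snd Poly.id)
  have hlab : Poly (fun q : (((List (List Bool) × ℕ) × List ℕ) × Option ℕ) × ℕ =>
      labOf q.1.1.2 (pre q.1.1.1.1.length (ent q.1.1.1.1) q.1.1.2 q.1.2) q.2) :=
    t17_labOf (cs := fun q : (((List (List Bool) × ℕ) × List ℕ) × Option ℕ) × ℕ => q.1.1.2)
      (K := fun q => pre q.1.1.1.1.length (ent q.1.1.1.1) q.1.1.2 q.1.2)
      (v := fun q => q.2) (Poly.snd (Poly.fst (Poly.fst Poly.id))) hpre (Poly.snd Poly.id)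
  exact Poly.decide_le (t17_cost (lab := fun (q : ((List (List Bool) × ℕ) × List ℕ) × Option ℕ) =>
    labOf q.1.2 (pre q.1.1.1.length (ent q.1.1.1) q.1.2 q.2)) hA2 hlab)
    (Poly.snd (Poly.fst (Poly.fst Poly.id)))

end Pool.Agent.H548E
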