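import Pool.Agent.H548E.Defs

namespace Pool.Agent.H548E

open Pool.Agent.NPC Pool.Agent.NPC.R671 Pool.Agent.CK

private lemma t06_bool : ∀ (p0 p1 p2 p3 p4 : Bool) (_ : p0 → p2 → p1) (_ : p1 → p3 → p2)
    (_ : p2 → p4 → p3) (_ : p3 → p0 → p4) (_ : p4 → p1 → p0) (_ : p0 → p2 ∨ p3)
    (_ : p1 → p3 ∨ p4) (_ : p2 → p4 ∨ p0) (_ : p3 → p0 ∨ p1) (_ : p4 → p1 ∨ p2),
    (p0 ∨ p1 ∨ p2 ∨ p3 ∨ p4) → (p0 ∧ p1 ∧ p2 ∧ p3 ∧ p4) := by
  intro p0 p1 p2 p3 p4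
  cases p0 <;> cases p1 <;> cases p2 <;> cases p3 <;> cases p4 <;> simp

private lemma t06_prop (p0 p1 p2 p3 p4 : Prop) (A0 : p0 → p2 → p1) (A1 : p1 → p3 → p2)
    (A2 : p2 → p4 → p3) (A3 : p3 → p0 → p4) (A4 : p4 → p1 → p0) (B0 : p0 → p2 ∨ p3)
    (B1 : p1 → p3 ∨ p4) (B2 : p2 → p4 ∨ p0) (B3 : p3 → p0 ∨ p1) (B4 : p4 → p1 ∨ p2) :
    (p0 ∨ p1 ∨ p2 ∨ p3 ∨ p4) → (p0 ∧ p1 ∧ p2 ∧ p3 ∧ p4) := by
  classical
  have h := t06_bool (decide p0) (decide p1) (decide p2) (decide p3) (decide p4)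
  simp only [decide_eq_true_eq] at h
  exact h A0 A1 A2 A3 A4 B0 B1 B2 B3 B4

private lemma t06_all {V : Type} (G : SimpleGraph V) (h1 : NoC4 G)
    (h2 : No2K2 G) (c : Fin 5 → V) (hc : IsC5 G c) (a : V) (ha : ∀ i, a ≠ c i) (i : Fin 5)
    (hi : G.Adj a (c i)) : ∀ j, G.Adj a (c j) := by
  obtain ⟨hinj, hadj⟩ := hc
  have hne : ∀ i j : Fin 5, i ≠ j → c i ≠ c j := fun i j hij h => hij (hinj h)
  have A : ∀ i : Fin 5, G.Adj a (c i) → G.Adj a (c (i + 2)) → G.Adj a (c (i + 1)) := by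
    intro i hi hi2
    have e1 : G.Adj (c i) (c (i + 1)) := (hadj _ _).mpr (Or.inl rfl)
    have e2 : G.Adj (c (i + 1)) (c (i + 2)) := (hadj _ _).mpr (by clear * -; revert i; decide)
    have e3 : ¬ G.Adj (c i) (c (i + 2)) := fun h => by
      have := (hadj _ _).mp h
      clear * - this
      revert i
      decide
    rcases h1 a (c i) (c (i + 1)) (c (i + 2)) hi e1 e2 hi2.symm (ha _)
      (hne _ _ (by clear * -; revert i; decide)) with h | h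
    · exact h
    · exact absurd h e3
  have B : ∀ i : Fin 5, G.Adj a (c i) → G.Adj a (c (i + 2)) ∨ G.Adj a (c (i + 3)) := by
    intro i hi
    have e1 : G.Adj (c (i + 2)) (c (i + 3)) := (hadj _ _).mpr (by clear * -; revert i; decide)
    have e3 : ¬ G.Adj (c i) (c (i + 2)) := fun h => by
      have := (hadj _ _).mp h
      clear * - this
      revert i
      decide
    have e4 : ¬ G.Adj (c i) (c (i + 3)) := fun h => by
      have := (hadj _ _).mp h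
      clear * - this
      revert i
      decide
    rcases h2 a (c i) (c (i + 2)) (c (i + 3)) hi e1 (ha _) (ha _)
      (hne _ _ (by clear * -; revert i; decide)) (hne _ _ (by clear * -; revert i; decide))
      with h | h | h | h
    · exact Or.inl h
    · exact Or.inr h
    · exact absurd h e3
    · exact absurd h e4
  have A0 : G.Adj a (c 0) → G.Adj a (c 2) → G.Adj a (c 1) := A 0
  have A1 : G.Adj a (c 1) → G.Adj a (c 3) → G.Adj a (c 2) := A 1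
  have A2 : G.Adj a (c 2) → G.Adj a (c 4) → G.Adj a (c 3) := A 2
  have A3 : G.Adj a (c 3) → G.Adj a (c 0) → G.Adj a (c 4) := A 3
  have A4 : G.Adj a (c 4) → G.Adj a (c 1) → G.Adj a (c 0) := A 4
  have B0 : G.Adj a (c 0) → G.Adj a (c 2) ∨ G.Adj a (c 3) := B 0
  have B1 : G.Adj a (c 1) → G.Adj a (c 3) ∨ G.Adj a (c 4) := B 1
  have B2 : G.Adj a (c 2) → G.Adj a (c 4) ∨ G.Adj a (c 0) := B 2
  have B3 : G.Adj a (c 3) → G.Adj a (c 0) ∨ G.Adj a (c 1) := B 3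
  have B4 : G.Adj a (c 4) → G.Adj a (c 1) ∨ G.Adj a (c 2) := B 4
  have key : (G.Adj a (c 0) ∨ G.Adj a (c 1) ∨ G.Adj a (c 2) ∨ G.Adj a (c 3) ∨ G.Adj a (c 4)) →
      G.Adj a (c 0) ∧ G.Adj a (c 1) ∧ G.Adj a (c 2) ∧ G.Adj a (c 3) ∧ G.Adj a (c 4) := by
    exact t06_prop _ _ _ _ _ A0 A1 A2 A3 A4 B0 B1 B2 B3 B4
  have hor : G.Adj a (c 0) ∨ G.Adj a (c 1) ∨ G.Adj a (c 2) ∨ G.Adj a (c 3) ∨ G.Adj a (c 4) := by
    fin_cases i
    · exact Or.inl hi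
    · exact Or.inr (Or.inl hi)
    · exact Or.inr (Or.inr (Or.inl hi))
    · exact Or.inr (Or.inr (Or.inr (Or.inl hi)))
    · exact Or.inr (Or.inr (Or.inr (Or.inr hi)))
  obtain ⟨k0, k1, k2, k3, k4⟩ := key hor
  intro j
  fin_cases j
  · exact k0
  · exact k1
  · exact k2
  · exact k3
  · exact k4

theorem structure_of_C5 {V : Type} (G : SimpleGraph V) (h1 : NoC4 G)
    (h2 : No2K2 G) (c : Fin 5 → V) (hc : IsC5 G c) :
    ∃ K : Set V, (∀ i, c i ∉ K) ∧ (∀ a ∈ K, ∀ b ∈ K, a ≠ b → G.Adj a b) ∧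
      (∀ a ∈ K, ∀ i, G.Adj a (c i)) ∧
      ∀ a, a ∉ K → (∀ i, a ≠ c i) → (∀ i, ¬ G.Adj a (c i)) ∧
        ∀ b, b ∉ K → (∀ i, b ≠ c i) → ¬ G.Adj a b := by
  have hne : ∀ i j : Fin 5, i ≠ j → c i ≠ c j := fun i j hij h => hij (hc.1 h)
  have hout : ∀ a, a ∉ {a | ∀ i, G.Adj a (c i)} → (∀ i, a ≠ c i) → ∀ i, ¬ G.Adj a (c i) := by
    intro a haK ha i hi
    exact haK (t06_all G h1 h2 c hc a ha i hi)
  refine ⟨{a | ∀ i, G.Adj a (c i)}, ?_, ?_, fun a ha => ha, ?_⟩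
  · intro i hi
    exact G.loopless.irrefl _ (hi i)
  · intro a ha b hb hab
    rcases h1 a (c 0) b (c 2) (ha 0) (hb 0).symm (hb 2) (ha 2).symm hab
      (hne _ _ (by decide)) with h | h
    · exact h
    · have := (hc.2 _ _).mp h
      exact absurd this (by decide)
  · intro a haK ha
    refine ⟨hout a haK ha, ?_⟩
    intro b hbK hb hab
    have e : G.Adj (c 0) (c 1) := (hc.2 _ _).mpr (by decide)
    rcases h2 a b (c 0) (c 1) hab e (ha _) (ha _) (hb _) (hb _) with h | h | h | h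
    · exact hout a haK ha _ h
    · exact hout a haK ha _ h
    · exact hout b hbK hb _ h
    · exact hout b hbK hb _ h

end Pool.Agent.H548E
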