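import Pool.Agent.H548E.T05
import Pool.Agent.H548E.T06

/-!
# T07: labels of a pseudo-split graph
-/

namespace Pool.Agent.H548E

open Pool.Agent.NPC Pool.Agent.NPC.R671 Pool.Agent.CK

theorem t07_want_fin (i j : Fin 5) :
    want (i : ℕ) (j : ℕ) = some (decide (j = i + 1 ∨ i = j + 1)) := by
  revert i j
  decide

theorem t07_want5 (i : Fin 5) : want (i : ℕ) 5 = some true ∧ want 5 (i : ℕ) = some true ∧
    want (i : ℕ) 6 = some false ∧ want 6 (i : ℕ) = some false := by
  revert i
  decide

theorem t07_none : (∀ v : Bool, want 5 6 ≠ some v) ∧ ∀ v : Bool, want 6 5 ≠ some v := by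
  decide

theorem fits_of_free {V : Type} [Fintype V] [DecidableEq V] (G : SimpleGraph V) (h1 : NoC4 G)
    (h2 : No2K2 G) : ∃ lab : V → ℕ, ValidLab lab ∧ Fits G lab := by
  classical
  by_cases hex : ∃ c, IsC5 G c
  · obtain ⟨c, hc⟩ := hex
    obtain ⟨K, hK1, hK2, hK3, hK4⟩ := structure_of_C5 G h1 h2 c hc
    have hinj : Function.Injective c := hc.1
    obtain ⟨lab, hlab⟩ : ∃ lab : V → ℕ, (∀ i : Fin 5, lab (c i) = (i : ℕ)) ∧
        (∀ a, a ∈ K → lab a = 5) ∧ ∀ a, a ∉ K → (∀ i, a ≠ c i) → lab a = 6 := by
      refine ⟨fun a => if h : ∃ i, c i = a then (h.choose : ℕ) else if a ∈ K then 5 else 6,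
        ?_, ?_, ?_⟩
      · intro i
        have h : ∃ j, c j = c i := ⟨i, rfl⟩
        simp only [dif_pos h]
        rw [hinj h.choose_spec]
      · intro a ha
        have h : ¬ ∃ i, c i = a := by
          rintro ⟨i, hi⟩
          exact hK1 i (hi ▸ ha)
        simp only [dif_neg h, if_pos ha]
      · intro a ha hi
        have h : ¬ ∃ i, c i = a := by
          rintro ⟨i, hi'⟩
          exact hi i hi'.symm
        simp only [dif_neg h, if_neg ha]
    obtain ⟨l1, l2, l3⟩ := hlab
    have htri : ∀ a : V, (∃ i : Fin 5, a = c i) ∨ a ∈ K ∨ (a ∉ K ∧ ∀ i, a ≠ c i) := by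
      intro a
      by_cases e1 : ∃ i : Fin 5, a = c i
      · exact Or.inl e1
      · by_cases e2 : a ∈ K
        · exact Or.inr (Or.inl e2)
        · refine Or.inr (Or.inr ⟨e2, ?_⟩)
          intro i hi
          exact e1 ⟨i, hi⟩
    refine ⟨lab, ⟨?_, Or.inr ?_⟩, ?_⟩
    · intro a
      rcases htri a with ⟨i, rfl⟩ | ha | ⟨ha, hi⟩
      · rw [l1]
        have := i.2
        omega
      · rw [l2 a ha]
        omega
      · rw [l3 a ha hi]
    · intro i hi
      refine ⟨c ⟨i, hi⟩, l1 ⟨i, hi⟩, ?_⟩
      intro a ha
      have ha' : lab a = i := ha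
      rcases htri a with ⟨j, rfl⟩ | ha2 | ⟨ha2, hi2⟩
      · rw [l1] at ha'
        congr 1
        exact Fin.ext ha'
      · rw [l2 a ha2] at ha'
        omega
      · rw [l3 a ha2 hi2] at ha'
        omega
    · intro a b hab v hv
      rcases htri a with ⟨i, rfl⟩ | ha | ⟨ha, hi⟩
      · rcases htri b with ⟨j, rfl⟩ | hb | ⟨hb, hj⟩
        · rw [l1, l1, t07_want_fin] at hv
          rw [hc.2 i j]
          have hv' := Option.some.inj hv
          rw [← hv', decide_eq_true_eq]
        · rw [l1, l2 b hb, (t07_want5 i).1] at hv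
          have hv' := Option.some.inj hv
          rw [← hv']
          simp only [iff_true]
          exact (hK3 b hb i).symm
        · rw [l1, l3 b hb hj, (t07_want5 i).2.2.1] at hv
          have hv' := Option.some.inj hv
          rw [← hv']
          simp only [Bool.false_eq_true, iff_false]
          exact fun h => (hK4 b hb hj).1 i h.symm
      · rcases htri b with ⟨j, rfl⟩ | hb | ⟨hb, hj⟩
        · rw [l1, l2 a ha, (t07_want5 j).2.1] at hv
          have hv' := Option.some.inj hv
          rw [← hv']
          simp only [iff_true]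
          exact hK3 a ha j
        · rw [l2 a ha, l2 b hb] at hv
          have hv' := Option.some.inj ((show want 5 5 = some true by decide).symm.trans hv)
          rw [← hv']
          simp only [iff_true]
          exact hK2 a ha b hb hab
        · rw [l2 a ha, l3 b hb hj] at hv
          exact absurd hv (t07_none.1 v)
      · rcases htri b with ⟨j, rfl⟩ | hb | ⟨hb, hj⟩
        · rw [l1, l3 a ha hi, (t07_want5 j).2.2.2] at hv
          have hv' := Option.some.inj hv
          rw [← hv']
          simp only [Bool.false_eq_true, iff_false]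
          exact (hK4 a ha hi).1 j
        · rw [l3 a ha hi, l2 b hb] at hv
          exact absurd hv (t07_none.2 v)
        · rw [l3 a ha hi, l3 b hb hj] at hv
          have hv' := Option.some.inj ((show want 6 6 = some false by decide).symm.trans hv)
          rw [← hv']
          simp only [Bool.false_eq_true, iff_false]
          exact (hK4 a ha hi).2 b hb hj
  · push Not at hex
    obtain ⟨K, hK1, hK2⟩ := split_of_free G h1 h2 hex
    refine ⟨fun a => if a ∈ K then 5 else 6, ⟨?_, Or.inl ?_⟩, ?_⟩
    · intro a
      show (if a ∈ K then 5 else 6) ≤ 6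
      split_ifs <;> omega
    · intro a
      show (if a ∈ K then 5 else 6) = 5 ∨ (if a ∈ K then 5 else 6) = 6
      split_ifs <;> simp
    · intro a b hab v hv
      have hv2 : want (if a ∈ K then 5 else 6) (if b ∈ K then 5 else 6) = some v := hv
      by_cases ha : a ∈ K
      · by_cases hb : b ∈ K
        · rw [if_pos ha, if_pos hb] at hv2
          have hv' := Option.some.inj ((show want 5 5 = some true by decide).symm.trans hv2)
          rw [← hv']
          simp only [iff_true]
          exact hK1 a ha b hb hab
        · rw [if_pos ha, if_neg hb] at hv2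
          exact absurd hv2 (t07_none.1 v)
      · by_cases hb : b ∈ K
        · rw [if_neg ha, if_pos hb] at hv2
          exact absurd hv2 (t07_none.2 v)
        · rw [if_neg ha, if_neg hb] at hv2
          have hv' := Option.some.inj ((show want 6 6 = some false by decide).symm.trans hv2)
          rw [← hv']
          simp only [Bool.false_eq_true, iff_false]
          exact hK2 a ha b hb

end Pool.Agent.H548E
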