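import Pool.Agent.H548E.Defs

/-! T08: labelled graphs have no induced C4 (helper847) -/

namespace Pool.Agent.H548E

open Pool.Agent.NPC Pool.Agent.NPC.R671 Pool.Agent.CK

private theorem t08_dec : ∀ A B C D : Fin 7,
    want A B ≠ some false → want B C ≠ some false → want C D ≠ some false →
    want D A ≠ some false → want A C ≠ some true → want B D ≠ some true →
    ((A : ℕ) < 5 → A ≠ B) → ((A : ℕ) < 5 → A ≠ C) → ((A : ℕ) < 5 → A ≠ D) →
    ((B : ℕ) < 5 → B ≠ C) → ((B : ℕ) < 5 → B ≠ D) → ((C : ℕ) < 5 → C ≠ D) → False := by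
  decide +kernel

theorem noC4_of_fits {V : Type} (G : SimpleGraph V) (lab : V → ℕ) (hl : ValidLab lab)
    (hf : Fits G lab) : NoC4 G := by
  intro a b c d hab hbc hcd hda hac hbd
  by_contra hcon
  push Not at hcon
  obtain ⟨h1, h2⟩ := hcon
  have hadj : ∀ x y, G.Adj x y → want (lab x) (lab y) ≠ some false := by
    intro x y hxy h
    have := (hf x y hxy.ne false h).1 hxy
    exact Bool.false_ne_true this
  have hnadj : ∀ x y, x ≠ y → ¬ G.Adj x y → want (lab x) (lab y) ≠ some true := by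
    intro x y hne hxy h
    exact hxy ((hf x y hne true h).2 rfl)
  have hu : ∀ x y, x ≠ y → lab x < 5 → lab x ≠ lab y := by
    intro x y hne hx h
    rcases hl.2 with h5 | h5
    · rcases h5 x with h6 | h6 <;> omega
    · obtain ⟨z, -, hz⟩ := h5 (lab x) hx
      exact hne ((hz x rfl).trans (hz y h.symm).symm)
  have hlt : ∀ x, lab x < 7 := fun x => Nat.lt_succ_of_le (hl.1 x)
  have hne : ∀ x y, x ≠ y → lab x < 5 → (⟨lab x, hlt x⟩ : Fin 7) ≠ ⟨lab y, hlt y⟩ := by
    intro x y hxy hx h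
    exact hu x y hxy hx (congrArg Fin.val h)
  exact t08_dec ⟨lab a, hlt a⟩ ⟨lab b, hlt b⟩ ⟨lab c, hlt c⟩ ⟨lab d, hlt d⟩
    (hadj a b hab) (hadj b c hbc) (hadj c d hcd) (hadj d a hda) (hnadj a c hac h1)
    (hnadj b d hbd h2) (hne a b hab.ne) (hne a c hac) (hne a d hda.ne.symm)
    (hne b c hbc.ne) (hne b d hbd) (hne c d hcd.ne)

end Pool.Agent.H548E
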