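import Pool.Agent.H548E.Defs

namespace Pool.Agent.H548E

open Pool.Agent.NPC Pool.Agent.NPC.R671 Pool.Agent.CK

set_option maxRecDepth 100000 in
theorem t09_check : ∀ x y z w : Fin 7,
    (want x y = some false ∨ want z w = some false ∨ want x z = some true ∨
      want x w = some true ∨ want y z = some true ∨ want y w = some true ∨
      (x = y ∧ (x : ℕ) < 5) ∨ (x = z ∧ (x : ℕ) < 5) ∨ (x = w ∧ (x : ℕ) < 5) ∨
      (y = z ∧ (y : ℕ) < 5) ∨ (y = w ∧ (y : ℕ) < 5) ∨ (z = w ∧ (z : ℕ) < 5)) := by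
  decide

/-- B5 -/
theorem no2K2_of_fits {V : Type} (G : SimpleGraph V) (lab : V → ℕ) (hl : ValidLab lab)
    (hf : Fits G lab) : No2K2 G := by
  intro a b c d hab hcd hac had hbc hbd
  by_contra hcon
  push Not at hcon
  obtain ⟨n1, n2, n3, n4⟩ := hcon
  have hb : ∀ v, lab v < 7 := fun v => Nat.lt_succ_of_le (hl.1 v)
  have huniq : ∀ u v, u ≠ v → lab u = lab v → ¬ lab u < 5 := by
    intro u v huv he h5
    rcases hl.2 with h | h
    · rcases h u with h | h <;> omega
    · obtain ⟨w, hw, hw2⟩ := h (lab u) h5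
      exact huv ((hw2 u rfl).trans (hw2 v he.symm).symm)
  have adj1 : ∀ u v, G.Adj u v → want (lab u) (lab v) ≠ some false := by
    intro u v h he
    have := (hf u v h.ne false he).mp h
    exact absurd this (by decide)
  have adj2 : ∀ u v, u ≠ v → ¬ G.Adj u v → want (lab u) (lab v) ≠ some true := by
    intro u v huv h he
    exact h ((hf u v huv true he).mpr rfl)
  have key := t09_check ⟨lab a, hb a⟩ ⟨lab b, hb b⟩ ⟨lab c, hb c⟩ ⟨lab d, hb d⟩
  simp only [Fin.mk.injEq] at key
  rcases key with h | h | h | h | h | h | h | h | h | h | h | h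
  · exact adj1 a b hab h
  · exact adj1 c d hcd h
  · exact adj2 a c hac n1 h
  · exact adj2 a d had n2 h
  · exact adj2 b c hbc n3 h
  · exact adj2 b d hbd n4 h
  · exact huniq a b hab.ne h.1 h.2
  · exact huniq a c hac h.1 h.2
  · exact huniq a d had h.1 h.2
  · exact huniq b c hbc h.1 h.2
  · exact huniq b d hbd h.1 h.2
  · exact huniq c d hcd.ne h.1 h.2

end Pool.Agent.H548E
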