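import Pool.Agent.H548E.Defs

/-!
# T10: the number of wrong pairs is at most the distance
-/

namespace Pool.Agent.H548E

open Pool.Agent.NPC Pool.Agent.NPC.R671 Pool.Agent.CK

theorem t10_mem (n : ℕ) (g : ℕ → ℕ → Bool) (lab : ℕ → ℕ) (p : ℕ × ℕ)
    (hp : p ∈ (List.range n ×ˢ List.range n).filter fun p =>
      decide (p.1 < p.2) && (want (lab p.1) (lab p.2)).any fun v => g p.1 p.2 != v) :
    p.1 < n ∧ p.2 < n ∧ p.1 < p.2 ∧ ∃ v, want (lab p.1) (lab p.2) = some v ∧ g p.1 p.2 ≠ v := by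
  rw [List.mem_filter] at hp
  obtain ⟨h1, h2⟩ := hp
  rw [List.mem_product, List.mem_range, List.mem_range] at h1
  rw [Bool.and_eq_true, decide_eq_true_eq] at h2
  refine ⟨h1.1, h1.2, h2.1, ?_⟩
  cases hw : want (lab p.1) (lab p.2) with
  | none => rw [hw] at h2; simp at h2
  | some v =>
    refine ⟨v, rfl, ?_⟩
    rw [hw] at h2
    simpa using h2.2

theorem cost_le_of_fits (n : ℕ) (G G' : SimpleGraph (Fin n)) (g : ℕ → ℕ → Bool)
    (hg : ∀ i j : Fin n, g i j = true ↔ G.Adj i j) (lab : ℕ → ℕ)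
    (hf : Fits G' (fun i : Fin n => lab i)) :
    cost n g lab ≤ (symmDiff G.edgeSet G'.edgeSet).ncard := by
  classical
  have hfin : (symmDiff G.edgeSet G'.edgeSet).Finite := Set.toFinite _
  unfold cost
  have hnd : ((List.range n ×ˢ List.range n).filter fun p =>
      decide (p.1 < p.2) && (want (lab p.1) (lab p.2)).any fun v => g p.1 p.2 != v).Nodup :=
    (List.Nodup.product List.nodup_range List.nodup_range).filter _
  have hmem := t10_mem n g lab
  generalize (List.range n ×ˢ List.range n).filter (fun p =>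
      decide (p.1 < p.2) && (want (lab p.1) (lab p.2)).any fun v => g p.1 p.2 != v) = L at *
  rw [← List.toFinset_card_of_nodup hnd, Set.ncard_eq_toFinset_card _ hfin, ← Finset.card_attach]
  refine Finset.card_le_card_of_injOn (fun p : {x // x ∈ L.toFinset} =>
    (s(⟨p.1.1, (hmem p.1 (List.mem_toFinset.mp p.2)).1⟩,
      ⟨p.1.2, (hmem p.1 (List.mem_toFinset.mp p.2)).2.1⟩) : Sym2 (Fin n))) ?_ ?_
  · rintro ⟨p, hp⟩ -
    obtain ⟨h1, h2, h3, v, hv, hgv⟩ := hmem p (List.mem_toFinset.mp hp)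
    rw [Finset.mem_coe, Set.Finite.mem_toFinset, Set.mem_symmDiff]
    have hne : (⟨p.1, h1⟩ : Fin n) ≠ ⟨p.2, h2⟩ := by
      intro h
      have := congrArg Fin.val h
      simp only at this
      omega
    have e1 := hf ⟨p.1, h1⟩ ⟨p.2, h2⟩ hne v hv
    have e2 := hg ⟨p.1, h1⟩ ⟨p.2, h2⟩
    simp only at e2
    show (G.Adj ⟨p.1, h1⟩ ⟨p.2, h2⟩ ∧ ¬ G'.Adj ⟨p.1, h1⟩ ⟨p.2, h2⟩) ∨
      (G'.Adj ⟨p.1, h1⟩ ⟨p.2, h2⟩ ∧ ¬ G.Adj ⟨p.1, h1⟩ ⟨p.2, h2⟩)
    rw [← e2, e1]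
    revert hgv
    cases g p.1 p.2 <;> cases v <;> simp
  · rintro ⟨p, hp⟩ - ⟨q, hq⟩ - h
    have h3 := (hmem p (List.mem_toFinset.mp hp)).2.2.1
    have h4 := (hmem q (List.mem_toFinset.mp hq)).2.2.1
    simp only [Sym2.eq_iff, Fin.mk.injEq] at h
    apply Subtype.ext
    apply Prod.ext
    · show p.1 = q.1
      omega
    · show p.2 = q.2
      omega

end Pool.Agent.H548E
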