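import Pool.Agent.H548E.Defs

/-!
# Realizing the labels with few edits
-/

namespace Pool.Agent.H548E

open Pool.Agent.NPC Pool.Agent.NPC.R671 Pool.Agent.CK

theorem t11_want_symm (x y : ℕ) : want x y = want y x := by
  unfold want
  have h1 : ((x = 5 ∧ y = 6) ∨ (x = 6 ∧ y = 5)) ↔ ((y = 5 ∧ x = 6) ∨ (y = 6 ∧ x = 5)) := by
    tauto
  have h2 : (x = 6 ∨ y = 6) ↔ (y = 6 ∨ x = 6) := or_comm
  have h3 : (x = 5 ∨ y = 5) ↔ (y = 5 ∨ x = 5) := or_comm
  have h4 : ((x + 1) % 5 = y ∨ (y + 1) % 5 = x) ↔ ((y + 1) % 5 = x ∨ (x + 1) % 5 = y) := or_comm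
  have e4 : decide ((x + 1) % 5 = y ∨ (y + 1) % 5 = x) =
      decide ((y + 1) % 5 = x ∨ (x + 1) % 5 = y) := decide_eq_decide.2 h4
  rw [e4]
  by_cases c1 : (x = 5 ∧ y = 6) ∨ (x = 6 ∧ y = 5)
  · rw [if_pos c1, if_pos (h1.1 c1)]
  · rw [if_neg c1, if_neg (fun h => c1 (h1.2 h))]
    by_cases c2 : x = 6 ∨ y = 6
    · rw [if_pos c2, if_pos (h2.1 c2)]
    · rw [if_neg c2, if_neg (fun h => c2 (h2.2 h))]
      by_cases c3 : x = 5 ∨ y = 5
      · rw [if_pos c3, if_pos (h3.1 c3)]
      · rw [if_neg c3, if_neg (fun h => c3 (h3.2 h))]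

/-- the adjacency of the edited graph -/
def t11_adj {n : ℕ} (G : SimpleGraph (Fin n)) (lab : ℕ → ℕ) (i j : Fin n) : Prop :=
  (want (lab i) (lab j) = none ∧ G.Adj i j) ∨ want (lab i) (lab j) = some true

/-- the edited graph -/
def t11_G {n : ℕ} (G : SimpleGraph (Fin n)) (lab : ℕ → ℕ) : SimpleGraph (Fin n) where
  Adj i j := i ≠ j ∧ t11_adj G lab i j
  symm := ⟨by
    rintro i j ⟨h1, h2⟩
    refine ⟨h1.symm, ?_⟩
    rcases h2 with ⟨h3, h4⟩ | h3
    · exact Or.inl ⟨by rw [t11_want_symm]; exact h3, h4.symm⟩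
    · exact Or.inr (by rw [t11_want_symm]; exact h3)⟩
  loopless := ⟨fun i h => h.1 rfl⟩

theorem exists_fits_of_cost (n : ℕ) (G : SimpleGraph (Fin n)) (g : ℕ → ℕ → Bool)
    (hg : ∀ i j : Fin n, g i j = true ↔ G.Adj i j) (lab : ℕ → ℕ) (hl : ∀ i < n, lab i ≤ 6) :
    ∃ G' : SimpleGraph (Fin n), Fits G' (fun i : Fin n => lab i) ∧
      (symmDiff G.edgeSet G'.edgeSet).ncard ≤ cost n g lab := by
  classical
  refine ⟨t11_G G lab, ?_, ?_⟩
  · intro a b hab v hv
    change want (lab a) (lab b) = some v at hv
    constructor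
    · rintro ⟨-, h⟩
      rcases h with ⟨h3, -⟩ | h3
      · rw [h3] at hv
        exact absurd hv (by simp)
      · rw [h3, Option.some.injEq] at hv
        exact hv.symm
    · intro h
      refine ⟨hab, Or.inr ?_⟩
      rw [hv, h]
  · set L := (List.range n ×ˢ List.range n).filter fun p =>
      decide (p.1 < p.2) && (want (lab p.1) (lab p.2)).any fun v => g p.1 p.2 != v with hL
    have hsub : symmDiff G.edgeSet (t11_G G lab).edgeSet ⊆
        (fun p : Fin n × Fin n => s(p.1, p.2)) '' {p | ((p.1 : ℕ), (p.2 : ℕ)) ∈ L} := by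
      have key : ∀ i j : Fin n, i < j →
          s(i, j) ∈ symmDiff G.edgeSet (t11_G G lab).edgeSet → ((i : ℕ), (j : ℕ)) ∈ L := by
        intro i j hij he
        have hlt : (i : ℕ) < (j : ℕ) := hij
        rw [Set.mem_symmDiff, SimpleGraph.mem_edgeSet, SimpleGraph.mem_edgeSet] at he
        rw [hL, List.mem_filter]
        refine ⟨by simp [List.mem_product], ?_⟩
        simp only [Bool.and_eq_true, decide_eq_true_eq]
        refine ⟨hlt, ?_⟩
        rcases hw : want (lab i) (lab j) with _ | v
        · exfalso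
          have : (t11_G G lab).Adj i j ↔ G.Adj i j := by
            constructor
            · rintro ⟨-, h⟩
              rcases h with ⟨-, h⟩ | h
              · exact h
              · rw [hw] at h
                exact absurd h (by simp)
            · intro h
              exact ⟨hij.ne, Or.inl ⟨hw, h⟩⟩
          tauto
        · have h1 : (t11_G G lab).Adj i j ↔ v = true := by
            constructor
            · rintro ⟨-, h⟩
              rcases h with ⟨h, -⟩ | h
              · rw [hw] at h
                exact absurd h (by simp)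
              · rw [hw, Option.some.injEq] at h
                exact h
            · intro h
              exact ⟨hij.ne, Or.inr (by rw [hw, h])⟩
          have h2 := hg i j
          have h3 : g i j ≠ v := by
            intro h
            rw [h] at h2
            tauto
          simpa using h3
      intro e he
      induction e using Sym2.ind with
      | _ i j =>
        rcases lt_trichotomy i j with h | h | h
        · exact ⟨(i, j), key i j h he, rfl⟩
        · exfalso
          subst h
          rw [Set.mem_symmDiff, SimpleGraph.mem_edgeSet, SimpleGraph.mem_edgeSet] at he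
          rcases he with ⟨he, -⟩ | ⟨he, -⟩
          · exact G.loopless.irrefl i he
          · exact (t11_G G lab).loopless.irrefl i he
        · rw [Sym2.eq_swap] at he ⊢
          exact ⟨(j, i), key j i h he, rfl⟩
    have hc : cost n g lab = L.length := rfl
    rw [hc]
    calc (symmDiff G.edgeSet (t11_G G lab).edgeSet).ncard
        ≤ ((fun p : Fin n × Fin n => s(p.1, p.2)) '' {p | ((p.1 : ℕ), (p.2 : ℕ)) ∈ L}).ncard :=
          Set.ncard_le_ncard hsub (Set.toFinite _)
      _ ≤ ({p : Fin n × Fin n | ((p.1 : ℕ), (p.2 : ℕ)) ∈ L}).ncard :=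
          Set.ncard_image_le (Set.toFinite _)
      _ ≤ ((L.toFinset : Finset (ℕ × ℕ)) : Set (ℕ × ℕ)).ncard := by
          apply Set.ncard_le_ncard_of_injOn (fun p : Fin n × Fin n => ((p.1 : ℕ), (p.2 : ℕ)))
          · intro p hp
            simpa using hp
          · intro p _ q _ h
            simp only [Prod.mk.injEq] at h
            exact Prod.ext (Fin.ext h.1) (Fin.ext h.2)
      _ = L.toFinset.card := Set.ncard_coe_finset _
      _ ≤ L.length := List.toFinset_card_le L

end Pool.Agent.H548E
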