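import Pool.Agent.H548E.Defs

namespace Pool.Agent.H548E

open Pool.Agent.NPC Pool.Agent.NPC.R671 Pool.Agent.CK

/-- indicator of a wrong pair -/
private def t12_bad (g : ℕ → ℕ → Bool) (lab : ℕ → ℕ) (a b : ℕ) : ℤ :=
  if (want (lab a) (lab b)).any (fun v => g a b != v) = true then 1 else 0

/-- integer value of a Boolean -/
private def t12_z (b : Bool) : ℤ := if b = true then 1 else 0

private theorem t12_cost (n : ℕ) (g : ℕ → ℕ → Bool) (lab : ℕ → ℕ) :
    (cost n g lab : ℤ) = ∑ a ∈ Finset.range n, ∑ b ∈ Finset.range n,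
      if a < b then t12_bad g lab a b else 0 := by
  have hnd : (List.range n ×ˢ List.range n).Nodup := List.nodup_range.product List.nodup_range
  have h1 : cost n g lab = ((Finset.range n ×ˢ Finset.range n).filter fun p : ℕ × ℕ =>
      p.1 < p.2 ∧ (want (lab p.1) (lab p.2)).any (fun v => g p.1 p.2 != v) = true).card := by
    unfold cost
    rw [← List.toFinset_card_of_nodup (hnd.filter _)]
    congr 1
    ext ⟨a, b⟩
    simp only [List.mem_toFinset, List.mem_filter, Finset.mem_filter, Finset.mem_product,
      Finset.mem_range, Bool.and_eq_true, decide_eq_true_eq]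
    have : (a, b) ∈ List.range n ×ˢ List.range n ↔ a < n ∧ b < n := by
      simp [List.mem_product]
    rw [this]
  rw [h1, Finset.card_filter, Nat.cast_sum, Finset.sum_product]
  refine Finset.sum_congr rfl fun a _ => Finset.sum_congr rfl fun b _ => ?_
  unfold t12_bad
  by_cases h : a < b
  · by_cases h' : (want (lab a) (lab b)).any (fun v => g a b != v) = true
    · simp [h, h']
    · simp [h, h']
  · simp [h]

private theorem t12_notmem (cs : List ℕ) (K : ℕ → Bool) (v : ℕ) (h : v ∉ cs) :
    labOf cs K v = if K v = true then 5 else 6 := by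
  have h' : ∀ i : ℕ, cs[i]? ≠ some v := fun i hi => h (List.mem_of_getElem? hi)
  unfold labOf
  rw [if_neg (h' 0), if_neg (h' 1), if_neg (h' 2), if_neg (h' 3), if_neg (h' 4)]

private theorem t12_mem (cs : List ℕ) (hcs : cs = [] ∨ cs.length = 5) (v : ℕ) (h : v ∈ cs) :
    ∃ x ≤ 4, ∀ K : ℕ → Bool, labOf cs K v = x := by
  have h5 : cs.length = 5 := by
    rcases hcs with h0 | h0
    · rw [h0] at h
      simp at h
    · exact h0
  obtain ⟨i, hi, hv⟩ := List.getElem_of_mem h
  have hv' : cs[i]? = some v := by rw [List.getElem?_eq_getElem hi, hv]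
  have hi5 : i < 5 := by omega
  by_cases h0 : cs[0]? = some v
  · exact ⟨0, by norm_num, fun K => by unfold labOf; rw [if_pos h0]⟩
  by_cases h1 : cs[1]? = some v
  · exact ⟨1, by norm_num, fun K => by unfold labOf; rw [if_neg h0, if_pos h1]⟩
  by_cases h2 : cs[2]? = some v
  · exact ⟨2, by norm_num, fun K => by unfold labOf; rw [if_neg h0, if_neg h1, if_pos h2]⟩
  by_cases h3 : cs[3]? = some v
  · exact ⟨3, by norm_num, fun K => by
      unfold labOf; rw [if_neg h0, if_neg h1, if_neg h2, if_pos h3]⟩
  by_cases h4 : cs[4]? = some v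
  · exact ⟨4, by norm_num, fun K => by
      unfold labOf; rw [if_neg h0, if_neg h1, if_neg h2, if_neg h3, if_pos h4]⟩
  exfalso
  interval_cases i <;> simp_all

private theorem t12_w5 (x : ℕ) (hx : x ≤ 4) : want x 5 = some true ∧ want x 6 = some false ∧
    want 5 x = some true ∧ want 6 x = some false := by
  interval_cases x <;> decide

/-- the contribution of a pair -/
private def t12_h (g : ℕ → ℕ → Bool) (cs : List ℕ) (K : Finset ℕ) (a b : ℕ) : ℤ :=
  t12_z (decide (a ∈ K)) * (t12_z (decide (b ∈ cs)) - (1 + t12_z (decide (b ∈ cs))) * t12_z (g a b))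

private theorem t12_pair (g : ℕ → ℕ → Bool) (hs : ∀ i j, g i j = g j i) (cs : List ℕ)
    (hcs : cs = [] ∨ cs.length = 5) (K : Finset ℕ) (hK : ∀ v ∈ K, v ∉ cs) (a b : ℕ) :
    t12_bad g (labOf cs fun v => decide (v ∈ K)) a b = t12_bad g (labOf cs fun _ => false) a b +
      (t12_z (decide (a ∈ K)) * t12_z (decide (b ∈ K)) + t12_h g cs K a b + t12_h g cs K b a) := by
  unfold t12_bad t12_h
  rw [hs b a]
  by_cases ha : a ∈ cs
  · obtain ⟨x, hx, hxK⟩ := t12_mem cs hcs a ha
    have haK : a ∉ K := fun h => hK a h ha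
    rw [hxK, hxK]
    by_cases hb : b ∈ cs
    · obtain ⟨y, hy, hyK⟩ := t12_mem cs hcs b hb
      have hbK : b ∉ K := fun h => hK b h hb
      rw [hyK, hyK]
      simp [t12_z, haK, hbK]
    · rw [t12_notmem _ _ _ hb, t12_notmem _ _ _ hb]
      obtain ⟨w1, w2, w3, w4⟩ := t12_w5 x hx
      by_cases hbK : b ∈ K
      · simp only [hbK, decide_true, if_true, w1, w2, haK, ha, decide_false, hb, t12_z,
          Option.any_some]
        cases g a b <;> simp [w1, w2, w3, w4]
      · simp only [hbK, decide_false, w2, haK, ha, decide_true, hb, t12_z]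
        cases g a b <;> simp [w1, w2, w3, w4]
  · rw [t12_notmem _ _ _ ha, t12_notmem _ _ _ ha]
    by_cases hb : b ∈ cs
    · obtain ⟨y, hy, hyK⟩ := t12_mem cs hcs b hb
      have hbK : b ∉ K := fun h => hK b h hb
      rw [hyK, hyK]
      obtain ⟨w1, w2, w3, w4⟩ := t12_w5 y hy
      by_cases haK : a ∈ K
      · simp only [hbK, decide_true, if_true, w3, w4, haK, ha, decide_false, hb, t12_z,
          Option.any_some]
        cases g a b <;> simp [w1, w2, w3, w4]
      · simp only [hbK, decide_false, w4, haK, ha, decide_true, hb, t12_z]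
        cases g a b <;> simp [w1, w2, w3, w4]
    · rw [t12_notmem _ _ _ hb, t12_notmem _ _ _ hb]
      by_cases haK : a ∈ K <;> by_cases hbK : b ∈ K <;>
        simp only [haK, hbK, ha, hb, decide_true, decide_false, t12_z, want] <;>
        cases g a b <;> simp

/-- symmetrization -/
private theorem t12_sym (n : ℕ) (h : ℕ → ℕ → ℤ) :
    ∑ a ∈ Finset.range n, ∑ b ∈ Finset.range n, (if a < b then h a b + h b a else 0) =
    ∑ a ∈ Finset.range n, ∑ b ∈ Finset.range n, (if a ≠ b then h a b else 0) := by
  have h1 : ∀ a b : ℕ, (if a < b then h a b + h b a else 0) =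
      (if a < b then h a b else 0) + (if a < b then h b a else 0) := by
    intro a b
    split_ifs <;> simp
  simp only [h1, Finset.sum_add_distrib]
  rw [Finset.sum_comm (f := fun a b => if a < b then h b a else 0), ← Finset.sum_add_distrib]
  refine Finset.sum_congr rfl fun a _ => ?_
  rw [← Finset.sum_add_distrib]
  refine Finset.sum_congr rfl fun b _ => ?_
  rcases lt_trichotomy a b with h2 | h2 | h2
  · rw [if_pos h2, if_neg (by omega), if_pos (by omega), add_zero]
  · rw [if_neg (by omega), if_neg (by omega), if_neg (by simpa using h2), add_zero]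
  · rw [if_neg (by omega), if_pos h2, if_pos (by omega), zero_add]

private theorem t12_choose (k : ℕ) : (k.choose 2 : ℤ) * 2 = k * k - k := by
  induction k with
  | zero => simp
  | succ k ih =>
    rw [Nat.choose_succ_succ' k 1]
    push_cast
    rw [Nat.choose_one_right, add_mul, ih]
    ring

private theorem t12_sumK (n : ℕ) (K : Finset ℕ) (hK : ∀ v ∈ K, v < n) (f : ℕ → ℤ) :
    ∑ a ∈ Finset.range n, t12_z (decide (a ∈ K)) * f a = ∑ a ∈ K, f a := by
  have hsub : K ⊆ Finset.range n := fun v hv => Finset.mem_range.2 (hK v hv)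
  rw [← Finset.sum_subset hsub (f := fun a => t12_z (decide (a ∈ K)) * f a)]
  · refine Finset.sum_congr rfl fun a ha => ?_
    simp [t12_z, ha]
  · intro a _ ha
    simp [t12_z, ha]

private theorem t12_list (cs : List ℕ) (hnd : cs.Nodup) (n : ℕ) (hlt : ∀ c ∈ cs, c < n)
    (f : ℕ → Bool) :
    ∑ b ∈ Finset.range n, t12_z (decide (b ∈ cs)) * t12_z (f b) = (cs.filter f).length := by
  have h1 : (cs.filter f).length = (cs.filter f).toFinset.card :=
    (List.toFinset_card_of_nodup (hnd.filter _)).symm
  rw [h1, Finset.card_eq_sum_ones, Nat.cast_sum]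
  have hsub : (cs.filter f).toFinset ⊆ Finset.range n := by
    intro v hv
    rw [List.mem_toFinset, List.mem_filter] at hv
    exact Finset.mem_range.2 (hlt v hv.1)
  rw [← Finset.sum_subset hsub (f := fun b => t12_z (decide (b ∈ cs)) * t12_z (f b))]
  · refine Finset.sum_congr rfl fun b hb => ?_
    rw [List.mem_toFinset, List.mem_filter] at hb
    simp [t12_z, hb.1, hb.2]
  · intro b _ hb
    rw [List.mem_toFinset, List.mem_filter] at hb
    by_cases h2 : b ∈ cs
    · have h3 : ¬ f b = true := fun h => hb ⟨h2, h⟩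
      simp [t12_z, h2, h3]
    · simp [t12_z, h2]

private theorem t12_range (cs : List ℕ) (n : ℕ) (f : ℕ → Bool) :
    ∑ b ∈ Finset.range n, (1 - t12_z (decide (b ∈ cs))) * t12_z (f b) =
      (((List.range n).filter fun w => !(decide (w ∈ cs)) && f w).length : ℤ) := by
  rw [← List.toFinset_card_of_nodup (List.nodup_range.filter _), Finset.card_eq_sum_ones,
    Nat.cast_sum]
  have hsub : ((List.range n).filter fun w => !(decide (w ∈ cs)) && f w).toFinset ⊆
      Finset.range n := by
    intro v hv
    rw [List.mem_toFinset, List.mem_filter, List.mem_range] at hv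
    exact Finset.mem_range.2 hv.1
  rw [← Finset.sum_subset hsub (f := fun b => (1 - t12_z (decide (b ∈ cs))) * t12_z (f b))]
  · refine Finset.sum_congr rfl fun b hb => ?_
    rw [List.mem_toFinset, List.mem_filter] at hb
    obtain ⟨_, hb2⟩ := hb
    simp only [Bool.and_eq_true, Bool.not_eq_true', decide_eq_false_iff_not] at hb2
    simp [t12_z, hb2.1, hb2.2]
  · intro b hb' hb
    rw [List.mem_toFinset, List.mem_filter, List.mem_range] at hb
    have hb'' := Finset.mem_range.1 hb'
    by_cases h2 : b ∈ cs
    · simp [t12_z, h2]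
    · have h3 : ¬ f b = true := fun h => hb ⟨hb'', by simp [h2, h]⟩
      simp [t12_z, h3]

theorem cost_labOf (n : ℕ) (g : ℕ → ℕ → Bool) (hs : ∀ i j, g i j = g j i)
    (hi : ∀ i, g i i = false) (cs : List ℕ) (hcs : cs = [] ∨ cs.length = 5) (hnd : cs.Nodup)
    (hlt : ∀ c ∈ cs, c < n) (K : Finset ℕ) (hK : ∀ v ∈ K, v < n ∧ v ∉ cs) :
    (cost n g (labOf cs fun v => decide (v ∈ K)) : ℤ) = cost n g (labOf cs fun _ => false) +
      (K.card.choose 2 : ℤ) + cs.length * K.card - ∑ v ∈ K, (score n g cs v : ℤ) := by
  have hK1 : ∀ v ∈ K, v < n := fun v hv => (hK v hv).1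
  have hK2 : ∀ v ∈ K, v ∉ cs := fun v hv => (hK v hv).2
  rw [t12_cost, t12_cost]
  have e1 : ∀ a b : ℕ, (if a < b then t12_bad g (labOf cs fun v => decide (v ∈ K)) a b else 0) =
      (if a < b then t12_bad g (labOf cs fun _ => false) a b else 0) +
      ((if a < b then t12_z (decide (a ∈ K)) * t12_z (decide (b ∈ K)) else 0) +
      (if a < b then t12_h g cs K a b + t12_h g cs K b a else 0)) := by
    intro a b
    by_cases h : a < b
    · rw [if_pos h, if_pos h, if_pos h, if_pos h, t12_pair g hs cs hcs K hK2]
      ring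
    · rw [if_neg h, if_neg h, if_neg h, if_neg h]
      ring
  simp only [e1, Finset.sum_add_distrib]
  have e2 : ∑ a ∈ Finset.range n, ∑ b ∈ Finset.range n,
      (if a < b then t12_z (decide (a ∈ K)) * t12_z (decide (b ∈ K)) else 0) =
      (K.card.choose 2 : ℤ) := by
    have h1 := t12_sym n fun a b => t12_z (decide (a ∈ K)) * t12_z (decide (b ∈ K))
    have h2 : ∑ a ∈ Finset.range n, ∑ b ∈ Finset.range n,
        (if a < b then t12_z (decide (a ∈ K)) * t12_z (decide (b ∈ K)) +
          t12_z (decide (b ∈ K)) * t12_z (decide (a ∈ K)) else 0) =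
        (∑ a ∈ Finset.range n, ∑ b ∈ Finset.range n,
        (if a < b then t12_z (decide (a ∈ K)) * t12_z (decide (b ∈ K)) else 0)) * 2 := by
      rw [Finset.sum_mul]
      refine Finset.sum_congr rfl fun a _ => ?_
      rw [Finset.sum_mul]
      refine Finset.sum_congr rfl fun b _ => ?_
      split_ifs <;> ring
    have h3 : ∑ a ∈ Finset.range n, ∑ b ∈ Finset.range n,
        (if a ≠ b then t12_z (decide (a ∈ K)) * t12_z (decide (b ∈ K)) else 0) =
        (K.card : ℤ) * K.card - K.card := by
      have h4 : ∀ a ∈ Finset.range n, ∑ b ∈ Finset.range n,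
          (if a ≠ b then t12_z (decide (a ∈ K)) * t12_z (decide (b ∈ K)) else 0) =
          t12_z (decide (a ∈ K)) * ((K.card : ℤ) - 1) := by
        intro a ha
        have h5 : ∀ b : ℕ, (if a ≠ b then t12_z (decide (a ∈ K)) * t12_z (decide (b ∈ K)) else 0) =
            t12_z (decide (b ∈ K)) * t12_z (decide (a ∈ K)) -
              (if a = b then t12_z (decide (a ∈ K)) * t12_z (decide (a ∈ K)) else 0) := by
          intro b
          by_cases h : a = b
          · subst h
            simp
          · simp [h, mul_comm]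
        simp only [h5, Finset.sum_sub_distrib]
        rw [t12_sumK n K hK1 (fun _ => t12_z (decide (a ∈ K))), Finset.sum_const,
          Finset.sum_ite_eq, if_pos ha]
        by_cases h : a ∈ K
        · simp [t12_z, h]
        · simp [t12_z, h]
      rw [Finset.sum_congr rfl h4, t12_sumK n K hK1 (fun _ => ((K.card : ℤ) - 1)),
        Finset.sum_const]
      simp only [nsmul_eq_mul]
      ring
    have h6 := t12_choose K.card
    rw [h2, h3, ← h6] at h1
    exact mul_right_cancel₀ (by norm_num) h1
  have e3 : ∑ a ∈ Finset.range n, ∑ b ∈ Finset.range n,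
      (if a < b then t12_h g cs K a b + t12_h g cs K b a else 0) =
      (cs.length : ℤ) * K.card - ∑ v ∈ K, (score n g cs v : ℤ) := by
    rw [t12_sym n (t12_h g cs K)]
    have h4 : ∀ a ∈ Finset.range n, ∑ b ∈ Finset.range n,
        (if a ≠ b then t12_h g cs K a b else 0) =
        t12_z (decide (a ∈ K)) * ((cs.length : ℤ) - score n g cs a) := by
      intro a _
      by_cases h : a ∈ K
      · have h5 : ∀ b : ℕ, (if a ≠ b then t12_h g cs K a b else 0) =
            t12_z (decide (b ∈ cs)) * t12_z true -
              (2 * (t12_z (decide (b ∈ cs)) * t12_z (g a b)) +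
                (1 - t12_z (decide (b ∈ cs))) * t12_z (g a b)) := by
          intro b
          by_cases h6 : a = b
          · subst h6
            simp [t12_z, hK2 a h, hi a]
          · rw [if_pos h6]
            simp only [t12_h, t12_z, h, decide_true, if_true]
            ring
        simp only [h5, Finset.sum_sub_distrib, Finset.sum_add_distrib, ← Finset.mul_sum]
        rw [t12_list cs hnd n hlt (fun b => g a b), t12_range cs n (fun b => g a b),
          t12_list cs hnd n hlt (fun _ => true)]
        simp [t12_z, h, score]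
      · have h5 : ∀ b : ℕ, (if a ≠ b then t12_h g cs K a b else 0) = 0 := by
          intro b
          simp [t12_h, t12_z, h]
        simp only [h5]
        simp [t12_z, h]
    rw [Finset.sum_congr rfl h4, t12_sumK n K hK1 (fun a => ((cs.length : ℤ) - score n g cs a)),
      Finset.sum_sub_distrib, Finset.sum_const]
    simp only [nsmul_eq_mul]
    ring
  rw [e2, e3]
  ring

end Pool.Agent.H548E
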