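import Pool.Agent.H548E.Defs

namespace Pool.Agent.H548E

open Pool.Agent.NPC Pool.Agent.NPC.R671 Pool.Agent.CK

private theorem t13_rank (S : Finset ℕ) (s : ℕ → ℕ) (k : ℕ) (hk1 : 1 ≤ k) (hk : k ≤ S.card) :
    ∃ u ∈ S, (S.filter fun v => s u < s v ∨ (s u = s v ∧ v ≤ u)).card = k := by
  classical
  set r : ℕ → ℕ := fun u => (S.filter fun v => s u < s v ∨ (s u = s v ∧ v ≤ u)).card with hr
  have hinj : Set.InjOn r S := by
    have key : ∀ u ∈ S, ∀ w ∈ S, (s u < s w ∨ (s u = s w ∧ w < u)) → r w < r u := by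
      intro u hu w hw h
      refine Finset.card_lt_card ?_
      rw [Finset.ssubset_iff_of_subset]
      · refine ⟨u, ?_, ?_⟩
        · simp [hu]
        · simp only [Finset.mem_filter, not_and, not_or, not_lt]
          intro _
          constructor
          · rcases h with h | h <;> omega
          · intro h1
            rcases h with h | h <;> omega
      · intro x hx
        simp only [Finset.mem_filter] at hx ⊢
        refine ⟨hx.1, ?_⟩
        rcases h with h | h <;> rcases hx.2 with h2 | h2 <;> first | (left; omega) | (right; omega) | skip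
    intro u hu w hw h
    by_contra hne
    rcases lt_trichotomy (s u) (s w) with h1 | h1 | h1
    · have := key u hu w hw (Or.inl h1); omega
    · rcases lt_or_gt_of_ne hne with h2 | h2
      · have := key w hw u hu (Or.inr ⟨h1.symm, h2⟩); omega
      · have := key u hu w hw (Or.inr ⟨h1, h2⟩); omega
    · have := key w hw u hu (Or.inl h1); omega
  have himg : S.image r = Finset.Icc 1 S.card := by
    refine Finset.eq_of_subset_of_card_le ?_ ?_
    · intro x hx
      rw [Finset.mem_image] at hx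
      obtain ⟨u, hu, rfl⟩ := hx
      rw [Finset.mem_Icc]
      constructor
      · exact Finset.card_pos.2 ⟨u, by simp [hu]⟩
      · exact Finset.card_le_card (Finset.filter_subset _ _)
    · rw [Finset.card_image_of_injOn hinj]
      simp
  have : k ∈ S.image r := by rw [himg]; exact Finset.mem_Icc.2 ⟨hk1, hk⟩
  obtain ⟨u, hu, h⟩ := Finset.mem_image.1 this
  exact ⟨u, hu, h⟩

theorem exists_prefix (S : Finset ℕ) (s : ℕ → ℕ) (K : Finset ℕ) (hK : K ⊆ S) :
    ∃ K' : Finset ℕ, K' ⊆ S ∧ K'.card = K.card ∧ ∑ v ∈ K, s v ≤ ∑ v ∈ K', s v ∧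
      (K' = ∅ ∨ ∃ u ∈ S, K' = S.filter fun v => s u < s v ∨ (s u = s v ∧ v ≤ u)) := by
  classical
  rcases Nat.eq_zero_or_pos K.card with h0 | h0
  · refine ⟨∅, by simp, by simp [h0], ?_, Or.inl rfl⟩
    rw [Finset.card_eq_zero] at h0
    simp [h0]
  obtain ⟨u, hu, hc⟩ := t13_rank S s K.card h0 (Finset.card_le_card hK)
  refine ⟨S.filter fun v => s u < s v ∨ (s u = s v ∧ v ≤ u), Finset.filter_subset _ _, hc, ?_,
    Or.inr ⟨u, hu, rfl⟩⟩
  set K' := S.filter fun v => s u < s v ∨ (s u = s v ∧ v ≤ u) with hK'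
  have h1 : ∑ v ∈ K, s v = ∑ v ∈ K ∩ K', s v + ∑ v ∈ K \ K', s v :=
    (Finset.sum_inter_add_sum_sdiff K K' s).symm
  have h2 : ∑ v ∈ K', s v = ∑ v ∈ K' ∩ K, s v + ∑ v ∈ K' \ K, s v :=
    (Finset.sum_inter_add_sum_sdiff K' K s).symm
  have h3 : (K \ K').card = (K' \ K).card := by
    have e1 := Finset.card_sdiff_add_card_inter K K'
    have e2 := Finset.card_sdiff_add_card_inter K' K
    rw [Finset.inter_comm K' K] at e2
    omega
  have h4 : ∑ v ∈ K \ K', s v ≤ (K \ K').card * s u := by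
    rw [← smul_eq_mul]
    refine Finset.sum_le_card_nsmul _ _ _ fun v hv => ?_
    rw [Finset.mem_sdiff] at hv
    have h5 := hv.2
    simp only [hK', Finset.mem_filter, not_and, not_or, not_lt] at h5
    exact (h5 (hK hv.1)).1
  have h6 : (K' \ K).card * s u ≤ ∑ v ∈ K' \ K, s v := by
    rw [← smul_eq_mul]
    refine Finset.card_nsmul_le_sum _ _ _ fun v hv => ?_
    rw [Finset.mem_sdiff, hK', Finset.mem_filter] at hv
    omega
  rw [h1, h2, Finset.inter_comm K' K]
  rw [h3] at h4
  omega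

end Pool.Agent.H548E
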