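import Pool.Agent.H548E.Defs

/-! Task T14 (helper131): small facts on candidates and cost. -/

namespace Pool.Agent.H548E

open Pool.Agent.NPC Pool.Agent.NPC.R671 Pool.Agent.CK

theorem mem_cands (n : ℕ) (cs : List ℕ) :
    cs ∈ cands n ↔ (cs = [] ∨ cs.length = 5) ∧ cs.Nodup ∧ ∀ c ∈ cs, c < n := by
  unfold cands
  rw [List.mem_cons]
  constructor
  · rintro (rfl | h)
    · simp
    · simp only [List.mem_flatMap, List.mem_range] at h
      obtain ⟨a, ha, b, hb, c, hc, d, hd, e, he, h⟩ := h
      split_ifs at h with hne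
      · rw [List.mem_singleton] at h
        subst h
        obtain ⟨h1, h2, h3, h4, h5, h6, h7, h8, h9, h10⟩ := hne
        refine ⟨Or.inr rfl, ?_, ?_⟩
        · simp [h1, h2, h3, h4, h5, h6, h7, h8, h9, h10]
        · intro x hx
          simp only [List.mem_cons, List.not_mem_nil, or_false] at hx
          rcases hx with rfl | rfl | rfl | rfl | rfl <;> assumption
      · exact absurd h (List.not_mem_nil)
  · rintro ⟨h1 | h1, h2, h3⟩
    · exact Or.inl h1
    · right
      match cs, h1 with
      | [a, b, c, d, e], _ =>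
        simp only [List.mem_flatMap, List.mem_range]
        refine ⟨a, h3 a (by simp), b, h3 b (by simp), c, h3 c (by simp), d, h3 d (by simp),
          e, h3 e (by simp), ?_⟩
        simp only [List.nodup_cons, List.mem_cons, List.not_mem_nil, or_false, not_or] at h2
        obtain ⟨⟨h1, h2, h3, h4⟩, ⟨h5, h6, h7⟩, ⟨h8, h9⟩, h10, _⟩ := h2
        rw [if_pos ⟨h1, h2, h3, h4, h5, h6, h7, h8, h9, h10⟩]
        simp

theorem cost_congr (n : ℕ) (g : ℕ → ℕ → Bool) (lab lab' : ℕ → ℕ) (h : ∀ v < n, lab v = lab' v) :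
    cost n g lab = cost n g lab' := by
  unfold cost
  congr 1
  refine List.filter_congr fun p hp => ?_
  have hp' := List.mem_product.1 hp
  rw [h p.1 (List.mem_range.1 hp'.1), h p.2 (List.mem_range.1 hp'.2)]

end Pool.Agent.H548E
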