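import Pool.Agent.H548E.Defs

namespace Pool.Agent.H548E

open Pool.Agent.NPC Pool.Agent.NPC.R671 Pool.Agent.CK

/-- membership of the candidates of length 5 -/
theorem t15_mem (n a b c d e : ℕ) (ha : a < n) (hb : b < n) (hc : c < n) (hd : d < n) (he : e < n)
    (hne : a ≠ b ∧ a ≠ c ∧ a ≠ d ∧ a ≠ e ∧ b ≠ c ∧ b ≠ d ∧ b ≠ e ∧ c ≠ d ∧ c ≠ e ∧ d ≠ e) :
    [a, b, c, d, e] ∈ cands n := by
  unfold cands
  refine List.mem_cons_of_mem _ ?_
  refine List.mem_flatMap.2 ⟨a, List.mem_range.2 ha, ?_⟩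
  refine List.mem_flatMap.2 ⟨b, List.mem_range.2 hb, ?_⟩
  refine List.mem_flatMap.2 ⟨c, List.mem_range.2 hc, ?_⟩
  refine List.mem_flatMap.2 ⟨d, List.mem_range.2 hd, ?_⟩
  refine List.mem_flatMap.2 ⟨e, List.mem_range.2 he, ?_⟩
  rw [if_pos hne]
  exact List.mem_singleton.2 rfl

/-- B11 -/
theorem exists_labOf (n : ℕ) (lab : ℕ → ℕ) (hl : ValidLabN n lab) :
    ∃ cs ∈ cands n, ∃ K : Finset ℕ, (∀ v ∈ K, v < n ∧ v ∉ cs) ∧
      ∀ v < n, lab v = labOf cs (fun v => decide (v ∈ K)) v := by
  obtain ⟨h6, h | h⟩ := hl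
  · refine ⟨[], List.mem_cons_self, (Finset.range n).filter (fun v => lab v = 5), ?_, ?_⟩
    · intro v hv
      rw [Finset.mem_filter, Finset.mem_range] at hv
      exact ⟨hv.1, List.not_mem_nil⟩
    · intro v hv
      have hK : v ∈ (Finset.range n).filter (fun v => lab v = 5) ↔ lab v = 5 := by
        rw [Finset.mem_filter, Finset.mem_range]; tauto
      have h1 : labOf [] (fun v => decide (v ∈ (Finset.range n).filter (fun v => lab v = 5))) v
          = if lab v = 5 then 5 else 6 := by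
        unfold labOf
        simp [hK, hv]
      rw [h1]
      rcases h v hv with h2 | h2 <;> rw [h2] <;> rfl
  · obtain ⟨a, ⟨ha, ha'⟩, hau⟩ := h 0 (by norm_num)
    obtain ⟨b, ⟨hb, hb'⟩, hbu⟩ := h 1 (by norm_num)
    obtain ⟨c, ⟨hc, hc'⟩, hcu⟩ := h 2 (by norm_num)
    obtain ⟨d, ⟨hd, hd'⟩, hdu⟩ := h 3 (by norm_num)
    obtain ⟨e, ⟨he, he'⟩, heu⟩ := h 4 (by norm_num)
    have hab : a ≠ b := by rintro rfl; omega
    have hac : a ≠ c := by rintro rfl; omega
    have had : a ≠ d := by rintro rfl; omega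
    have hae : a ≠ e := by rintro rfl; omega
    have hbc : b ≠ c := by rintro rfl; omega
    have hbd : b ≠ d := by rintro rfl; omega
    have hbe : b ≠ e := by rintro rfl; omega
    have hcd : c ≠ d := by rintro rfl; omega
    have hce : c ≠ e := by rintro rfl; omega
    have hde : d ≠ e := by rintro rfl; omega
    refine ⟨[a, b, c, d, e], t15_mem n a b c d e ha hb hc hd he
      ⟨hab, hac, had, hae, hbc, hbd, hbe, hcd, hce, hde⟩,
      (Finset.range n).filter (fun v => lab v = 5), ?_, ?_⟩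
    · intro v hv
      rw [Finset.mem_filter, Finset.mem_range] at hv
      refine ⟨hv.1, fun hm => ?_⟩
      simp only [List.mem_cons, List.not_mem_nil, or_false] at hm
      rcases hm with rfl | rfl | rfl | rfl | rfl <;> omega
    · intro v hv
      have hK : v ∈ (Finset.range n).filter (fun v => lab v = 5) ↔ lab v = 5 := by
        rw [Finset.mem_filter, Finset.mem_range]; tauto
      have h1 : labOf [a, b, c, d, e]
          (fun v => decide (v ∈ (Finset.range n).filter (fun v => lab v = 5))) v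
          = if a = v then 0 else if b = v then 1 else if c = v then 2 else if d = v then 3
            else if e = v then 4 else if lab v = 5 then 5 else 6 := by
        unfold labOf
        simp [hK, hv]
      rw [h1]
      by_cases h2 : a = v
      · rw [if_pos h2, ← h2, ha']
      rw [if_neg h2]
      by_cases h3 : b = v
      · rw [if_pos h3, ← h3, hb']
      rw [if_neg h3]
      by_cases h4 : c = v
      · rw [if_pos h4, ← h4, hc']
      rw [if_neg h4]
      by_cases h5 : d = v
      · rw [if_pos h5, ← h5, hd']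
      rw [if_neg h5]
      by_cases h7 : e = v
      · rw [if_pos h7, ← h7, he']
      rw [if_neg h7]
      have g0 : lab v ≠ 0 := fun hv0 => h2 (hau v ⟨hv, hv0⟩).symm
      have g1 : lab v ≠ 1 := fun hv0 => h3 (hbu v ⟨hv, hv0⟩).symm
      have g2 : lab v ≠ 2 := fun hv0 => h4 (hcu v ⟨hv, hv0⟩).symm
      have g3 : lab v ≠ 3 := fun hv0 => h5 (hdu v ⟨hv, hv0⟩).symm
      have g4 : lab v ≠ 4 := fun hv0 => h7 (heu v ⟨hv, hv0⟩).symm
      have g6 := h6 v hv
      by_cases h8 : lab v = 5
      · rw [if_pos h8, h8]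
      · rw [if_neg h8]; omega

end Pool.Agent.H548E
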