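import Pool.Agent.H548E.Defs

namespace Pool.Agent.H548E

open Pool.Agent.NPC Pool.Agent.NPC.R671 Pool.Agent.CK

theorem t16_cands {n : ℕ} {cs : List ℕ} (h : cs ∈ cands n) :
    cs = [] ∨ ∃ a b c d e, cs = [a, b, c, d, e] ∧ (a < n ∧ b < n ∧ c < n ∧ d < n ∧ e < n) ∧
      (a ≠ b ∧ a ≠ c ∧ a ≠ d ∧ a ≠ e ∧ b ≠ c ∧ b ≠ d ∧ b ≠ e ∧ c ≠ d ∧ c ≠ e ∧ d ≠ e) := by
  unfold cands at h
  rcases List.mem_cons.1 h with h | h
  · exact Or.inl h
  · right
    simp only [List.mem_flatMap, List.mem_range] at h
    obtain ⟨a, ha, b, hb, c, hc, d, hd, e, he, h⟩ := h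
    split_ifs at h with hne
    · exact ⟨a, b, c, d, e, List.mem_singleton.1 h, ⟨ha, hb, hc, hd, he⟩, hne⟩
    · simp at h

theorem validLabN_labOf (n : ℕ) (cs : List ℕ) (hcs : cs ∈ cands n) (K : ℕ → Bool) :
    ValidLabN n (labOf cs K) := by
  refine ⟨fun a _ => ?_, ?_⟩
  · unfold labOf
    split_ifs <;> omega
  · rcases t16_cands hcs with rfl | ⟨a, b, c, d, e, rfl, ⟨ha, hb, hc, hd, he⟩, hne⟩
    · left
      intro v _
      unfold labOf
      simp only [List.getElem?_nil, reduceCtorEq, if_false]
      split_ifs <;> simp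
    · right
      obtain ⟨h1, h2, h3, h4, h5, h6, h7, h8, h9, h10⟩ := hne
      have e0 : ∀ v, labOf [a, b, c, d, e] K v =
          if a = v then 0 else if b = v then 1 else if c = v then 2 else if d = v then 3
          else if e = v then 4 else if K v = true then 5 else 6 := by
        intro v
        unfold labOf
        simp
      intro i hi
      have hcase : i = 0 ∨ i = 1 ∨ i = 2 ∨ i = 3 ∨ i = 4 := by omega
      rcases hcase with rfl | rfl | rfl | rfl | rfl
      · refine ⟨a, ⟨ha, ?_⟩, ?_⟩
        · show labOf _ K _ = _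
          rw [e0]
          rw [if_pos rfl]
        · rintro v ⟨_, hv⟩
          rw [e0] at hv
          split_ifs at hv <;> first | omega | (symm; assumption)
      · refine ⟨b, ⟨hb, ?_⟩, ?_⟩
        · show labOf _ K _ = _
          rw [e0]
          rw [if_neg h1, if_pos rfl]
        · rintro v ⟨_, hv⟩
          rw [e0] at hv
          split_ifs at hv <;> first | omega | (symm; assumption)
      · refine ⟨c, ⟨hc, ?_⟩, ?_⟩
        · show labOf _ K _ = _
          rw [e0]
          rw [if_neg h2, if_neg h5, if_pos rfl]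
        · rintro v ⟨_, hv⟩
          rw [e0] at hv
          split_ifs at hv <;> first | omega | (symm; assumption)
      · refine ⟨d, ⟨hd, ?_⟩, ?_⟩
        · show labOf _ K _ = _
          rw [e0]
          rw [if_neg h3, if_neg h6, if_neg h8, if_pos rfl]
        · rintro v ⟨_, hv⟩
          rw [e0] at hv
          split_ifs at hv <;> first | omega | (symm; assumption)
      · refine ⟨e, ⟨he, ?_⟩, ?_⟩
        · show labOf _ K _ = _
          rw [e0]
          rw [if_neg h4, if_neg h7, if_neg h9, if_neg h10, if_pos rfl]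
        · rintro v ⟨_, hv⟩
          rw [e0] at hv
          split_ifs at hv <;> first | omega | (symm; assumption)

end Pool.Agent.H548E
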