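import Pool.Agent.H548E.Defs
import Pool.Agent.H548E.T01
import Pool.Agent.H548E.T07
import Pool.Agent.H548E.T08
import Pool.Agent.H548E.T09
import Pool.Agent.H548E.T10
import Pool.Agent.H548E.T11
import Pool.Agent.H548E.T12
import Pool.Agent.H548E.T13
import Pool.Agent.H548E.T14
import Pool.Agent.H548E.T15
import Pool.Agent.H548E.T16

/-!
# T18: correctness of the algorithm
-/

namespace Pool.Agent.H548E

open Pool.Agent.NPC Pool.Agent.NPC.R671 Pool.Agent.CK

theorem t18_length {n : ℕ} (G : SimpleGraph (Fin n)) : (adjMatrix G).length = n := by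
  unfold adjMatrix
  simp

theorem t18_ent {n : ℕ} (G : SimpleGraph (Fin n)) (i j : ℕ) :
    ent (adjMatrix G) i j = true ↔ ∃ (hi : i < n) (hj : j < n), G.Adj ⟨i, hi⟩ ⟨j, hj⟩ := by
  classical
  unfold ent adjMatrix
  by_cases hi : i < n
  · have h1 : (List.ofFn (fun i => List.ofFn fun j => decide (G.Adj i j))).getD i [] =
        List.ofFn fun j => decide (G.Adj ⟨i, hi⟩ j) := by
      rw [List.getD_eq_getElem _ _ (by simpa using hi), List.getElem_ofFn]
    rw [h1]
    by_cases hj : j < n
    · rw [List.getD_eq_getElem _ _ (by simpa using hj), List.getElem_ofFn, decide_eq_true_iff]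
      exact ⟨fun h => ⟨hi, hj, h⟩, fun ⟨_, _, h⟩ => h⟩
    · rw [List.getD_eq_default _ _ (by simpa using hj)]
      constructor
      · intro h
        exact absurd h (by simp)
      · rintro ⟨_, h, _⟩
        exact absurd h hj
  · have h1 : (List.ofFn (fun i => List.ofFn fun j => decide (G.Adj i j))).getD i [] = [] :=
      List.getD_eq_default _ _ (by simpa using hi)
    rw [h1]
    constructor
    · intro h
      exact absurd h (by simp)
    · rintro ⟨h, _⟩
      exact absurd h hi

theorem t18_labOf_congr (cs : List ℕ) (hcs : cs = [] ∨ cs.length = 5) (K K' : ℕ → Bool) (v : ℕ)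
    (h : v ∉ cs → K v = K' v) : labOf cs K v = labOf cs K' v := by
  by_cases hv : v ∈ cs
  · obtain ⟨i, hi, hiv⟩ := List.getElem_of_mem hv
    have h5 : cs.length = 5 := by
      rcases hcs with rfl | h
      · simp at hv
      · exact h
    have h6 : cs[i]? = some v := by rw [List.getElem?_eq_getElem hi, hiv]
    have h7 : i < 5 := by omega
    unfold labOf
    interval_cases i <;> simp [h6]
  · unfold labOf
    rw [h hv]

theorem t18_validLab {n : ℕ} {lab : ℕ → ℕ} (h : ValidLabN n lab) :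
    ValidLab (fun i : Fin n => lab i) := by
  refine ⟨fun a => h.1 a a.isLt, ?_⟩
  rcases h.2 with h2 | h2
  · exact Or.inl fun a => h2 a a.isLt
  · refine Or.inr fun i hi => ?_
    obtain ⟨a, ⟨ha, hai⟩, hu⟩ := h2 i hi
    refine ⟨⟨a, ha⟩, hai, fun b hb => ?_⟩
    exact Fin.ext (hu b ⟨b.isLt, hb⟩)

theorem t18_validLabN {n : ℕ} {lab : Fin n → ℕ} (h : ValidLab lab) :
    ValidLabN n (fun v => if h : v < n then lab ⟨v, h⟩ else 6) := by
  refine ⟨fun a ha => ?_, ?_⟩
  · simp only [ha, dif_pos]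
    exact h.1 _
  rcases h.2 with h2 | h2
  · refine Or.inl fun a ha => ?_
    simp only [ha, dif_pos]
    exact h2 _
  · refine Or.inr fun i hi => ?_
    obtain ⟨a, hai, hu⟩ := h2 i hi
    refine ⟨a, ⟨a.isLt, ?_⟩, ?_⟩
    · simp only [a.isLt, dif_pos]
      exact hai
    · rintro b ⟨hb, hbi⟩
      simp only [hb, dif_pos] at hbi
      exact congrArg Fin.val (hu ⟨b, hb⟩ hbi)

theorem t18_free {V : Type} (G : SimpleGraph V) :
    FreeOf [⟨4, C4⟩, ⟨4, TwoK2⟩] G ↔ NoC4 G ∧ No2K2 G := by
  rw [← freeOf_C4, ← freeOf_TwoK2]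
  constructor
  · intro h
    refine ⟨fun H hH => h H ?_, fun H hH => h H ?_⟩
    · rw [List.mem_singleton] at hH
      rw [hH]
      exact List.mem_cons_self
    · rw [List.mem_singleton] at hH
      rw [hH]
      exact List.mem_cons_of_mem _ (List.mem_singleton.2 rfl)
  · rintro ⟨h1, h2⟩ H hH
    rcases List.mem_cons.1 hH with h | h
    · exact h1 H (List.mem_singleton.2 h)
    · exact h2 H h

theorem decE_iff (n : ℕ) (G : SimpleGraph (Fin n)) (k : ℕ) :
    decE (adjMatrix G, k) = true ↔ Editable [⟨4, C4⟩, ⟨4, TwoK2⟩] G k := by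
  classical
  have hg : ∀ i j : Fin n, ent (adjMatrix G) i j = true ↔ G.Adj i j := by
    intro i j
    rw [t18_ent]
    exact ⟨fun ⟨_, _, h⟩ => h, fun h => ⟨i.isLt, j.isLt, h⟩⟩
  have hs : ∀ i j, ent (adjMatrix G) i j = ent (adjMatrix G) j i := by
    intro i j
    rw [Bool.eq_iff_iff, t18_ent, t18_ent]
    exact ⟨fun ⟨a, b, h⟩ => ⟨b, a, h.symm⟩, fun ⟨a, b, h⟩ => ⟨b, a, h.symm⟩⟩
  have hi : ∀ i, ent (adjMatrix G) i i = false := by
    intro i
    rw [Bool.eq_false_iff]
    intro h
    obtain ⟨_, _, h'⟩ := (t18_ent G i i).1 h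
    exact G.loopless.irrefl _ h'
  unfold decE
  simp only [t18_length]
  rw [List.any_eq_true]
  constructor
  · rintro ⟨cs, hcs, h⟩
    rw [List.any_eq_true] at h
    obtain ⟨uo, -, h⟩ := h
    rw [decide_eq_true_iff] at h
    have hv := validLabN_labOf n cs hcs (pre n (ent (adjMatrix G)) cs uo)
    obtain ⟨G', hf, hc⟩ := exists_fits_of_cost n G _ hg _ hv.1
    exact ⟨G', (t18_free G').2 ⟨noC4_of_fits G' _ (t18_validLab hv) hf,
      no2K2_of_fits G' _ (t18_validLab hv) hf⟩, hc.trans h⟩
  · rintro ⟨G', hfree, hk⟩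
    obtain ⟨hn1, hn2⟩ := (t18_free G').1 hfree
    obtain ⟨lab0, hl0, hf0⟩ := fits_of_free G' hn1 hn2
    set lab : ℕ → ℕ := fun v => if h : v < n then lab0 ⟨v, h⟩ else 6 with hlab
    have hl : ValidLabN n lab := t18_validLabN hl0
    have hlabeq : (fun i : Fin n => lab i) = lab0 := by
      funext i
      simp only [hlab, i.isLt, dif_pos]
    have hcost : cost n (ent (adjMatrix G)) lab ≤ k := by
      refine (cost_le_of_fits n G G' _ hg lab ?_).trans hk
      rw [hlabeq]
      exact hf0
    obtain ⟨cs, hcs, K, hK, hlabK⟩ := exists_labOf n lab hl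
    obtain ⟨hc1, hc2, hc3⟩ := (mem_cands n cs).1 hcs
    have hcostK : cost n (ent (adjMatrix G)) (labOf cs fun v => decide (v ∈ K)) ≤ k := by
      rw [← cost_congr n _ lab _ hlabK]
      exact hcost
    obtain ⟨K', hK'S, hcard, hsum, hcases⟩ := exists_prefix
      ((Finset.range n).filter fun v => v ∉ cs) (score n (ent (adjMatrix G)) cs) K (by
        intro v hv
        rw [Finset.mem_filter, Finset.mem_range]
        exact hK v hv)
    have hK' : ∀ v ∈ K', v < n ∧ v ∉ cs := by
      intro v hv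
      have := hK'S hv
      rw [Finset.mem_filter, Finset.mem_range] at this
      exact this
    have hcostK' : cost n (ent (adjMatrix G)) (labOf cs fun v => decide (v ∈ K')) ≤ k := by
      have e1 := cost_labOf n (ent (adjMatrix G)) hs hi cs hc1 hc2 hc3 K hK
      have e2 := cost_labOf n (ent (adjMatrix G)) hs hi cs hc1 hc2 hc3 K' hK'
      rw [hcard] at e2
      have e3 : (∑ v ∈ K, (score n (ent (adjMatrix G)) cs v : ℤ)) ≤
          ∑ v ∈ K', (score n (ent (adjMatrix G)) cs v : ℤ) := by exact_mod_cast hsum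
      have e4 : (cost n (ent (adjMatrix G)) (labOf cs fun v => decide (v ∈ K)) : ℤ) ≤ k := by
        exact_mod_cast hcostK
      have e5 : (cost n (ent (adjMatrix G)) (labOf cs fun v => decide (v ∈ K')) : ℤ) ≤ k := by
        linarith
      exact_mod_cast e5
    refine ⟨cs, hcs, ?_⟩
    rw [List.any_eq_true]
    rcases hcases with rfl | ⟨u, hu, hKu⟩
    · refine ⟨none, List.mem_cons_self, ?_⟩
      rw [decide_eq_true_iff]
      refine le_trans (le_of_eq ?_) hcostK'
      refine cost_congr n _ _ _ fun v _ => t18_labOf_congr cs hc1 _ _ v fun _ => ?_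
      simp [pre]
    · rw [Finset.mem_filter, Finset.mem_range] at hu
      refine ⟨some u, List.mem_cons_of_mem _ (List.mem_map.2 ⟨u, List.mem_range.2 hu.1, rfl⟩), ?_⟩
      rw [decide_eq_true_iff]
      refine le_trans (le_of_eq ?_) hcostK'
      refine cost_congr n _ _ _ fun v hv => t18_labOf_congr cs hc1 _ _ v fun hvc => ?_
      rw [Bool.eq_iff_iff, decide_eq_true_iff, hKu, Finset.mem_filter, Finset.mem_filter,
        Finset.mem_range]
      simp only [pre, Option.any_some, Bool.or_eq_true, Bool.and_eq_true, decide_eq_true_iff]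
      exact ⟨fun h => ⟨⟨hv, hvc⟩, h⟩, fun h => h.2⟩

end Pool.Agent.H548E
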