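import Pool.Agent.H548E.Defs
import Pool.Agent.H548E.T17
import Pool.Agent.H548E.T18
import Pool.Agent.H622R2.CoNP

/-! The joint problem has a polynomial kernel (of constant size). -/

namespace Pool.Agent.H548E

open Pool.Agent.NPC Pool.Agent.NPC.R671 Pool.Agent.CK

/-- the kernelization: solve the instance, and output a constant instance -/
private noncomputable def t19_K (x : List Bool) : List Bool :=
  match unbits (List (List Bool) × ℕ) x with
  | none => []
  | some p => if decE p = true then code (⊥ : SimpleGraph (Fin 0)) 0 else code C4 0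

private theorem t19_poly : Poly t19_K :=
  (Poly.optCases (o := fun x : List Bool => unbits (List (List Bool) × ℕ) x)
    (g := fun _ => ([] : List Bool))
    (h := fun _ p => if decE p = true then code (⊥ : SimpleGraph (Fin 0)) 0 else code C4 0)
    poly_unbits (NPC.Poly.const _)
    (Poly.ite (Poly.decide_bool (poly_decE.comp (Poly.snd Poly.id)))
      (NPC.Poly.const _) (NPC.Poly.const _))).congr fun x => by
        unfold t19_K
        cases unbits (List (List Bool) × ℕ) x <;> rfl

private theorem t19_yes : Editable [⟨4, C4⟩, ⟨4, TwoK2⟩] (⊥ : SimpleGraph (Fin 0)) 0 := by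
  refine ⟨⊥, fun H hH => ⟨fun e => ?_⟩, ?_⟩
  · have h4 : H.1 = 4 := by
      rcases List.mem_cons.1 hH with rfl | hH
      · rfl
      · rcases List.mem_cons.1 hH with rfl | hH
        · rfl
        · exact absurd hH List.not_mem_nil
    exact (e (Fin.cast h4.symm 0)).elim0
  · simp

private theorem t19_no : ¬ Editable [⟨4, C4⟩, ⟨4, TwoK2⟩] C4 0 := by
  rintro ⟨G', hG', hk⟩
  have h0 : (symmDiff C4.edgeSet G'.edgeSet).ncard = 0 := Nat.le_zero.1 hk
  rw [Set.ncard_eq_zero (Set.toFinite _)] at h0
  have h1 : C4.edgeSet = G'.edgeSet := symmDiff_eq_bot.1 h0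
  have h2 : C4 = G' := SimpleGraph.edgeSet_injective h1
  subst h2
  exact (hG' ⟨4, C4⟩ (List.mem_cons_self)).false (RelEmbedding.refl _)

/-- the joint problem has a polynomial kernel -/
theorem hasPolyKernel_both : HasPolyKernel [⟨4, C4⟩, ⟨4, TwoK2⟩] := by
  refine ⟨t19_K, Polynomial.C 4, H622R2.polyTime_of_poly_list t19_poly, fun n G k => ?_⟩
  have hK : t19_K (code G k) = if decE (adjMatrix G, k) = true then
      code (⊥ : SimpleGraph (Fin 0)) 0 else code C4 0 := by
    unfold t19_K
    rw [show code G k = bits (adjMatrix G, k) from rfl, unbits_bits]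
  by_cases h : decE (adjMatrix G, k) = true
  · refine ⟨0, ⊥, 0, by rw [hK, if_pos h], ?_, by simp, by simp⟩
    exact iff_of_true ((decE_iff n G k).1 h) t19_yes
  · refine ⟨4, C4, 0, by rw [hK, if_neg h], ?_, by simp, by simp⟩
    exact iff_of_false (fun hE => h ((decE_iff n G k).2 hE)) t19_no

end Pool.Agent.H548E
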