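import Pool.Agent.H548E.Defs

/-! T02 (helper338): editing is invariant under isomorphism -/

namespace Pool.Agent.H548E

open Pool.Agent.NPC Pool.Agent.NPC.R671 Pool.Agent.CK

private theorem t02_one (F : Family) {V V' : Type} {G : SimpleGraph V} {G' : SimpleGraph V'}
    (e : G ≃g G') (k : ℕ) (h : Editable F G k) : Editable F G' k := by
  obtain ⟨G'', hfree, hk⟩ := h
  refine ⟨G''.map e.toEquiv.toEmbedding, ?_, ?_⟩
  · intro H hH
    refine ⟨fun φ => (hfree H hH).false ?_⟩
    exact (SimpleGraph.Iso.map e.toEquiv G'').symm.toEmbedding.comp φ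
  · have h1 : G'.edgeSet = Sym2.map e '' G.edgeSet := by
      ext z
      induction z using Sym2.ind with
      | _ x y =>
        simp only [SimpleGraph.mem_edgeSet, Set.mem_image]
        constructor
        · intro hxy
          refine ⟨s(e.symm x, e.symm y), ?_, ?_⟩
          · rw [SimpleGraph.mem_edgeSet, ← e.map_adj_iff]
            simpa using hxy
          · simp
        · rintro ⟨w, hw, hwz⟩
          induction w using Sym2.ind with
          | _ a b =>
            rw [SimpleGraph.mem_edgeSet, ← e.map_adj_iff, ← SimpleGraph.mem_edgeSet] at hw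
            rw [Sym2.map_mk] at hwz
            rw [← SimpleGraph.mem_edgeSet, ← hwz]
            exact hw
    have h2 : (G''.map e.toEquiv.toEmbedding).edgeSet = Sym2.map e '' G''.edgeSet := by
      rw [SimpleGraph.edgeSet_map]
      rfl
    have hinj : Function.Injective (Sym2.map e) := Sym2.map.injective e.toEquiv.injective
    rw [h1, h2, ← Set.image_symmDiff hinj, Set.ncard_image_of_injective _ hinj]
    exact hk

theorem editable_iso (F : Family) {V V' : Type} {G : SimpleGraph V} {G' : SimpleGraph V'}
    (e : G ≃g G') (k : ℕ) : Editable F G k ↔ Editable F G' k :=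
  ⟨t02_one F e k, t02_one F e.symm k⟩

end Pool.Agent.H548E
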