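import Pool.Agent.H548E.Defs

set_option autoImplicit false

/-! Task T20: frozen pairs, from the big graph to the small graph (helper959). -/

namespace Pool.Agent.H548E

open Pool.Agent.NPC Pool.Agent.NPC.R671 Pool.Agent.CK

private theorem t20_noC4 {V : Type} (G : SimpleGraph V) (h : FreeOf [⟨4, C4⟩] G) : NoC4 G := by
  intro a b c d hab hbc hcd hda hac hbd
  by_contra hcon
  push Not at hcon
  obtain ⟨h1, h2⟩ := hcon
  have hE := h ⟨4, C4⟩ (List.mem_singleton.2 rfl)
  have hinj : Function.Injective (![a, b, c, d] : Fin 4 → V) := by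
    intro i j hij
    fin_cases i <;> fin_cases j <;>
      first
      | rfl
      | (exfalso
         simp at hij
         first
         | exact hab.ne hij
         | exact hab.ne hij.symm
         | exact hbc.ne hij
         | exact hbc.ne hij.symm
         | exact hcd.ne hij
         | exact hcd.ne hij.symm
         | exact hda.ne hij
         | exact hda.ne hij.symm
         | exact hac hij
         | exact hac hij.symm
         | exact hbd hij
         | exact hbd hij.symm)
  have hiff : ∀ i j : Fin 4, G.Adj ((![a, b, c, d] : Fin 4 → V) i)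
      ((![a, b, c, d] : Fin 4 → V) j) ↔ C4.Adj i j := by
    intro i j
    have hC : C4.Adj i j ↔ (i - j = 1 ∨ j - i = 1) := SimpleGraph.cycleGraph_adj
    rw [hC]
    have h1' : ¬ G.Adj c a := fun h => h1 h.symm
    have h2' : ¬ G.Adj d b := fun h => h2 h.symm
    fin_cases i <;> fin_cases j <;>
      simp [hab, hbc, hcd, hda, h1, h2, h1', h2', hab.symm, hbc.symm, hcd.symm, hda.symm] <;>
      decide
  exact hE.false ⟨⟨![a, b, c, d], hinj⟩, fun {i j} => hiff i j⟩

section

variable {V : Type} (G : SimpleGraph V) (Fr : V → V → Prop) (k : ℕ)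

private theorem t20_inl_inl (a b : V) :
    (enf G Fr k).Adj (Sum.inl a) (Sum.inl b) ↔ G.Adj a b := by
  unfold enf
  rw [SimpleGraph.fromRel_adj]
  simp only [enfRel]
  constructor
  · rintro ⟨_, h | h⟩
    · exact h
    · exact h.symm
  · intro h
    exact ⟨fun h' => h.ne (Sum.inl_injective h'), Or.inl h⟩

private theorem t20_inl_inr (a p q : V) (i : Fin (k + 1)) (s : Bool) :
    (enf G Fr k).Adj (Sum.inl a) (Sum.inr (p, q, i, s)) ↔ (Fr p q ∧ p ≠ q ∧
      ((G.Adj p q ∧ (a = p ∨ a = q)) ∨ (¬ G.Adj p q ∧ a = if s = true then q else p))) := by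
  unfold enf
  rw [SimpleGraph.fromRel_adj]
  simp only [enfRel, or_false, ne_eq, reduceCtorEq, not_false_eq_true, true_and]

private theorem t20_inr_inr (p q : V) (i : Fin (k + 1)) :
    (enf G Fr k).Adj (Sum.inr (p, q, i, false)) (Sum.inr (p, q, i, true)) ↔
      (Fr p q ∧ p ≠ q ∧ ¬ G.Adj p q) := by
  unfold enf
  rw [SimpleGraph.fromRel_adj]
  simp [enfRel]

end

private theorem t20_not_mem {U : Type} {A B : SimpleGraph U} {u v : U}
    (h : s(u, v) ∉ symmDiff A.edgeSet B.edgeSet) : A.Adj u v ↔ B.Adj u v := by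
  rw [Set.mem_symmDiff] at h
  simp only [SimpleGraph.mem_edgeSet] at h
  tauto

theorem enf_mp {V : Type} [Fintype V] [DecidableEq V] (G : SimpleGraph V) (Fr : V → V → Prop)
    (k : ℕ) (h : Editable [⟨4, C4⟩] (enf G Fr k) k) :
    ∃ G' : SimpleGraph V, NoC4 G' ∧ (symmDiff G.edgeSet G'.edgeSet).ncard ≤ k ∧
      ∀ p q, p ≠ q → Fr p q → (G.Adj p q ↔ G'.Adj p q) := by
  obtain ⟨H, hfree, hcard⟩ := h
  have hno := t20_noC4 H hfree
  have hfin : (symmDiff (enf G Fr k).edgeSet H.edgeSet).Finite := Set.toFinite _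
  refine ⟨H.comap Sum.inl, ?_, ?_, ?_⟩
  · intro a b c d hab hbc hcd hda hac hbd
    have := hno (Sum.inl a) (Sum.inl b) (Sum.inl c) (Sum.inl d) hab hbc hcd hda
      (fun h => hac (Sum.inl_injective h)) (fun h => hbd (Sum.inl_injective h))
    exact this
  · refine le_trans ?_ hcard
    refine Set.ncard_le_ncard_of_injOn (Sym2.map Sum.inl) ?_ ?_ hfin
    · intro e he
      induction e using Sym2.ind with
      | _ a b =>
        rw [Set.mem_symmDiff] at he ⊢
        simp only [SimpleGraph.mem_edgeSet, SimpleGraph.comap_adj, Sym2.map_mk] at he ⊢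
        rw [t20_inl_inl]
        exact he
    · exact (Sym2.map.injective Sum.inl_injective).injOn
  · intro p q hpq hFr
    by_contra hne
    -- for every `i`, one of the five pairs is edited
    have hex : ∀ i : Fin (k + 1), ∃ e ∈ symmDiff (enf G Fr k).edgeSet H.edgeSet,
        (∃ s, (Sum.inr (p, q, i, s) : V ⊕ (V × V × Fin (k + 1) × Bool)) ∈ e) ∧
        ∀ z ∈ e, (∃ a, z = Sum.inl a) ∨ ∃ s, z = Sum.inr (p, q, i, s) := by
      intro i
      by_contra hcon
      push Not at hcon
      have key : ∀ u v : V ⊕ (V × V × Fin (k + 1) × Bool),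
          (∃ s, v = Sum.inr (p, q, i, s)) →
          ((∃ a, u = Sum.inl a) ∨ ∃ s, u = Sum.inr (p, q, i, s)) →
          ((enf G Fr k).Adj u v ↔ H.Adj u v) := by
        intro u v hv hu
        apply t20_not_mem
        intro hmem
        obtain ⟨s, hs⟩ := hv
        obtain ⟨z, hz, hz1, hz2⟩ := hcon s(u, v) hmem ⟨s, by rw [← hs]; exact Sym2.mem_mk_right u v⟩
        rw [Sym2.mem_iff] at hz
        rcases hz with hz | hz
        · subst hz
          rcases hu with ⟨a, ha⟩ | ⟨s', hs'⟩
          · exact hz1 a ha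
          · exact hz2 s' hs'
        · subst hz
          exact hz2 s hs
      have k1 := fun (a : V) (s : Bool) =>
        (key (Sum.inl a) (Sum.inr (p, q, i, s)) ⟨s, rfl⟩ (Or.inl ⟨a, rfl⟩)).symm.trans
          (t20_inl_inr G Fr k a p q i s)
      have k2 := (key (Sum.inr (p, q, i, false)) (Sum.inr (p, q, i, true)) ⟨true, rfl⟩
        (Or.inr ⟨false, rfl⟩)).symm.trans (t20_inr_inr G Fr k p q i)
      by_cases hG : G.Adj p q
      · have hH : ¬ H.Adj (Sum.inl p) (Sum.inl q) := fun h' => hne ⟨fun _ => h', fun _ => hG⟩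
        have e1 := (k1 p false).2 ⟨hFr, hpq, Or.inl ⟨hG, Or.inl rfl⟩⟩
        have e2 := (k1 q false).2 ⟨hFr, hpq, Or.inl ⟨hG, Or.inr rfl⟩⟩
        have e3 := (k1 p true).2 ⟨hFr, hpq, Or.inl ⟨hG, Or.inl rfl⟩⟩
        have e4 := (k1 q true).2 ⟨hFr, hpq, Or.inl ⟨hG, Or.inr rfl⟩⟩
        rcases hno _ _ _ _ e1 e2.symm e4 e3.symm (fun h' => hpq (Sum.inl_injective h'))
          (by simp) with h' | h'
        · exact hH h'
        · exact (k2.1 h').2.2 hG
      · have hH : H.Adj (Sum.inl p) (Sum.inl q) := by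
          by_contra h'
          exact hne ⟨fun h1 => absurd h1 hG, fun h1 => absurd h1 h'⟩
        have e1 := (k1 p false).2 ⟨hFr, hpq, Or.inr ⟨hG, by simp⟩⟩
        have e2 := k2.2 ⟨hFr, hpq, hG⟩
        have e3 := (k1 q true).2 ⟨hFr, hpq, Or.inr ⟨hG, by simp⟩⟩
        rcases hno _ _ _ _ e1 e2 e3.symm hH.symm (by simp) (by simp) with h' | h'
        · have := ((k1 p true).1 h').2.2
          rcases this with h3 | h3
          · exact hG h3.1
          · simp only [if_true] at h3
            exact hpq h3.2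
        · have := ((k1 q false).1 h'.symm).2.2
          rcases this with h3 | h3
          · exact hG h3.1
          · simp only [Bool.false_eq_true, if_false] at h3
            exact hpq h3.2.symm
    choose e he1 he2 he3 using hex
    have hinj : Function.Injective e := by
      intro i j hij
      obtain ⟨s, hs⟩ := he2 i
      rw [hij] at hs
      rcases he3 j _ hs with ⟨a, ha⟩ | ⟨s', hs'⟩
      · exact absurd ha (by simp)
      · have := Sum.inr_injective hs'
        simp only [Prod.mk.injEq] at this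
        exact this.2.2.1
    have h1 : (Set.range e).ncard = k + 1 := by
      rw [← Set.image_univ, Set.ncard_image_of_injective _ hinj, Set.ncard_univ,
        Nat.card_eq_fintype_card, Fintype.card_fin]
    have h2 : (Set.range e).ncard ≤ (symmDiff (enf G Fr k).edgeSet H.edgeSet).ncard := by
      apply Set.ncard_le_ncard _ hfin
      rintro _ ⟨i, rfl⟩
      exact he1 i
    omega

end Pool.Agent.H548E
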