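import Pool.Agent.H548E.Defs
import Pool.Agent.H548E.T01

/-! T21: frozen pairs: from the small graph to the big graph -/

namespace Pool.Agent.H548E

open Pool.Agent.NPC Pool.Agent.NPC.R671 Pool.Agent.CK

private def t21_rel {V : Type} (G G' : SimpleGraph V) (Fr : V → V → Prop) (k : ℕ) :
    V ⊕ (V × V × Fin (k + 1) × Bool) → V ⊕ (V × V × Fin (k + 1) × Bool) → Prop
  | Sum.inl a, Sum.inl b => G'.Adj a b
  | x, y => enfRel G Fr k x y

private theorem t21_ll {V : Type} (G G' : SimpleGraph V) (Fr : V → V → Prop) (k : ℕ) (a b : V) :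
    (SimpleGraph.fromRel (t21_rel G G' Fr k)).Adj (Sum.inl a) (Sum.inl b) ↔ G'.Adj a b := by
  rw [SimpleGraph.fromRel_adj]
  constructor
  · rintro ⟨-, h | h⟩
    · exact h
    · exact SimpleGraph.Adj.symm h
  · intro h
    refine ⟨?_, Or.inl h⟩
    intro e
    exact G'.ne_of_adj h (Sum.inl_injective e)

private theorem t21_lr {V : Type} (G G' : SimpleGraph V) (Fr : V → V → Prop) (k : ℕ) (a : V)
    (p q : V) (i : Fin (k + 1)) (s : Bool) :
    (SimpleGraph.fromRel (t21_rel G G' Fr k)).Adj (Sum.inl a) (Sum.inr (p, q, i, s)) ↔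
      Fr p q ∧ p ≠ q ∧
      ((G.Adj p q ∧ (a = p ∨ a = q)) ∨ (¬ G.Adj p q ∧ a = if s = true then q else p)) := by
  rw [SimpleGraph.fromRel_adj]
  constructor
  · rintro ⟨-, h | h⟩
    · exact h
    · exact h.elim
  · intro h
    exact ⟨Sum.inl_ne_inr, Or.inl h⟩

private theorem t21_rr {V : Type} (G G' : SimpleGraph V) (Fr : V → V → Prop) (k : ℕ)
    (p q : V) (i : Fin (k + 1)) (s : Bool) (p' q' : V) (i' : Fin (k + 1)) (s' : Bool) :
    (SimpleGraph.fromRel (t21_rel G G' Fr k)).Adj (Sum.inr (p, q, i, s)) (Sum.inr (p', q', i', s')) ↔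
      p = p' ∧ q = q' ∧ i = i' ∧ s ≠ s' ∧ Fr p q ∧ p ≠ q ∧ ¬ G.Adj p q := by
  rw [SimpleGraph.fromRel_adj]
  constructor
  · rintro ⟨-, h | h⟩
    · exact h
    · obtain ⟨rfl, rfl, rfl, h4, h5, h6, h7⟩ := h
      exact ⟨rfl, rfl, rfl, h4.symm, h5, h6, h7⟩
  · intro h
    refine ⟨?_, Or.inl h⟩
    intro e
    obtain ⟨rfl, rfl, rfl, h4, -⟩ := h
    simp at e
    exact h4 e

/-- two different neighbours of a gadget vertex with another common neighbour are adjacent -/
private theorem t21_key {V : Type} (G G' : SimpleGraph V) (Fr : V → V → Prop) (k : ℕ)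
    (h3 : ∀ p q, p ≠ q → Fr p q → (G.Adj p q ↔ G'.Adj p q))
    (g : V × V × Fin (k + 1) × Bool) (u w z : V ⊕ (V × V × Fin (k + 1) × Bool)) (huw : u ≠ w)
    (hzx : z ≠ Sum.inr g)
    (hu : (SimpleGraph.fromRel (t21_rel G G' Fr k)).Adj u (Sum.inr g))
    (hw : (SimpleGraph.fromRel (t21_rel G G' Fr k)).Adj w (Sum.inr g))
    (hzu : (SimpleGraph.fromRel (t21_rel G G' Fr k)).Adj z u)
    (hzw : (SimpleGraph.fromRel (t21_rel G G' Fr k)).Adj z w) :
    (SimpleGraph.fromRel (t21_rel G G' Fr k)).Adj u w := by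
  obtain ⟨p, q, i, s⟩ := g
  -- the two mixed cases
  have mixed : ∀ (a : V) (p' q' : V) (i' : Fin (k + 1)) (s' : Bool),
      (SimpleGraph.fromRel (t21_rel G G' Fr k)).Adj (Sum.inl a) (Sum.inr (p, q, i, s)) →
      (SimpleGraph.fromRel (t21_rel G G' Fr k)).Adj (Sum.inr (p', q', i', s')) (Sum.inr (p, q, i, s)) →
      (SimpleGraph.fromRel (t21_rel G G' Fr k)).Adj z (Sum.inl a) →
      (SimpleGraph.fromRel (t21_rel G G' Fr k)).Adj z (Sum.inr (p', q', i', s')) → False := by
    intro a p' q' i' s' ha hb hza hzb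
    rw [t21_lr] at ha
    rw [t21_rr] at hb
    obtain ⟨rfl, rfl, rfl, hs, hFr, hpq, hnG⟩ := hb
    obtain ⟨-, -, ⟨hG, -⟩ | ⟨-, ha⟩⟩ := ha
    · exact hnG hG
    rcases z with z | ⟨p'', q'', i'', s''⟩
    · rw [t21_ll] at hza
      rw [t21_lr] at hzb
      obtain ⟨-, -, ⟨hG, -⟩ | ⟨-, hz⟩⟩ := hzb
      · exact hnG hG
      apply hnG
      rw [h3 _ _ hpq hFr]
      cases s <;> cases s' <;> simp_all [SimpleGraph.adj_comm]
    · rw [t21_rr] at hzb
      obtain ⟨rfl, rfl, rfl, hs2, -⟩ := hzb
      apply hzx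
      cases s <;> cases s' <;> cases s'' <;> simp_all
  rcases u with a | ⟨p', q', i', s'⟩
  · rcases w with b | ⟨p', q', i', s'⟩
    · rw [t21_ll]
      rw [t21_lr] at hu hw
      obtain ⟨hFr, hpq, hu⟩ := hu
      obtain ⟨-, -, hw⟩ := hw
      have hab : a ≠ b := fun e => huw (by rw [e])
      by_cases hG : G.Adj p q
      · have hG' := (h3 p q hpq hFr).mp hG
        rcases hu with ⟨-, hu⟩ | ⟨h, -⟩
        · rcases hw with ⟨-, hw⟩ | ⟨h, -⟩
          · rcases hu with rfl | rfl <;> rcases hw with rfl | rfl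
            · exact (hab rfl).elim
            · exact hG'
            · exact SimpleGraph.Adj.symm hG'
            · exact (hab rfl).elim
          · exact (h hG).elim
        · exact (h hG).elim
      · rcases hu with ⟨h, -⟩ | ⟨-, hu⟩
        · exact (hG h).elim
        rcases hw with ⟨h, -⟩ | ⟨-, hw⟩
        · exact (hG h).elim
        exact (hab (hu.trans hw.symm)).elim
    · exact (mixed a p' q' i' s' hu hw hzu hzw).elim
  · rcases w with b | ⟨p'', q'', i'', s''⟩
    · exact (mixed b p' q' i' s' hw hu hzw hzu).elim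
    · exfalso
      rw [t21_rr] at hu hw
      obtain ⟨rfl, rfl, rfl, hs, -⟩ := hu
      obtain ⟨rfl, rfl, rfl, hs2, -⟩ := hw
      apply huw
      cases s <;> cases s' <;> cases s'' <;> simp_all

theorem enf_mpr {V : Type} [Fintype V] [DecidableEq V] (G : SimpleGraph V) (Fr : V → V → Prop)
    (k : ℕ) (G' : SimpleGraph V) (h1 : NoC4 G') (h2 : (symmDiff G.edgeSet G'.edgeSet).ncard ≤ k)
    (h3 : ∀ p q, p ≠ q → Fr p q → (G.Adj p q ↔ G'.Adj p q)) :
    Editable [⟨4, C4⟩] (enf G Fr k) k := by
  refine ⟨SimpleGraph.fromRel (t21_rel G G' Fr k), ?_, ?_⟩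
  · rw [freeOf_C4]
    intro a b c d hab hbc hcd hda hac hbd
    rcases a with a | a
    · rcases b with b | b
      · rcases c with c | c
        · rcases d with d | d
          · rw [t21_ll] at hab hbc hcd hda
            rw [t21_ll, t21_ll]
            exact h1 a b c d hab hbc hcd hda (fun e => hac (by rw [e])) (fun e => hbd (by rw [e]))
          · left
            exact t21_key G G' Fr k h3 d _ _ (Sum.inl b) hac (by simp) hda.symm hcd hab.symm hbc
        · right
          exact t21_key G G' Fr k h3 c _ _ (Sum.inl a) hbd (by simp) hbc hcd.symm hab hda.symm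
      · left
        exact t21_key G G' Fr k h3 b _ _ d hac hbd.symm hab hbc.symm hda hcd.symm
    · right
      exact t21_key G G' Fr k h3 a _ _ c hbd hac.symm hab.symm hda hbc.symm hcd
  · have hsub : symmDiff (enf G Fr k).edgeSet (SimpleGraph.fromRel (t21_rel G G' Fr k)).edgeSet ⊆
        Sym2.map Sum.inl '' (symmDiff G.edgeSet G'.edgeSet) := by
      intro e
      induction e using Sym2.ind with
      | _ x y =>
        intro he
        rcases x with a | a
        · rcases y with b | b
          · refine ⟨s(a, b), ?_, rfl⟩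
            rw [Set.mem_symmDiff, SimpleGraph.mem_edgeSet, SimpleGraph.mem_edgeSet, t21_ll] at he
            have hG : (enf G Fr k).Adj (Sum.inl a) (Sum.inl b) ↔ G.Adj a b := by
              unfold enf
              rw [SimpleGraph.fromRel_adj]
              constructor
              · rintro ⟨-, h | h⟩
                · exact h
                · exact SimpleGraph.Adj.symm h
              · intro h
                exact ⟨fun e => G.ne_of_adj h (Sum.inl_injective e), Or.inl h⟩
            rw [hG] at he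
            rw [Set.mem_symmDiff, SimpleGraph.mem_edgeSet, SimpleGraph.mem_edgeSet]
            exact he
          · exfalso
            rw [Set.mem_symmDiff, SimpleGraph.mem_edgeSet, SimpleGraph.mem_edgeSet] at he
            have : (enf G Fr k).Adj (Sum.inl a) (Sum.inr b) ↔
                (SimpleGraph.fromRel (t21_rel G G' Fr k)).Adj (Sum.inl a) (Sum.inr b) := Iff.rfl
            rw [this] at he
            tauto
        · exfalso
          rw [Set.mem_symmDiff, SimpleGraph.mem_edgeSet, SimpleGraph.mem_edgeSet] at he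
          have : (enf G Fr k).Adj (Sum.inr a) y ↔
              (SimpleGraph.fromRel (t21_rel G G' Fr k)).Adj (Sum.inr a) y := by
            rcases y with b | b <;> exact Iff.rfl
          rw [this] at he
          tauto
    calc (symmDiff (enf G Fr k).edgeSet (SimpleGraph.fromRel (t21_rel G G' Fr k)).edgeSet).ncard
        ≤ (Sym2.map Sum.inl '' (symmDiff G.edgeSet G'.edgeSet)).ncard :=
          Set.ncard_le_ncard hsub (Set.toFinite _)
      _ ≤ (symmDiff G.edgeSet G'.edgeSet).ncard := Set.ncard_image_le (Set.toFinite _)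
      _ ≤ k := h2

end Pool.Agent.H548E
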