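import Pool.Agent.H548E.Defs

namespace Pool.Agent.H548E

open Pool.Agent.NPC Pool.Agent.NPC.R671 Pool.Agent.CK

theorem apex_mp {W : Type} [Fintype W] [DecidableEq W] (T : SimpleGraph W) (hT : Girth5 T)
    (R F : Finset W) (hRF : Disjoint R F) (k : ℕ) (G' : SimpleGraph (Option W)) (h1 : NoC4 G')
    (h2 : (symmDiff (apexG T R).edgeSet G'.edgeSet).ncard ≤ k)
    (h3 : ∀ p q, p ≠ q → apexFr F p q → ((apexG T R).Adj p q ↔ G'.Adj p q)) :
    ∃ D : Finset W, D ⊆ F ∧ D.card ≤ k ∧ Good T (↑(R ∪ D) : Set W) := by
  classical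
  have hA0 : ∀ w, (apexG T R).Adj none (some w) ↔ w ∉ R := by
    intro w; simp [apexG, apexRel]
  have hA1 : ∀ x y, (apexG T R).Adj (some x) (some y) ↔ T.Adj x y := by
    intro x y
    simp only [apexG, apexRel, SimpleGraph.fromRel_adj, ne_eq, Option.some.injEq]
    constructor
    · rintro ⟨_, h | h⟩
      · exact h
      · exact h.symm
    · intro h
      exact ⟨h.ne, Or.inl h⟩
  set D : Finset W := F.filter (fun w => ¬ G'.Adj none (some w)) with hD
  refine ⟨D, Finset.filter_subset _ _, ?_, ?_⟩
  · -- cardinality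
    refine le_trans ?_ h2
    rw [← Set.ncard_coe_finset]
    refine Set.ncard_le_ncard_of_injOn (fun w => s(none, some w)) ?_ ?_ (Set.toFinite _)
    · intro w hw
      have hw' := Finset.mem_filter.1 (Finset.mem_coe.1 hw)
      left
      refine ⟨?_, ?_⟩
      · rw [SimpleGraph.mem_edgeSet, hA0]
        exact fun h => (Finset.disjoint_left.1 hRF h) hw'.1
      · rw [SimpleGraph.mem_edgeSet]
        exact hw'.2
    · intro a _ b _ hab
      simpa using hab
  · -- Good
    have hN : ∀ w, w ∉ R ∪ D ↔ G'.Adj none (some w) := by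
      intro w
      by_cases hF : w ∈ F
      · have hR : w ∉ R := fun h => (Finset.disjoint_left.1 hRF h) hF
        simp [hD, hF, hR]
      · have := h3 none (some w) (by simp) (by simpa [apexFr] using hF)
        rw [← this, hA0]
        simp [hD, hF]
    have hS : ∀ x y, T.Adj x y ↔ G'.Adj (some x) (some y) := by
      intro x y
      by_cases hxy : x = y
      · subst hxy; simp
      · rw [← hA1 x y]
        exact h3 (some x) (some y) (by simpa using hxy) trivial
    intro y hy a b hya hyb hab
    by_contra hcon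
    rw [not_or] at hcon
    obtain ⟨ha, hb⟩ := hcon
    have ha' : G'.Adj none (some a) := (hN a).1 (by simpa using ha)
    have hb' : G'.Adj none (some b) := (hN b).1 (by simpa using hb)
    rcases h1 none (some a) (some y) (some b) ha' ((hS a y).1 hya.symm) ((hS y b).1 hyb) hb'.symm
      (by simp) (by simpa using hab) with h | h
    · exact ((hN y).2 h) (by simpa using hy)
    · exact hT.1 y a b hya ((hS a b).2 h) hyb

end Pool.Agent.H548E
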