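import Pool.Agent.H548E.Defs

/-! # T23: from a good set to a C4-free graph -/

namespace Pool.Agent.H548E
open Pool.Agent.NPC Pool.Agent.NPC.R671 Pool.Agent.CK

section
variable {W : Type} (T : SimpleGraph W) (R : Finset W)

private theorem t23_ns (w : W) : (apexG T R).Adj none (some w) ↔ w ∉ R := by
  simp [apexG, SimpleGraph.fromRel_adj, apexRel]

private theorem t23_sn (w : W) : (apexG T R).Adj (some w) none ↔ w ∉ R := by
  simp [apexG, SimpleGraph.fromRel_adj, apexRel]

private theorem t23_ss (x y : W) : (apexG T R).Adj (some x) (some y) ↔ T.Adj x y := by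
  simp only [apexG, SimpleGraph.fromRel_adj, apexRel, ne_eq, Option.some.injEq]
  constructor
  · rintro ⟨_, h | h⟩
    · exact h
    · exact h.symm
  · intro h
    exact ⟨h.ne, Or.inl h⟩


private theorem t23_apex (Z : Finset W) (hg : Good T (↑Z : Set W)) (b c d : Option W)
    (h1 : (apexG T Z).Adj none b) (h2 : (apexG T Z).Adj b c) (h3 : (apexG T Z).Adj c d)
    (h4 : (apexG T Z).Adj d none) (hc : none ≠ c) (hbd : b ≠ d) :
    (apexG T Z).Adj none c ∨ (apexG T Z).Adj b d := by
  obtain _ | b := b
  · exact absurd h1 (SimpleGraph.irrefl _)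
  obtain _ | d := d
  · exact absurd h4 (SimpleGraph.irrefl _)
  obtain _ | c := c
  · exact absurd rfl hc
  rw [t23_ns] at h1 ⊢
  rw [t23_sn] at h4
  rw [t23_ss] at h2 h3
  by_cases hcZ : c ∈ Z
  · exfalso
    rcases hg c (by exact_mod_cast hcZ) b d h2.symm h3 (by simpa using hbd) with h | h
    · exact h1 (by exact_mod_cast h)
    · exact h4 (by exact_mod_cast h)
  · exact Or.inl hcZ

end

/-- C4 -/
theorem apex_mpr {W : Type} [Fintype W] [DecidableEq W] (T : SimpleGraph W) (hT : Girth5 T)
    (R F : Finset W) (hRF : Disjoint R F) (k : ℕ) (D : Finset W) (hD : D ⊆ F) (hk : D.card ≤ k)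
    (hg : Good T (↑(R ∪ D) : Set W)) :
    ∃ G' : SimpleGraph (Option W), NoC4 G' ∧
      (symmDiff (apexG T R).edgeSet G'.edgeSet).ncard ≤ k ∧
      ∀ p q, p ≠ q → apexFr F p q → ((apexG T R).Adj p q ↔ G'.Adj p q) := by
  refine ⟨apexG T (R ∪ D), ?_, ?_, ?_⟩
  · intro a b c d hab hbc hcd hda hac hbd
    obtain _ | a := a
    · exact t23_apex T (R ∪ D) hg b c d hab hbc hcd hda hac hbd
    obtain _ | b := b
    · rcases t23_apex T (R ∪ D) hg c d (some a) hbc hcd hda hab hbd hac.symm with h | h
      · exact Or.inr h
      · exact Or.inl h.symm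
    obtain _ | c := c
    · rcases t23_apex T (R ∪ D) hg d (some a) (some b) hcd hda hab hbc hac.symm hbd.symm with h | h
      · exact Or.inl h.symm
      · exact Or.inr h.symm
    obtain _ | d := d
    · rcases t23_apex T (R ∪ D) hg (some a) (some b) (some c) hda hab hbc hcd hbd.symm hac with h | h
      · exact Or.inr h.symm
      · exact Or.inl h
    exfalso
    rw [t23_ss] at hab hbc hcd hda
    exact hbd (congrArg some (hT.2 a c b d (by simpa using hac) hab.symm hbc hda hcd.symm))
  · have hsub : symmDiff (apexG T R).edgeSet (apexG T (R ∪ D)).edgeSet ⊆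
        (fun w : W => (s(none, some w) : Sym2 (Option W))) '' (↑D : Set W) := by
      intro e he
      induction e using Sym2.inductionOn with
      | hf x y =>
        rw [Set.mem_symmDiff] at he
        simp only [SimpleGraph.mem_edgeSet] at he
        obtain _ | x := x
        · obtain _ | y := y
          · rcases he with he | he
            · exact absurd he.1 (SimpleGraph.irrefl _)
            · exact absurd he.1 (SimpleGraph.irrefl _)
          · simp only [t23_ns, Finset.mem_union, not_or, not_and, not_not] at he
            refine ⟨y, ?_, rfl⟩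
            rcases he with ⟨h1, h2⟩ | ⟨⟨h1, _⟩, h2⟩
            · exact_mod_cast h2 h1
            · exact absurd h2 h1
        · obtain _ | y := y
          · simp only [t23_sn, Finset.mem_union, not_or, not_and, not_not] at he
            refine ⟨x, ?_, Sym2.eq_swap⟩
            rcases he with ⟨h1, h2⟩ | ⟨⟨h1, _⟩, h2⟩
            · exact_mod_cast h2 h1
            · exact absurd h2 h1
          · simp only [t23_ss] at he
            tauto
    calc (symmDiff (apexG T R).edgeSet (apexG T (R ∪ D)).edgeSet).ncard
        ≤ ((fun w : W => (s(none, some w) : Sym2 (Option W))) '' (↑D : Set W)).ncard :=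
          Set.ncard_le_ncard hsub (Set.toFinite _)
      _ ≤ (↑D : Set W).ncard := Set.ncard_image_le (Set.toFinite _)
      _ = D.card := Set.ncard_coe_finset D
      _ ≤ k := hk
  · intro p q hpq hfr
    obtain _ | p := p
    · obtain _ | q := q
      · exact absurd rfl hpq
      · have hq : q ∉ D := fun h => hfr (hD h)
        simp [t23_ns, hq]
    · obtain _ | q := q
      · have hp : p ∉ D := fun h => hfr (hD h)
        simp [t23_sn, hp]
      · simp [t23_ss]

end Pool.Agent.H548E
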