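import Pool.Agent.H548E.Defs

namespace Pool.Agent.H548E

open Pool.Agent.NPC Pool.Agent.NPC.R671 Pool.Agent.CK

/-- depth of a vertex -/
private def t24_dep {d M N : ℕ} : W d M N → ℕ
  | .node l _ => l
  | .bl _ => d + 1
  | .t _ _ _ => d + 1
  | .b _ _ _ => d + 2
  | .z _ _ _ => d + 2
  | .v _ _ => d + 3

private theorem t24_par_dep {d M N : ℕ} {E : ℕ → ℕ → ℕ → Prop} {x y : W d M N}
    (h : par E x y) : t24_dep x = t24_dep y + 1 := by
  cases x <;> cases y <;> simp only [par, t24_dep] at h ⊢ <;> omega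

private theorem t24_adj {d M N : ℕ} {E : ℕ → ℕ → ℕ → Prop} {x y : W d M N} :
    (Tr E).Adj x y → (par E x y ∨ par E y x) := by
  intro h
  rw [Tr, SimpleGraph.fromRel_adj] at h
  exact h.2

private theorem t24_two {d M N : ℕ} {E : ℕ → ℕ → ℕ → Prop} {p q q' : W d M N}
    (h1 : par E p q) (h2 : par E p q') (hne : q ≠ q') :
    ∃ (a0 : Fin M) (u u1 w1 u2 w2 : Fin N), p = W.v a0 u ∧ q = W.z a0 u1 w1 ∧
      q' = W.z a0 u2 w2 ∧ (u1 : ℕ) < w1 ∧ (u2 : ℕ) < w2 ∧ (u = u1 ∨ u = w1) ∧
      (u = u2 ∨ u = w2) := by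
  cases p with
  | v a0 u =>
    cases q with
    | z a1 u1 w1 =>
      cases q' with
      | z a2 u2 w2 =>
        simp only [par] at h1 h2
        obtain ⟨rfl, h12, -, h13⟩ := h1
        obtain ⟨rfl, h22, -, h23⟩ := h2
        exact ⟨a0, u, u1, w1, u2, w2, rfl, rfl, rfl, h12, h22, h13, h23⟩
      | _ => exact h2.elim
    | _ => exact h1.elim
  | node l a =>
    exfalso
    cases q <;> cases q' <;> simp only [par] at h1 h2
    apply hne
    congr 1
    · apply Fin.ext; omega
    · apply Fin.ext; omega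
  | bl a =>
    exfalso
    cases q <;> cases q' <;> simp only [par] at h1 h2
    apply hne
    congr 1
    · apply Fin.ext; omega
    · rw [← h1.2, ← h2.2]
  | t a u w =>
    exfalso
    cases q <;> cases q' <;> simp only [par] at h1 h2
    apply hne
    congr 1
    · apply Fin.ext; omega
    · rw [← h1.2, ← h2.2]
  | b a u w =>
    exfalso
    cases q <;> cases q' <;> simp only [par] at h1 h2
    apply hne
    rw [← h1.1, ← h1.2.1, ← h1.2.2, ← h2.1, ← h2.2.1, ← h2.2.2]
  | z a u w =>
    exfalso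
    cases q <;> cases q' <;> simp only [par] at h1 h2
    apply hne
    rw [← h1.1, ← h1.2.1, ← h1.2.2, ← h2.1, ← h2.2.1, ← h2.2.2]

private theorem t24_key {d M N : ℕ} {E : ℕ → ℕ → ℕ → Prop} {p q q' r : W d M N}
    (h1 : par E p q) (h2 : par E p q') (hne : q ≠ q') (hr : r ≠ p)
    (h3 : par E r q ∨ par E q r) (h4 : par E r q' ∨ par E q' r) : False := by
  have d1 := t24_par_dep h1
  have d2 := t24_par_dep h2
  obtain ⟨a0, u, u1, w1, u2, w2, rfl, rfl, rfl, l1, l2, e1, e2⟩ := t24_two h1 h2 hne
  rcases h3 with h3 | h3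
  · rcases h4 with h4 | h4
    · obtain ⟨a1, u', u1', w1', u2', w2', rfl, f1, f2, -, -, g1, g2⟩ := t24_two h3 h4 hne
      simp only [W.z.injEq] at f1 f2
      obtain ⟨rfl, rfl, rfl⟩ := f1
      obtain ⟨-, rfl, rfl⟩ := f2
      have huu : u' ≠ u := fun h => hr (by rw [h])
      apply hne
      have hA : (u1 : ℕ) = u2 ∧ (w1 : ℕ) = w2 := by
        have huu' : (u' : ℕ) ≠ u := fun h => huu (Fin.ext h)
        rw [Fin.ext_iff, Fin.ext_iff] at e1 e2 g1 g2
        omega
      rw [Fin.ext hA.1, Fin.ext hA.2]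
    · have d3 := t24_par_dep h3
      have d4 := t24_par_dep h4
      simp only [t24_dep] at d3 d4
      omega
  · rcases h4 with h4 | h4
    · have d3 := t24_par_dep h3
      have d4 := t24_par_dep h4
      simp only [t24_dep] at d3 d4
      omega
    · cases r <;> simp only [par] at h3 h4
      apply hne
      rw [h3.2.1, h3.2.2, h4.2.1, h4.2.2]

/-- C5 -/
theorem girth_Tr {d M N : ℕ} (E : ℕ → ℕ → ℕ → Prop) : Girth5 (Tr E : SimpleGraph (W d M N)) := by
  constructor
  · intro a b c hab hbc hac
    have h1 := t24_adj hab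
    have h2 := t24_adj hbc
    have h3 := t24_adj hac
    have k1 : t24_dep a = t24_dep b + 1 ∨ t24_dep b = t24_dep a + 1 :=
      h1.imp t24_par_dep t24_par_dep
    have k2 : t24_dep b = t24_dep c + 1 ∨ t24_dep c = t24_dep b + 1 :=
      h2.imp t24_par_dep t24_par_dep
    have k3 : t24_dep a = t24_dep c + 1 ∨ t24_dep c = t24_dep a + 1 :=
      h3.imp t24_par_dep t24_par_dep
    omega
  · intro a b x y hne hxa hxb hya hyb
    by_contra hxy
    have h1 := t24_adj hxa
    have h2 := t24_adj hxb
    have h3 := t24_adj hya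
    have h4 := t24_adj hyb
    have up : ∀ {p q : W d M N}, (par E p q ∨ par E q p) → t24_dep q ≤ t24_dep p →
        par E p q := by
      intro p q h hle
      rcases h with h | h
      · exact h
      · have := t24_par_dep h
        omega
    rcases le_total (t24_dep x) (t24_dep y) with c1 | c1 <;>
    rcases le_total (t24_dep a) (t24_dep b) with c2 | c2
    · rcases le_total (t24_dep y) (t24_dep b) with c3 | c3
      · exact t24_key (up h2.symm (by omega)) (up h4.symm (by omega)) hxy hne h1.symm h3.symm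
      · exact t24_key (up h3 (by omega)) (up h4 (by omega)) hne hxy h1 h2
    · rcases le_total (t24_dep y) (t24_dep a) with c3 | c3
      · exact t24_key (up h1.symm (by omega)) (up h3.symm (by omega)) hxy hne.symm h2.symm h4.symm
      · exact t24_key (up h3 (by omega)) (up h4 (by omega)) hne hxy h1 h2
    · rcases le_total (t24_dep x) (t24_dep b) with c3 | c3
      · exact t24_key (up h2.symm (by omega)) (up h4.symm (by omega)) hxy hne h1.symm h3.symm
      · exact t24_key (up h1 (by omega)) (up h2 (by omega)) hne (Ne.symm hxy) h3 h4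
    · rcases le_total (t24_dep x) (t24_dep a) with c3 | c3
      · exact t24_key (up h1.symm (by omega)) (up h3.symm (by omega)) hxy hne.symm h2.symm h4.symm
      · exact t24_key (up h1 (by omega)) (up h2 (by omega)) hne (Ne.symm hxy) h3 h4

end Pool.Agent.H548E
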