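import Pool.Agent.H548E.Defs

namespace Pool.Agent.H548E

open Pool.Agent.NPC Pool.Agent.NPC.R671 Pool.Agent.CK

theorem tree_mp {d M N : ℕ} (hM : 2 ^ d ≤ M) (E : ℕ → ℕ → ℕ → Prop) (q : ℕ)
    (D : Finset (W d M N)) (hD : D ⊆ freeSet d M N) (hk : D.card ≤ d + (2 * N * N + q))
    (hg : Good (Tr E) (↑(rootSet d M N ∪ D) : Set (W d M N))) :
    ∃ a < 2 ^ d, ∃ C : Finset (Fin N), C.card ≤ q ∧ IsCover (E a) C := by
  classical
  -- membership
  have hfree : ∀ x : W d M N, x ∈ D → isFree x = true := fun x hx => by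
    have := hD hx
    simpa [freeSet] using this
  have hmem : ∀ x : W d M N, x ∈ rootSet d M N ∪ D ↔ isRoot x = true ∨ x ∈ D := by
    intro x; simp [rootSet]
  have hgood : ∀ y ∈ rootSet d M N ∪ D, ∀ a b, (Tr E).Adj y a → (Tr E).Adj y b → a ≠ b →
      a ∉ rootSet d M N ∪ D → b ∈ rootSet d M N ∪ D := by
    intro y hy a b h1 h2 h3 h4
    rcases hg y (Finset.mem_coe.2 hy) a b h1 h2 h3 with h | h
    · exact absurd (Finset.mem_coe.1 h) h4
    · exact Finset.mem_coe.1 h
  -- the path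
  have hpath : ∀ l : ℕ, ∀ hl : l < d + 1, ∃ a : ℕ, ∃ ha : a < M, a < 2 ^ l ∧
      W.node ⟨l, hl⟩ ⟨a, ha⟩ ∈ rootSet d M N ∪ D := by
    intro l
    induction l with
    | zero =>
      intro hl
      refine ⟨0, lt_of_lt_of_le (by positivity) hM, by simp, ?_⟩
      rw [hmem]
      left
      simp [isRoot]
    | succ l ih =>
      intro hl
      obtain ⟨a, ha, ha2, hZ⟩ := ih (by omega)
      have hpow : 2 ^ (l + 1) ≤ M := le_trans (Nat.pow_le_pow_right (by norm_num) (by omega)) hM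
      have h1 : 2 * a < 2 ^ (l + 1) := by rw [pow_succ]; omega
      have h2 : 2 * a + 1 < 2 ^ (l + 1) := by rw [pow_succ]; omega
      by_cases hc : W.node ⟨l + 1, hl⟩ ⟨2 * a, by omega⟩ ∈ rootSet d M N ∪ D
      · exact ⟨2 * a, by omega, h1, hc⟩
      · refine ⟨2 * a + 1, by omega, h2, ?_⟩
        refine hgood _ hZ _ _ ?_ ?_ ?_ hc
        · simp [Tr, par]
        · simp only [Tr, SimpleGraph.fromRel_adj, par]
          refine ⟨by simp, Or.inr ⟨trivial, ?_⟩⟩
          show a = (2 * a + 1) / 2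
          omega
        · simp
  obtain ⟨a, haM, ha2, haZ⟩ := hpath d (by omega)
  have hbl : W.bl ⟨a, haM⟩ ∉ rootSet d M N ∪ D := by
    rw [hmem, not_or]
    refine ⟨by simp [isRoot], fun h => ?_⟩
    have := hfree _ h
    simp [isFree] at this
  have hb : ∀ u w, W.b ⟨a, haM⟩ u w ∉ rootSet d M N ∪ D := by
    intro u w
    rw [hmem, not_or]
    refine ⟨by simp [isRoot], fun h => ?_⟩
    have := hfree _ h
    simp [isFree] at this
  have ht : ∀ u w, W.t ⟨a, haM⟩ u w ∈ rootSet d M N ∪ D := by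
    intro u w
    refine hgood _ haZ (W.bl ⟨a, haM⟩) _ ?_ ?_ (by simp) hbl
    · simp [Tr, par]
    · simp [Tr, par]
  have hz : ∀ u w, W.z ⟨a, haM⟩ u w ∈ rootSet d M N ∪ D := by
    intro u w
    refine hgood _ (ht u w) (W.b ⟨a, haM⟩ u w) _ ?_ ?_ (by simp) (hb u w)
    · simp [Tr, par]
    · simp [Tr, par]
  have htD : ∀ u w, W.t ⟨a, haM⟩ u w ∈ D := by
    intro u w
    rcases (hmem _).1 (ht u w) with h | h
    · simp [isRoot] at h
    · exact h
  have hzD : ∀ u w, W.z ⟨a, haM⟩ u w ∈ D := by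
    intro u w
    rcases (hmem _).1 (hz u w) with h | h
    · simp [isRoot] at h
    · exact h
  refine ⟨a, ha2, Finset.univ.filter (fun u => W.v ⟨a, haM⟩ u ∈ D), ?_, ?_⟩
  · choose f hfM hf2 hfZ using hpath
    have hfD : ∀ i : Fin d, W.node ⟨i + 1, by omega⟩ ⟨f (i + 1) (by omega), hfM _ _⟩ ∈ D := by
      intro i
      rcases (hmem _).1 (hfZ (i + 1) (by omega)) with h | h
      · simp [isRoot] at h
      · exact h
    set C : Finset (Fin N) := Finset.univ.filter (fun u => W.v ⟨a, haM⟩ u ∈ D) with hC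
    have hvD : ∀ u : {u // u ∈ C}, W.v ⟨a, haM⟩ u.1 ∈ D := fun u =>
      (Finset.mem_filter.1 u.2).2
    let g : Fin d ⊕ (Fin N × Fin N) ⊕ (Fin N × Fin N) ⊕ {u // u ∈ C} → {x // x ∈ D} := fun s =>
      match s with
      | Sum.inl i => ⟨_, hfD i⟩
      | Sum.inr (Sum.inl p) => ⟨_, htD p.1 p.2⟩
      | Sum.inr (Sum.inr (Sum.inl p)) => ⟨_, hzD p.1 p.2⟩
      | Sum.inr (Sum.inr (Sum.inr u)) => ⟨_, hvD u⟩
    have hinj : Function.Injective g := by
      intro s s' hss
      have h' := congrArg Subtype.val hss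
      rcases s with i | p | p | u <;> rcases s' with i' | p' | p' | u' <;>
        simp only [g, W.node.injEq, W.t.injEq, W.z.injEq, W.v.injEq, reduceCtorEq] at h'
      · have := congrArg Fin.val h'.1
        simp only at this
        congr 1
        exact Fin.ext (by omega)
      · obtain ⟨_, h1, h2⟩ := h'
        rw [Prod.ext h1 h2]
      · obtain ⟨_, h1, h2⟩ := h'
        rw [Prod.ext h1 h2]
      · rw [Subtype.ext h'.2]
    have hcard := Fintype.card_le_of_injective g hinj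
    simp only [Fintype.card_sum, Fintype.card_prod, Fintype.card_fin, Fintype.card_coe] at hcard
    have : 2 * N * N = N * N + N * N := by ring
    omega
  · intro u w huw hE
    simp only [Finset.mem_filter, Finset.mem_univ, true_and]
    have hv : ∀ x, W.v ⟨a, haM⟩ x ∈ rootSet d M N ∪ D → W.v ⟨a, haM⟩ x ∈ D := by
      intro x hx
      rcases (hmem _).1 hx with h | h
      · simp [isRoot] at h
      · exact h
    by_contra hcon
    rw [not_or] at hcon
    refine hcon.2 (hv w (hgood _ (hz u w) (W.v ⟨a, haM⟩ u) _ ?_ ?_ ?_ ?_))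
    · simp only [Tr, SimpleGraph.fromRel_adj, par]
      exact ⟨by simp, Or.inr ⟨trivial, huw, hE, Or.inl trivial⟩⟩
    · simp only [Tr, SimpleGraph.fromRel_adj, par]
      exact ⟨by simp, Or.inr ⟨trivial, huw, hE, Or.inr trivial⟩⟩
    · intro h
      rw [W.v.injEq] at h
      have := congrArg Fin.val h.2
      omega
    · exact fun h => hcon.1 (hv u h)

end Pool.Agent.H548E
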