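import Pool.Agent.H548E.Defs

namespace Pool.Agent.H548E

open Pool.Agent.NPC Pool.Agent.NPC.R671 Pool.Agent.CK

/-- the chosen set -/
def t26_inZ {d M N : ℕ} (a : ℕ) (C : Finset (Fin N)) : W d M N → Prop
  | .node l c => (c : ℕ) = a / 2 ^ (d - (l : ℕ))
  | .bl _ => False
  | .t a' _ _ => (a' : ℕ) = a
  | .b _ _ _ => False
  | .z a' _ _ => (a' : ℕ) = a
  | .v a' u => (a' : ℕ) = a ∧ u ∈ C

theorem t26_pow (a d l : ℕ) (h : l + 1 ≤ d) : a / 2 ^ (d - l) = a / 2 ^ (d - (l + 1)) / 2 := by
  rw [show d - l = (d - (l + 1)) + 1 by omega, pow_succ, Nat.div_div_eq_div_mul]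

theorem t26_good {d M N : ℕ} (E : ℕ → ℕ → ℕ → Prop) (a : ℕ) (C : Finset (Fin N))
    (hcov : IsCover (E a) C) (y p q : W d M N) (hy : t26_inZ a C y)
    (hp : par E y p ∨ par E p y) (hq : par E y q ∨ par E q y)
    (h1 : ¬ t26_inZ a C p) (h2 : ¬ t26_inZ a C q) : p = q := by
  cases y with
  | node l c =>
    have hl := l.2
    have hd1 : ∀ x : W d M N, (par E (.node l c) x ∨ par E x (.node l c)) → ¬ t26_inZ a C x →
        (∃ (l' : Fin (d + 1)) (c' : Fin M), x = .node l' c' ∧ (l' : ℕ) = l + 1 ∧
          (c : ℕ) = c' / 2 ∧ (c' : ℕ) ≠ a / 2 ^ (d - (l' : ℕ))) ∨ (x = .bl c ∧ (l : ℕ) = d) := by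
      intro x hx hx'
      cases x with
      | node l' c' =>
        rcases hx with hx | hx
        · exfalso
          apply hx'
          obtain ⟨e1, e2⟩ := hx
          have := t26_pow a d l' (by omega)
          rw [← e1] at this
          simp only [t26_inZ] at hy ⊢
          rw [this, e2, hy]
        · obtain ⟨e1, e2⟩ := hx
          exact Or.inl ⟨l', c', rfl, e1, e2, hx'⟩
      | bl a' =>
        rcases hx with hx | hx
        · exact hx.elim
        · obtain ⟨e1, e2⟩ := hx
          right
          exact ⟨by rw [e2], e1⟩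
      | t a' u w =>
        rcases hx with hx | hx
        · exact hx.elim
        · obtain ⟨e1, e2⟩ := hx
          exfalso
          apply hx'
          simp only [t26_inZ] at hy ⊢
          rw [e2, hy, e1]
          simp
      | b a' u w => rcases hx with hx | hx <;> exact hx.elim
      | z a' u w => rcases hx with hx | hx <;> exact hx.elim
      | v a' u => rcases hx with hx | hx <;> exact hx.elim
    rcases hd1 p hp h1 with ⟨l1, c1, rfl, e1, e2, e3⟩ | ⟨rfl, e1⟩
    · rcases hd1 q hq h2 with ⟨l2, c2, rfl, f1, f2, f3⟩ | ⟨rfl, f1⟩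
      · have hll : l1 = l2 := Fin.ext (by omega)
        subst hll
        have := t26_pow a d l (by have := l1.2; omega)
        rw [← e1] at this
        simp only [t26_inZ] at hy
        have hcc : c1 = c2 := Fin.ext (by omega)
        rw [hcc]
      · have := l1.2
        omega
    · rcases hd1 q hq h2 with ⟨l2, c2, rfl, f1, f2, f3⟩ | ⟨rfl, f1⟩
      · have := l2.2
        omega
      · rfl
  | bl a' => exact hy.elim
  | t a' u w =>
    have hd1 : ∀ x : W d M N, (par E (.t a' u w) x ∨ par E x (.t a' u w)) → ¬ t26_inZ a C x →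
        x = .b a' u w := by
      intro x hx hx'
      cases x with
      | node l' c' =>
        rcases hx with hx | hx
        · exfalso
          apply hx'
          obtain ⟨e1, e2⟩ := hx
          simp only [t26_inZ] at hy ⊢
          rw [← e2, hy, e1]
          simp
        · exact hx.elim
      | bl a' => rcases hx with hx | hx <;> exact hx.elim
      | t a' u w => rcases hx with hx | hx <;> exact hx.elim
      | b a'' u' w' =>
        rcases hx with hx | hx
        · exact hx.elim
        · obtain ⟨rfl, rfl, rfl⟩ := hx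
          rfl
      | z a'' u' w' =>
        rcases hx with hx | hx
        · exact hx.elim
        · obtain ⟨rfl, rfl, rfl⟩ := hx
          exact absurd hy hx'
      | v a' u => rcases hx with hx | hx <;> exact hx.elim
    rw [hd1 p hp h1, hd1 q hq h2]
  | b a' u w => exact hy.elim
  | z a' u w =>
    have hd1 : ∀ x : W d M N, (par E (.z a' u w) x ∨ par E x (.z a' u w)) → ¬ t26_inZ a C x →
        ∃ s : Fin N, x = .v a' s ∧ (u : ℕ) < w ∧ E a' u w ∧ (s = u ∨ s = w) ∧ s ∉ C := by
      intro x hx hx'
      cases x with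
      | node l' c' => rcases hx with hx | hx <;> exact hx.elim
      | bl a' => rcases hx with hx | hx <;> exact hx.elim
      | t a'' u' w' =>
        rcases hx with hx | hx
        · obtain ⟨rfl, rfl, rfl⟩ := hx
          exact absurd hy hx'
        · exact hx.elim
      | b a' u w => rcases hx with hx | hx <;> exact hx.elim
      | z a' u w => rcases hx with hx | hx <;> exact hx.elim
      | v a'' s =>
        rcases hx with hx | hx
        · exact hx.elim
        · obtain ⟨rfl, e1, e2, e3⟩ := hx
          exact ⟨s, rfl, e1, e2, e3, fun h => hx' ⟨hy, h⟩⟩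
    obtain ⟨s, rfl, e1, e2, e3, e4⟩ := hd1 p hp h1
    obtain ⟨s', rfl, f1, f2, f3, f4⟩ := hd1 q hq h2
    simp only [t26_inZ] at hy
    rw [hy] at e2
    have hc := hcov u w e1 e2
    congr 1
    rcases e3 with rfl | rfl <;> rcases f3 with rfl | rfl
    · rfl
    · rcases hc with hc | hc
      · exact absurd hc e4
      · exact absurd hc f4
    · rcases hc with hc | hc
      · exact absurd hc f4
      · exact absurd hc e4
    · rfl
  | v a' u =>
    have hd1 : ∀ x : W d M N, (par E (.v a' u) x ∨ par E x (.v a' u)) → t26_inZ a C x := by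
      intro x hx
      cases x with
      | node l' c' => rcases hx with hx | hx <;> exact hx.elim
      | bl a' => rcases hx with hx | hx <;> exact hx.elim
      | t a'' u' w' => rcases hx with hx | hx <;> exact hx.elim
      | b a' u w => rcases hx with hx | hx <;> exact hx.elim
      | z a'' u' w' =>
        rcases hx with hx | hx
        · obtain ⟨rfl, -⟩ := hx
          exact hy.1
        · exact hx.elim
      | v a'' s => rcases hx with hx | hx <;> exact hx.elim
    exact absurd (hd1 p hp) h1

open Classical in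
/-- the set of the free vertices of the chosen set -/
noncomputable def t26_D (d M N : ℕ) (a : ℕ) (C : Finset (Fin N)) : Finset (W d M N) :=
  Finset.univ.filter fun x => t26_inZ a C x ∧ isFree x = true

theorem t26_card {d M N : ℕ} (hM : 2 ^ d ≤ M) (a : ℕ) (ha : a < 2 ^ d) (C : Finset (Fin N)) :
    (t26_D d M N a C).card ≤ d + (2 * N * N + C.card) := by
  classical
  have haM : a < M := lt_of_lt_of_le ha hM
  have hsub : t26_D d M N a C ⊆
      (Finset.univ.image fun l : Fin d => (W.node l.succ
        ⟨a / 2 ^ (d - ((l : ℕ) + 1)), lt_of_le_of_lt (Nat.div_le_self _ _) haM⟩ : W d M N)) ∪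
      ((Finset.univ.image fun p : Fin N × Fin N => (W.t ⟨a, haM⟩ p.1 p.2 : W d M N)) ∪
      ((Finset.univ.image fun p : Fin N × Fin N => (W.z ⟨a, haM⟩ p.1 p.2 : W d M N)) ∪
      (C.image fun u => (W.v ⟨a, haM⟩ u : W d M N)))) := by
    intro x hx
    obtain ⟨hx1, hx2⟩ := (Finset.mem_filter.1 hx).2
    simp only [Finset.mem_union, Finset.mem_image, Finset.mem_univ, true_and]
    cases x with
    | node l c =>
      left
      simp only [t26_inZ] at hx1
      simp only [isFree, Bool.not_eq_true', decide_eq_false_iff_not] at hx2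
      have hl : (l : ℕ) ≠ 0 := by
        intro h
        apply hx2
        refine ⟨h, ?_⟩
        rw [hx1, h, Nat.sub_zero, Nat.div_eq_of_lt ha]
      refine ⟨⟨(l : ℕ) - 1, by have := l.2; omega⟩, ?_⟩
      have e1 : (⟨(l : ℕ) - 1, by have := l.2; omega⟩ : Fin d).succ = l := by
        apply Fin.ext
        simp only [Fin.val_succ]
        omega
      rw [e1]
      congr 1
      apply Fin.ext
      simp only
      rw [hx1, show (l : ℕ) - 1 + 1 = l by omega]
    | bl a' => exact hx1.elim
    | t a' u w =>
      right; left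
      simp only [t26_inZ] at hx1
      refine ⟨(u, w), ?_⟩
      congr 1
      exact Fin.ext hx1.symm
    | b a' u w => exact hx1.elim
    | z a' u w =>
      right; right; left
      simp only [t26_inZ] at hx1
      refine ⟨(u, w), ?_⟩
      congr 1
      exact Fin.ext hx1.symm
    | v a' u =>
      right; right; right
      obtain ⟨e1, e2⟩ := hx1
      refine ⟨u, e2, ?_⟩
      congr 1
      exact Fin.ext e1.symm
  refine (Finset.card_le_card hsub).trans ?_
  have k1 := Finset.card_union_le
      (Finset.univ.image fun l : Fin d => (W.node l.succ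
        ⟨a / 2 ^ (d - ((l : ℕ) + 1)), lt_of_le_of_lt (Nat.div_le_self _ _) haM⟩ : W d M N))
      ((Finset.univ.image fun p : Fin N × Fin N => (W.t ⟨a, haM⟩ p.1 p.2 : W d M N)) ∪
      ((Finset.univ.image fun p : Fin N × Fin N => (W.z ⟨a, haM⟩ p.1 p.2 : W d M N)) ∪
      (C.image fun u => (W.v ⟨a, haM⟩ u : W d M N))))
  have k2 := Finset.card_union_le
      (Finset.univ.image fun p : Fin N × Fin N => (W.t ⟨a, haM⟩ p.1 p.2 : W d M N))
      ((Finset.univ.image fun p : Fin N × Fin N => (W.z ⟨a, haM⟩ p.1 p.2 : W d M N)) ∪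
      (C.image fun u => (W.v ⟨a, haM⟩ u : W d M N)))
  have k3 := Finset.card_union_le
      (Finset.univ.image fun p : Fin N × Fin N => (W.z ⟨a, haM⟩ p.1 p.2 : W d M N))
      (C.image fun u => (W.v ⟨a, haM⟩ u : W d M N))
  have c1 : (Finset.univ.image fun l : Fin d => (W.node l.succ
        ⟨a / 2 ^ (d - ((l : ℕ) + 1)), lt_of_le_of_lt (Nat.div_le_self _ _) haM⟩ : W d M N)).card
        ≤ d := by
    refine Finset.card_image_le.trans ?_
    simp
  have c2 : (Finset.univ.image fun p : Fin N × Fin N => (W.t ⟨a, haM⟩ p.1 p.2 : W d M N)).card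
      ≤ N * N := by
    refine Finset.card_image_le.trans ?_
    simp
  have c3 : (Finset.univ.image fun p : Fin N × Fin N => (W.z ⟨a, haM⟩ p.1 p.2 : W d M N)).card
      ≤ N * N := by
    refine Finset.card_image_le.trans ?_
    simp
  have c4 : (C.image fun u => (W.v ⟨a, haM⟩ u : W d M N)).card ≤ C.card := Finset.card_image_le
  have e : 2 * N * N = N * N + N * N := by ring
  rw [e]
  omega

theorem tree_mpr {d M N : ℕ} (hM : 2 ^ d ≤ M) (E : ℕ → ℕ → ℕ → Prop) (q : ℕ) (a : ℕ)
    (ha : a < 2 ^ d) (C : Finset (Fin N)) (hC : C.card ≤ q) (hcov : IsCover (E a) C) :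
    ∃ D : Finset (W d M N), D ⊆ freeSet d M N ∧ D.card ≤ d + (2 * N * N + q) ∧
      Good (Tr E) (↑(rootSet d M N ∪ D) : Set (W d M N)) := by
  classical
  have hmem : ∀ x : W d M N, x ∈ (↑(rootSet d M N ∪ t26_D d M N a C) : Set (W d M N)) ↔
      t26_inZ a C x := by
    intro x
    rw [Finset.mem_coe, Finset.mem_union]
    unfold rootSet t26_D
    rw [Finset.mem_filter, Finset.mem_filter]
    constructor
    · rintro (h | h)
      · obtain ⟨-, h⟩ := h
        cases x with
        | node l c =>
          simp only [isRoot, decide_eq_true_eq] at h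
          simp only [t26_inZ]
          rw [h.1, h.2, Nat.sub_zero, Nat.div_eq_of_lt ha]
        | _ => simp [isRoot] at h
      · exact h.2.1
    · intro h
      by_cases hf : isFree x = true
      · exact Or.inr ⟨Finset.mem_univ _, h, hf⟩
      · left
        refine ⟨Finset.mem_univ _, ?_⟩
        cases x with
        | node l c =>
          simp only [isFree, isRoot] at hf ⊢
          simpa using hf
        | bl a' => exact h.elim
        | b a' u w => exact h.elim
        | t a' u w => simp [isFree] at hf
        | z a' u w => simp [isFree] at hf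
        | v a' u => simp [isFree] at hf
  refine ⟨t26_D d M N a C, ?_, ?_, ?_⟩
  · intro x hx
    unfold t26_D at hx
    unfold freeSet
    rw [Finset.mem_filter] at hx ⊢
    exact ⟨hx.1, hx.2.2⟩
  · exact (t26_card hM a ha C).trans (by omega)
  · intro y hy p p' hp hp' hne
    by_contra hcon
    rw [not_or] at hcon
    obtain ⟨h1, h2⟩ := hcon
    rw [hmem] at hy h1 h2
    unfold Tr at hp hp'
    rw [SimpleGraph.fromRel_adj] at hp hp'
    exact hne (t26_good E a C hcov y p p' hy hp.2 hp'.2 h1 h2)

end Pool.Agent.H548E
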