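import Pool.Agent.H548E.Defs

namespace Pool.Agent.H548E

open Pool.Agent.NPC Pool.Agent.NPC.R671 Pool.Agent.CK

private theorem t29_tag {l : List Lab} {c : ℕ} {l' : List Lab} (h : ∀ x ∈ l, x.1 = c)
    (h' : ∀ x ∈ l', c < x.1) : l.Disjoint l' := by
  intro x hx hx'
  have h1 := h x hx
  have h2 := h' x hx'
  omega

private theorem t29_labs (d M N : ℕ) : (labs d M N).Nodup := by
  have hA : (List.range M ×ˢ (List.range N ×ˢ List.range N)).Nodup :=
    List.nodup_range.product (List.nodup_range.product List.nodup_range)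
  have h5 : ((List.range M ×ˢ List.range N).map (fun p => ((5, p.1, p.2, 0) : Lab))).Nodup := by
    refine (List.nodup_range.product List.nodup_range).map ?_
    intro p q h
    simp only [Prod.mk.injEq, true_and, and_true] at h
    exact Prod.ext h.1 h.2
  have h4 : ((List.range M ×ˢ (List.range N ×ˢ List.range N)).map (fun p => ((4, p) : Lab))).Nodup := by
    refine hA.map ?_
    intro p q h
    simpa using h
  have h3 : ((List.range M ×ˢ (List.range N ×ˢ List.range N)).map (fun p => ((3, p) : Lab))).Nodup := by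
    refine hA.map ?_
    intro p q h
    simpa using h
  have h2 : ((List.range M ×ˢ (List.range N ×ˢ List.range N)).map (fun p => ((2, p) : Lab))).Nodup := by
    refine hA.map ?_
    intro p q h
    simpa using h
  have h1 : ((List.range M).map (fun a => ((1, a, 0, 0) : Lab))).Nodup := by
    refine List.nodup_range.map ?_
    intro p q h
    simpa using h
  have h0 : ((List.range (d + 1) ×ˢ List.range M).map (fun p => ((0, p.1, p.2, 0) : Lab))).Nodup := by
    refine (List.nodup_range.product List.nodup_range).map ?_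
    intro p q h
    simp only [Prod.mk.injEq, true_and, and_true] at h
    exact Prod.ext h.1 h.2
  unfold labs
  refine List.Nodup.append h0 (List.Nodup.append h1 (List.Nodup.append h2 (List.Nodup.append h3
    (List.Nodup.append h4 h5 ?_) ?_) ?_) ?_) ?_
  · refine t29_tag (c := 4) ?_ ?_
    · intro x hx
      obtain ⟨p, _, rfl⟩ := List.mem_map.mp hx
      rfl
    · intro x hx
      obtain ⟨p, _, rfl⟩ := List.mem_map.mp hx
      norm_num
  · refine t29_tag (c := 3) ?_ ?_
    · intro x hx
      obtain ⟨p, _, rfl⟩ := List.mem_map.mp hx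
      rfl
    · intro x hx
      simp only [List.mem_append, List.mem_map] at hx
      rcases hx with ⟨p, _, rfl⟩ | ⟨p, _, rfl⟩ <;> norm_num
  · refine t29_tag (c := 2) ?_ ?_
    · intro x hx
      obtain ⟨p, _, rfl⟩ := List.mem_map.mp hx
      rfl
    · intro x hx
      simp only [List.mem_append, List.mem_map] at hx
      rcases hx with ⟨p, _, rfl⟩ | ⟨p, _, rfl⟩ | ⟨p, _, rfl⟩ <;> norm_num
  · refine t29_tag (c := 1) ?_ ?_
    · intro x hx
      obtain ⟨p, _, rfl⟩ := List.mem_map.mp hx
      rfl
    · intro x hx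
      simp only [List.mem_append, List.mem_map] at hx
      rcases hx with ⟨p, _, rfl⟩ | ⟨p, _, rfl⟩ | ⟨p, _, rfl⟩ | ⟨p, _, rfl⟩ <;> norm_num
  · refine t29_tag (c := 0) ?_ ?_
    · intro x hx
      obtain ⟨p, _, rfl⟩ := List.mem_map.mp hx
      rfl
    · intro x hx
      simp only [List.mem_append, List.mem_map] at hx
      rcases hx with ⟨p, _, rfl⟩ | ⟨p, _, rfl⟩ | ⟨p, _, rfl⟩ | ⟨p, _, rfl⟩ | ⟨p, _, rfl⟩ <;> norm_num

private theorem t29_mains (d M N : ℕ) : (mains d M N).Nodup := by
  unfold mains
  rw [List.nodup_cons]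
  refine ⟨?_, (t29_labs d M N).map (Option.some_injective _)⟩
  intro h
  obtain ⟨x, _, hx⟩ := List.mem_map.mp h
  exact absurd hx (by simp)

/-- C10 -/
theorem verts_nodup (d M N k : ℕ) : (verts d M N k).Nodup := by
  unfold verts
  refine List.Nodup.append ((t29_mains d M N).map Sum.inl_injective) ?_ ?_
  · refine List.Nodup.map Sum.inr_injective ?_
    refine (t29_mains d M N).product ((t29_mains d M N).product (List.nodup_range.product ?_))
    decide
  · intro x hx hx'
    obtain ⟨p, _, rfl⟩ := List.mem_map.mp hx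
    obtain ⟨q, _, hq⟩ := List.mem_map.mp hx'
    exact absurd hq (by simp)

end Pool.Agent.H548E
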