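import Pool.Agent.H548E.Defs

/-!
# T30: the members of the list of vertices; injectivity of the code
-/

namespace Pool.Agent.H548E

open Pool.Agent.NPC Pool.Agent.NPC.R671 Pool.Agent.CK

theorem t30_lab_inj {d M N : ℕ} : Function.Injective (lab (d := d) (M := M) (N := N)) := by
  intro x y h
  cases x <;> cases y <;> simp only [lab, Prod.mk.injEq] at h <;>
    first
    | (exfalso; omega)
    | (obtain ⟨_, h1, h2, h3⟩ := h
       simp only [W.node.injEq, W.bl.injEq, W.t.injEq, W.b.injEq, W.z.injEq, W.v.injEq,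
         Fin.ext_iff]
       first
       | exact h1
       | exact ⟨h1, h2⟩
       | exact ⟨h1, h2, h3⟩)

theorem t30_mem_prod {α β : Type} {l : List α} {l' : List β} {p : α × β} :
    p ∈ l ×ˢ l' ↔ p.1 ∈ l ∧ p.2 ∈ l' := by
  obtain ⟨a, b⟩ := p
  exact List.mem_product

theorem t30_mem_labs (d M N : ℕ) (x : Lab) : x ∈ labs d M N ↔ ∃ y : W d M N, lab y = x := by
  unfold labs
  simp only [List.mem_append, List.mem_map, t30_mem_prod, List.mem_range]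
  constructor
  · rintro (⟨⟨a, b⟩, ⟨h1, h2⟩, rfl⟩ | ⟨a, h1, rfl⟩ | ⟨⟨a, u, w⟩, ⟨h1, h2, h3⟩, rfl⟩ |
      ⟨⟨a, u, w⟩, ⟨h1, h2, h3⟩, rfl⟩ | ⟨⟨a, u, w⟩, ⟨h1, h2, h3⟩, rfl⟩ | ⟨⟨a, u⟩, ⟨h1, h2⟩, rfl⟩)
    · exact ⟨.node ⟨a, h1⟩ ⟨b, h2⟩, rfl⟩
    · exact ⟨.bl ⟨a, h1⟩, rfl⟩
    · exact ⟨.t ⟨a, h1⟩ ⟨u, h2⟩ ⟨w, h3⟩, rfl⟩
    · exact ⟨.b ⟨a, h1⟩ ⟨u, h2⟩ ⟨w, h3⟩, rfl⟩
    · exact ⟨.z ⟨a, h1⟩ ⟨u, h2⟩ ⟨w, h3⟩, rfl⟩
    · exact ⟨.v ⟨a, h1⟩ ⟨u, h2⟩, rfl⟩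
  · rintro ⟨y, rfl⟩
    cases y with
    | node l a => exact Or.inl ⟨(l, a), ⟨l.2, a.2⟩, rfl⟩
    | bl a => exact Or.inr (Or.inl ⟨a, a.2, rfl⟩)
    | t a u w => exact Or.inr (Or.inr (Or.inl ⟨(a, u, w), ⟨a.2, u.2, w.2⟩, rfl⟩))
    | b a u w => exact Or.inr (Or.inr (Or.inr (Or.inl ⟨(a, u, w), ⟨a.2, u.2, w.2⟩, rfl⟩)))
    | z a u w =>
      exact Or.inr (Or.inr (Or.inr (Or.inr (Or.inl ⟨(a, u, w), ⟨a.2, u.2, w.2⟩, rfl⟩))))
    | v a u => exact Or.inr (Or.inr (Or.inr (Or.inr (Or.inr ⟨(a, u), ⟨a.2, u.2⟩, rfl⟩))))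

theorem t30_mem_mains (d M N : ℕ) (x : Option Lab) :
    x ∈ mains d M N ↔ ∃ y : Option (W d M N), y.map lab = x := by
  unfold mains
  simp only [List.mem_cons, List.mem_map]
  constructor
  · rintro (rfl | ⟨a, h, rfl⟩)
    · exact ⟨none, rfl⟩
    · obtain ⟨y, rfl⟩ := (t30_mem_labs d M N a).1 h
      exact ⟨some y, rfl⟩
  · rintro ⟨y, rfl⟩
    cases y with
    | none => exact Or.inl rfl
    | some y => exact Or.inr ⟨lab y, (t30_mem_labs d M N _).2 ⟨y, rfl⟩, rfl⟩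

theorem mem_verts (d M N k : ℕ) (x : Lam) :
    x ∈ verts d M N k ↔ ∃ y : Option (W d M N) ⊕
      (Option (W d M N) × Option (W d M N) × Fin (k + 1) × Bool), labF y = x := by
  unfold verts
  simp only [List.mem_append, List.mem_map, t30_mem_prod, List.mem_range]
  constructor
  · rintro (⟨a, h, rfl⟩ | ⟨⟨p, q, i, s⟩, ⟨h1, h2, h3, _⟩, rfl⟩)
    · obtain ⟨y, rfl⟩ := (t30_mem_mains d M N a).1 h
      exact ⟨Sum.inl y, rfl⟩
    · obtain ⟨y, rfl⟩ := (t30_mem_mains d M N p).1 h1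
      obtain ⟨y', rfl⟩ := (t30_mem_mains d M N q).1 h2
      exact ⟨Sum.inr (y, y', ⟨i, h3⟩, s), rfl⟩
  · rintro ⟨y, rfl⟩
    rcases y with y | ⟨p, q, i, s⟩
    · exact Or.inl ⟨y.map lab, (t30_mem_mains d M N _).2 ⟨y, rfl⟩, rfl⟩
    · refine Or.inr ⟨(p.map lab, q.map lab, i, s), ⟨(t30_mem_mains d M N _).2 ⟨p, rfl⟩,
        (t30_mem_mains d M N _).2 ⟨q, rfl⟩, i.2, ?_⟩, rfl⟩
      cases s <;> simp

theorem labF_injective {d M N k : ℕ} : Function.Injective (labF (d := d) (M := M) (N := N)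
    (k := k)) := by
  have hm : Function.Injective (Option.map (lab (d := d) (M := M) (N := N))) :=
    Option.map_injective t30_lab_inj
  intro x y h
  rcases x with x | ⟨p, q, i, s⟩ <;> rcases y with y | ⟨p', q', i', s'⟩
  · simp only [labF, Sum.inl.injEq] at h
    rw [hm h]
  · simp [labF] at h
  · simp [labF] at h
  · simp only [labF, Sum.inr.injEq, Prod.mk.injEq] at h
    obtain ⟨h1, h2, h3, h4⟩ := h
    rw [hm h1, hm h2, Fin.ext h3, h4]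

end Pool.Agent.H548E
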