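import Pool.Agent.H548E.Defs

/-!
# Adjacency of codes (helper742)
-/

namespace Pool.Agent.H548E

open Pool.Agent.NPC Pool.Agent.NPC.R671 Pool.Agent.CK

private theorem t31_parL (d : ℕ) (Es : List (List (ℕ × ℕ))) (x y : Lab) :
    parL d Es x y = true ↔
  ((x.1 = 0 ∧ y.1 = 0 ∧ x.2.1 = y.2.1 + 1 ∧ y.2.2.1 = x.2.2.1 / 2)) ∨
  (((x.1 = 1) ∧ ((y.1 = 0) ∧ ((y.2.1 = d) ∧ (x.2.1 = y.2.2.1)))) ∨
  (((x.1 = 2) ∧ ((y.1 = 0) ∧ ((y.2.1 = d) ∧ (x.2.1 = y.2.2.1)))) ∨
  (((x.1 = 3) ∧ ((y.1 = 2) ∧ (x.2 = y.2))) ∨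
  (((x.1 = 4) ∧ ((y.1 = 2) ∧ (x.2 = y.2))) ∨
  ((x.1 = 5) ∧ ((y.1 = 4) ∧ ((x.2.1 = y.2.1) ∧
    ((y.2.2.1 < y.2.2.2) ∧ (((y.2.2.1, y.2.2.2) ∈ Es.getD (y.2.1 % Es.length) []) ∧
    ((x.2.2.1 = y.2.2.1) ∨ (x.2.2.1 = y.2.2.2))))))))))) := by
  simp only [parL, Bool.or_eq_true, Bool.and_eq_true, decide_eq_true_eq]

private theorem t31_par {d M N : ℕ} (Es : List (List (ℕ × ℕ))) (x y : W d M N) :
    parL d Es (lab x) (lab y) = true ↔ par (EE Es) x y := by
  rw [t31_parL]
  cases x <;> cases y <;> simp only [lab, par, EE, Prod.mk.injEq, Fin.ext_iff, true_and, and_true,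
    false_and, and_false, false_or, or_false, one_ne_zero, zero_ne_one, OfNat.ofNat_ne_zero,
    OfNat.ofNat_ne_one, OfNat.zero_ne_ofNat, OfNat.one_ne_ofNat, Nat.reduceEqDiff]
  all_goals first | done | (constructor <;> (rintro ⟨h, h2⟩; rw [h] at *; exact ⟨rfl, h2⟩))

private theorem t31_lab_inj {d M N : ℕ} : Function.Injective (lab (d := d) (M := M) (N := N)) := by
  intro x y h
  cases x <;> cases y <;> simp_all [lab, Fin.ext_iff]

private theorem t31_rel {d M N : ℕ} (Es : List (List (ℕ × ℕ))) (p q : Option (W d M N)) :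
    relM d Es (p.map lab) (q.map lab) = true ↔ apexRel (Tr (EE Es)) (rootSet d M N) p q := by
  rcases p with _ | x <;> rcases q with _ | y
  · simp [relM, apexRel]
  · have : rootL (lab y) = isRoot y := by
      cases y <;> simp [rootL, lab, isRoot]
    simp [relM, apexRel, this, rootSet]
  · simp [relM, apexRel]
  · have h : lab x = lab y ↔ x = y := t31_lab_inj.eq_iff
    simp only [relM, apexRel, Option.map_some, Option.elim_some, Bool.and_eq_true,
      decide_eq_true_eq, Bool.or_eq_true, t31_par, Tr, SimpleGraph.fromRel_adj, ne_eq, h]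

theorem adM_lab {d M N : ℕ} (Es : List (List (ℕ × ℕ))) (p q : Option (W d M N)) :
    adM d Es (p.map lab) (q.map lab) = true ↔
      (apexG (Tr (EE Es)) (rootSet d M N)).Adj p q := by
  have h : p.map lab = q.map lab ↔ p = q := (Option.map_injective t31_lab_inj).eq_iff
  simp only [adM, apexG, SimpleGraph.fromRel_adj, Bool.and_eq_true, Bool.or_eq_true,
    decide_eq_true_eq, t31_rel, ne_eq, h]

theorem frM_lab {d M N : ℕ} (p q : Option (W d M N)) :
    frM (p.map lab) (q.map lab) = true ↔ apexFr (freeSet d M N) p q := by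
  have hf : ∀ y : W d M N, freeL (lab y) = isFree y := by
    intro y
    cases y <;> simp [freeL, lab, isFree]
  rcases p with _ | x <;> rcases q with _ | y
  · simp [frM, apexFr]
  · simp [frM, apexFr, hf, freeSet]
  · simp [frM, apexFr, hf, freeSet]
  · simp [frM, apexFr]

end Pool.Agent.H548E
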