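import Pool.Agent.H548E.Defs
import Pool.Agent.H548E.T29
import Pool.Agent.H548E.T30
import Pool.Agent.H548E.T31
import Pool.Agent.H671R2.GraphEnc

/-!
# T32: adjacency of codes; the final graph is the enforced graph
-/

namespace Pool.Agent.H548E

open Pool.Agent.NPC Pool.Agent.NPC.R671 Pool.Agent.CK

theorem t32_map_inj {d M N : ℕ} (a b : Option (W d M N)) : a.map lab = b.map lab ↔ a = b :=
  (Option.map_injective t30_lab_inj).eq_iff

theorem t32_adM_false {d M N : ℕ} (Es : List (List (ℕ × ℕ))) (p q : Option (W d M N)) :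
    adM d Es (p.map lab) (q.map lab) = false ↔
      ¬ (apexG (Tr (EE Es)) (rootSet d M N)).Adj p q := by
  rw [← adM_lab Es p q, Bool.not_eq_true]

theorem t32_relF {d M N k : ℕ} (Es : List (List (ℕ × ℕ)))
    (x y : Option (W d M N) ⊕ (Option (W d M N) × Option (W d M N) × Fin (k + 1) × Bool)) :
    relF d Es (labF x) (labF y) = true ↔
      enfRel (apexG (Tr (EE Es)) (rootSet d M N)) (apexFr (freeSet d M N)) k x y := by
  rcases x with a | ⟨p, q, i, s⟩ <;> rcases y with b | ⟨p', q', i', s'⟩
  · simp only [relF, labF, Sum.elim_inl, enfRel]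
    exact adM_lab Es a b
  · simp only [relF, labF, Sum.elim_inl, Sum.elim_inr, enfRel, Bool.and_eq_true, Bool.or_eq_true,
      decide_eq_true_eq, Bool.not_eq_true', ne_eq, t32_map_inj, adM_lab, frM_lab, t32_adM_false]
    cases s' <;> simp only [if_true, if_false, Bool.false_eq_true, decide_eq_true_eq,
      t32_map_inj, and_assoc]
  · simp [relF, labF, enfRel]
  · simp only [relF, labF, Sum.elim_inr, enfRel, Bool.and_eq_true, decide_eq_true_eq,
      Bool.not_eq_true', ne_eq, t32_map_inj, frM_lab, t32_adM_false, Fin.ext_iff, and_assoc]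

theorem adF_lab {d M N k : ℕ} (Es : List (List (ℕ × ℕ)))
    (x y : Option (W d M N) ⊕ (Option (W d M N) × Option (W d M N) × Fin (k + 1) × Bool)) :
    adF d Es (labF x) (labF y) = true ↔
      (enf (apexG (Tr (EE Es)) (rootSet d M N)) (apexFr (freeSet d M N)) k).Adj x y := by
  unfold adF enf
  rw [SimpleGraph.fromRel_adj, Bool.and_eq_true, Bool.or_eq_true, decide_eq_true_eq, t32_relF,
    t32_relF, ne_eq, ne_eq, labF_injective.eq_iff]

theorem finG_iso (d M N k : ℕ) (Es : List (List (ℕ × ℕ))) :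
    Nonempty (finG d M N k Es ≃g
      enf (apexG (Tr (EE Es)) (rootSet d M N)) (apexFr (freeSet d M N)) k) := by
  obtain ⟨e, he⟩ := R671.exists_equiv (verts d M N k) (verts_nodup d M N k) labF
    labF_injective (fun z => mem_verts d M N k z)
  refine ⟨⟨e, ?_⟩⟩
  intro i j
  rw [← adF_lab Es (e i) (e j), he i, he j]
  exact Iff.rfl

end Pool.Agent.H548E
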