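import Pool.Agent.H548E.Defs
import Pool.Agent.H548E.T02
import Pool.Agent.H548E.T20
import Pool.Agent.H548E.T21
import Pool.Agent.H548E.T22
import Pool.Agent.H548E.T23
import Pool.Agent.H548E.T24
import Pool.Agent.H548E.T25
import Pool.Agent.H548E.T26
import Pool.Agent.H548E.T32

/-! The final graph and vertex covers. -/

namespace Pool.Agent.H548E

open Pool.Agent.NPC Pool.Agent.NPC.R671 Pool.Agent.CK

theorem finG_editable (d M N q : ℕ) (hM : 2 ^ d ≤ M) (Es : List (List (ℕ × ℕ))) :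
    Editable [⟨4, C4⟩] (finG d M N (d + (2 * N * N + q)) Es) (d + (2 * N * N + q)) ↔
      ∃ a < 2 ^ d, ∃ C : Finset (Fin N), C.card ≤ q ∧ IsCover (EE Es a) C := by
  obtain ⟨e⟩ := finG_iso d M N (d + (2 * N * N + q)) Es
  rw [editable_iso [⟨4, C4⟩] e (d + (2 * N * N + q))]
  have hdis : Disjoint (rootSet d M N) (freeSet d M N) := by
    rw [Finset.disjoint_left]
    intro x hx hx'
    rw [rootSet, Finset.mem_filter] at hx
    rw [freeSet, Finset.mem_filter] at hx'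
    cases x <;> simp_all [isRoot, isFree]
  constructor
  · intro h
    obtain ⟨G', h1, h2, h3⟩ := enf_mp _ _ _ h
    obtain ⟨D, hD, hDk, hg⟩ := apex_mp (Tr (EE Es)) (girth_Tr _) _ _ hdis _ G' h1 h2 h3
    exact tree_mp hM (EE Es) q D hD hDk hg
  · rintro ⟨a, ha, C, hC, hcov⟩
    obtain ⟨D, hD, hDk, hg⟩ := tree_mpr hM (EE Es) q a ha C hC hcov
    obtain ⟨G', h1, h2, h3⟩ := apex_mpr (Tr (EE Es)) (girth_Tr _) _ _ hdis _ D hD hDk hg
    exact enf_mpr _ _ _ G' h1 h2 h3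

end Pool.Agent.H548E
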