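import Pool.Agent.H548E.Defs

namespace Pool.Agent.H548E

open Pool.Agent.NPC Pool.Agent.NPC.R671 Pool.Agent.CK

theorem cover_of_sat (m : ℕ) (φ : Form) (hφ : Norm m φ) (h : SAT3 φ) :
    ∃ C : Finset (Fin (9 * m)), C.card ≤ 5 * m ∧ IsCover (fun u w => (u, w) ∈ vcEdges m φ) C := by
  classical
  obtain ⟨τ, hτ⟩ := h
  obtain ⟨hm, hlen, hvar⟩ := hφ
  -- the index of a true literal
  have hex : ∀ c : ℕ, ∃ i : ℕ, i < 3 ∧ ∀ x, φ[c]? = some x →
      (i = 0 → τ x.1.2 = x.1.1) ∧ (i = 1 → τ x.2.1.2 = x.2.1.1) ∧ (i = 2 → τ x.2.2.2 = x.2.2.1) := by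
    intro c
    cases hc : φ[c]? with
    | none => exact ⟨0, by omega, by simp⟩
    | some x =>
      have hx : x ∈ φ := List.mem_of_getElem? hc
      rcases hτ x hx with h | h | h
      · refine ⟨0, by omega, fun y hy => ?_⟩
        obtain rfl : x = y := by simpa using hy
        exact ⟨fun _ => h, by omega, by omega⟩
      · refine ⟨1, by omega, fun y hy => ?_⟩
        obtain rfl : x = y := by simpa using hy
        exact ⟨by omega, fun _ => h, by omega⟩
      · refine ⟨2, by omega, fun y hy => ?_⟩
        obtain rfl : x = y := by simpa using hy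
        exact ⟨by omega, by omega, fun _ => h⟩
  choose ic hic3 hic using hex
  set A : Finset ℕ := (Finset.range (3 * m)).image (fun v => 2 * v + (if τ v = true then 0 else 1))
    with hA
  set B : Finset ℕ := (Finset.range m ×ˢ Finset.range 2).image
    (fun p => 6 * m + 3 * p.1 + (ic p.1 + 1 + p.2) % 3) with hB
  have hAB : (A ∪ B).card ≤ 5 * m := by
    refine (Finset.card_union_le _ _).trans ?_
    have h1 : A.card ≤ 3 * m := by
      refine Finset.card_image_le.trans ?_
      simp
    have h2 : B.card ≤ m * 2 := by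
      refine Finset.card_image_le.trans ?_
      simp
    omega
  have hvv : ∀ v, v < 3 * m → 2 * v + (if τ v = true then 0 else 1) ∈ A ∪ B := fun v hv =>
    Finset.mem_union_left _ (Finset.mem_image_of_mem _ (Finset.mem_range.2 hv))
  have hoc : ∀ c j, c < m → j < 3 → j ≠ ic c → 6 * m + 3 * c + j ∈ A ∪ B := by
    intro c j hc hj hjc
    refine Finset.mem_union_right _ (Finset.mem_image.2 ?_)
    have h3 := hic3 c
    by_cases hh : (ic c + 1) % 3 = j
    · exact ⟨(c, 0), by simp [hc], by simp [hh]⟩
    · refine ⟨(c, 1), by simp [hc], ?_⟩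
      have : (ic c + 1 + 1) % 3 = j := by omega
      simp [this]
  refine ⟨Finset.univ.filter (fun u : Fin (9 * m) => (u : ℕ) ∈ A ∪ B), ?_, ?_⟩
  · refine le_trans ?_ hAB
    refine Finset.card_le_card_of_injOn (fun u => (u : ℕ)) ?_ ?_
    · intro u hu
      simpa using hu
    · intro a _ b _ hab
      exact Fin.ext hab
  · intro u w _ hE
    simp only [Finset.mem_filter, Finset.mem_univ, true_and]
    have key : ∀ x y : ℕ, (x, y) ∈ vcEdges m φ → x ∈ A ∪ B ∨ y ∈ A ∪ B := by
      intro x y hxy
      unfold vcEdges at hxy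
      rw [List.mem_append] at hxy
      rcases hxy with hxy | hxy
      · obtain ⟨v, hv, hvxy⟩ := List.mem_map.1 hxy
        rw [List.mem_range] at hv
        have h0 := hvv v hv
        obtain ⟨rfl, rfl⟩ : 2 * v = x ∧ 2 * v + 1 = y := by simpa using hvxy
        by_cases ht : τ v = true
        · left; simpa [ht] using h0
        · right; simpa [ht] using h0
      · obtain ⟨⟨x', c⟩, hc, hmem⟩ := List.mem_flatMap.1 hxy
        rw [List.mem_zipIdx_iff_getElem?] at hc
        simp only at hc
        have hcm : c < m := by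
          rw [← hlen]
          exact (List.getElem?_eq_some_iff.1 hc).1
        have hx' : x' ∈ φ := List.mem_of_getElem? hc
        obtain ⟨v1, v2, v3⟩ := hvar x' hx'
        obtain ⟨i0, i1, i2⟩ := hic c x' hc
        have hi3 := hic3 c
        have hrow : ∀ l : Lit ℕ, l.2 < 3 * m → τ l.2 = l.1 → rowOf l ∈ A ∪ B := by
          intro l hl hlt
          have := hvv l.2 hl
          unfold rowOf
          rw [hlt] at this
          exact this
        simp only [List.mem_cons, Prod.mk.injEq, List.not_mem_nil, or_false] at hmem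
        rcases hmem with ⟨rfl, rfl⟩ | ⟨rfl, rfl⟩ | ⟨rfl, rfl⟩ | ⟨rfl, rfl⟩ | ⟨rfl, rfl⟩ | ⟨rfl, rfl⟩
        · by_cases h0 : ic c = 0
          · right; exact hoc c 1 hcm (by omega) (by omega)
          · left; exact hoc c 0 hcm (by omega) (by omega)
        · by_cases h0 : ic c = 0
          · right; exact hoc c 2 hcm (by omega) (by omega)
          · left; exact hoc c 0 hcm (by omega) (by omega)
        · by_cases h0 : ic c = 1
          · right; exact hoc c 2 hcm (by omega) (by omega)
          · left; exact hoc c 1 hcm (by omega) (by omega)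
        · by_cases h0 : ic c = 0
          · left; exact hrow _ v1 (i0 h0)
          · right; exact hoc c 0 hcm (by omega) (by omega)
        · by_cases h0 : ic c = 1
          · left; exact hrow _ v2 (i1 h0)
          · right; exact hoc c 1 hcm (by omega) (by omega)
        · by_cases h0 : ic c = 2
          · left; exact hrow _ v3 (i2 h0)
          · right; exact hoc c 2 hcm (by omega) (by omega)
    exact key u w hE

end Pool.Agent.H548E
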