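import Pool.Agent.H548E.Defs

/-! T28: a small vertex cover gives a satisfying assignment. -/

namespace Pool.Agent.H548E

open Pool.Agent.NPC Pool.Agent.NPC.R671 Pool.Agent.CK

theorem t28_sum_two (f : ℕ → ℤ) (k : ℕ) :
    ∑ x ∈ Finset.range (2 * k), f x = ∑ v ∈ Finset.range k, (f (2 * v) + f (2 * v + 1)) := by
  induction k with
  | zero => simp
  | succ k ih =>
    rw [Finset.sum_range_succ, ← ih, show 2 * (k + 1) = 2 * k + 1 + 1 by ring,
      Finset.sum_range_succ, Finset.sum_range_succ]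
    ring

theorem t28_sum_three (f : ℕ → ℤ) (k : ℕ) :
    ∑ x ∈ Finset.range (3 * k), f x =
      ∑ v ∈ Finset.range k, (f (3 * v) + f (3 * v + 1) + f (3 * v + 2)) := by
  induction k with
  | zero => simp
  | succ k ih =>
    rw [Finset.sum_range_succ, ← ih, show 3 * (k + 1) = 3 * k + 1 + 1 + 1 by ring,
      Finset.sum_range_succ, Finset.sum_range_succ, Finset.sum_range_succ]
    ring

theorem t28_sum_split (f : ℕ → ℤ) (a b : ℕ) :
    ∑ x ∈ Finset.range (a + b), f x =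
      ∑ x ∈ Finset.range a, f x + ∑ x ∈ Finset.range b, f (a + x) := by
  induction b with
  | zero => simp
  | succ b ih => rw [← add_assoc, Finset.sum_range_succ, ih, Finset.sum_range_succ]; ring

theorem t28_count (m : ℕ) (D : Finset ℕ) (hD : D.card ≤ 5 * m)
    (h1 : ∀ v < 3 * m, 2 * v ∈ D ∨ 2 * v + 1 ∈ D)
    (h2 : ∀ c < m, (6 * m + 3 * c ∈ D ∨ 6 * m + 3 * c + 1 ∈ D) ∧
      (6 * m + 3 * c ∈ D ∨ 6 * m + 3 * c + 2 ∈ D) ∧
      (6 * m + 3 * c + 1 ∈ D ∨ 6 * m + 3 * c + 2 ∈ D)) :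
    (∀ v < 3 * m, ¬ (2 * v ∈ D ∧ 2 * v + 1 ∈ D)) ∧
    (∀ c < m, ¬ (6 * m + 3 * c ∈ D ∧ 6 * m + 3 * c + 1 ∈ D ∧ 6 * m + 3 * c + 2 ∈ D)) := by
  let f : ℕ → ℤ := fun x => if x ∈ D then 1 else 0
  have hf1 : ∀ x, x ∈ D → f x = 1 := fun x hx => if_pos hx
  have hf0 : ∀ x, x ∉ D → f x = 0 := fun x hx => if_neg hx
  have hf : ∀ x, f x = 1 ∨ f x = 0 := fun x => by
    by_cases hx : x ∈ D
    · left; exact hf1 x hx
    · right; exact hf0 x hx
  have hs : ∑ x ∈ Finset.range (6 * m + 3 * m), f x ≤ 5 * m := by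
    have h3 : ∑ x ∈ Finset.range (6 * m + 3 * m), f x
        = ((Finset.range (6 * m + 3 * m) ∩ D).card : ℤ) := by
      rw [← Finset.filter_mem_eq_inter, Finset.card_filter]
      push_cast
      rfl
    rw [h3]
    have h4 : (Finset.range (6 * m + 3 * m) ∩ D).card ≤ D.card :=
      Finset.card_le_card Finset.inter_subset_right
    exact_mod_cast h4.trans hD
  have hs2 : ∑ v ∈ Finset.range (3 * m), (f (2 * v) + f (2 * v + 1) - 1) +
      ∑ c ∈ Finset.range m, (f (6 * m + 3 * c) + f (6 * m + 3 * c + 1) +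
        f (6 * m + 3 * c + 2) - 2) ≤ 0 := by
    rw [t28_sum_split, show 6 * m = 2 * (3 * m) by ring, t28_sum_two,
      t28_sum_three (fun x => f (2 * (3 * m) + x))] at hs
    rw [Finset.sum_sub_distrib, Finset.sum_sub_distrib]
    simp only [Finset.sum_const, Finset.card_range, nsmul_eq_mul]
    have e : ∀ c, 2 * (3 * m) + (3 * c + 1) = 2 * (3 * m) + 3 * c + 1 := fun c => by ring
    have e' : ∀ c, 2 * (3 * m) + (3 * c + 2) = 2 * (3 * m) + 3 * c + 2 := fun c => by ring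
    simp only [e, e'] at hs
    rw [show 6 * m = 2 * (3 * m) by ring]
    push_cast
    linarith
  have hn1 : ∀ v ∈ Finset.range (3 * m), 0 ≤ f (2 * v) + f (2 * v + 1) - 1 := by
    intro v hv
    rw [Finset.mem_range] at hv
    rcases h1 v hv with h | h
    · have := hf1 _ h
      rcases hf (2 * v + 1) with h' | h' <;> omega
    · have := hf1 _ h
      rcases hf (2 * v) with h' | h' <;> omega
  have hn2 : ∀ c ∈ Finset.range m, 0 ≤ f (6 * m + 3 * c) + f (6 * m + 3 * c + 1) +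
        f (6 * m + 3 * c + 2) - 2 := by
    intro c hc
    rw [Finset.mem_range] at hc
    obtain ⟨ha, hb, hd⟩ := h2 c hc
    have e1 := hf (6 * m + 3 * c)
    have e2 := hf (6 * m + 3 * c + 1)
    have e3 := hf (6 * m + 3 * c + 2)
    have g1 : f (6 * m + 3 * c) = 1 ∨ f (6 * m + 3 * c + 1) = 1 := ha.imp (hf1 _) (hf1 _)
    have g2 : f (6 * m + 3 * c) = 1 ∨ f (6 * m + 3 * c + 2) = 1 := hb.imp (hf1 _) (hf1 _)
    have g3 : f (6 * m + 3 * c + 1) = 1 ∨ f (6 * m + 3 * c + 2) = 1 := hd.imp (hf1 _) (hf1 _)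
    omega
  have hp1 := Finset.sum_nonneg hn1
  have hp2 := Finset.sum_nonneg hn2
  constructor
  · rintro v hv ⟨ha, hb⟩
    have h3 := Finset.single_le_sum hn1 (Finset.mem_range.2 hv)
    have e1 := hf1 _ ha
    have e2 := hf1 _ hb
    rw [e1, e2] at h3
    linarith
  · rintro c hc ⟨ha, hb, hd⟩
    have h3 := Finset.single_le_sum hn2 (Finset.mem_range.2 hc)
    have e1 := hf1 _ ha
    have e2 := hf1 _ hb
    have e3 := hf1 _ hd
    rw [e1, e2, e3] at h3
    linarith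

theorem t28_edge1 (m : ℕ) (φ : Form) {v : ℕ} (hv : v < 3 * m) :
    (2 * v, 2 * v + 1) ∈ vcEdges m φ := by
  unfold vcEdges
  rw [List.mem_append]
  left
  rw [List.mem_map]
  exact ⟨v, List.mem_range.2 hv, rfl⟩

theorem t28_edge2 (m : ℕ) (φ : Form) {c : ℕ} {cl : Lit ℕ × Lit ℕ × Lit ℕ}
    (hc : φ[c]? = some cl) (e : ℕ × ℕ)
    (he : e ∈ [(6 * m + 3 * c, 6 * m + 3 * c + 1), (6 * m + 3 * c, 6 * m + 3 * c + 2),
      (6 * m + 3 * c + 1, 6 * m + 3 * c + 2), (rowOf cl.1, 6 * m + 3 * c),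
      (rowOf cl.2.1, 6 * m + 3 * c + 1), (rowOf cl.2.2, 6 * m + 3 * c + 2)]) :
    e ∈ vcEdges m φ := by
  unfold vcEdges
  rw [List.mem_append]
  right
  rw [List.mem_flatMap]
  refine ⟨(cl, c), ?_, he⟩
  rw [List.mem_zipIdx_iff_getElem?]
  exact hc

theorem sat_of_cover (m : ℕ) (φ : Form) (hφ : Norm m φ) (C : Finset (Fin (9 * m)))
    (hC : C.card ≤ 5 * m) (hcov : IsCover (fun u w => (u, w) ∈ vcEdges m φ) C) : SAT3 φ := by
  classical
  obtain ⟨hm, hlen, hvar⟩ := hφ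
  let D : Finset ℕ := C.image (fun x : Fin (9 * m) => (x : ℕ))
  have hD : D.card ≤ 5 * m := Finset.card_image_le.trans hC
  have cov : ∀ u w, u < w → w < 9 * m → (u, w) ∈ vcEdges m φ → u ∈ D ∨ w ∈ D := by
    intro u w h1 h2 h3
    rcases hcov ⟨u, h1.trans h2⟩ ⟨w, h2⟩ h1 h3 with h | h
    · left; exact Finset.mem_image.2 ⟨_, h, rfl⟩
    · right; exact Finset.mem_image.2 ⟨_, h, rfl⟩
  have hcl : ∀ c < m, ∃ cl, φ[c]? = some cl := by
    intro c hc
    rw [← hlen] at hc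
    exact ⟨φ[c], List.getElem?_eq_getElem hc⟩
  obtain ⟨hA, hB⟩ := t28_count m D hD
    (by
      intro v hv
      exact cov _ _ (by omega) (by omega) (t28_edge1 m φ hv))
    (by
      intro c hc
      obtain ⟨cl, hcl⟩ := hcl c hc
      refine ⟨cov _ _ (by omega) (by omega) (t28_edge2 m φ hcl _ (by simp)),
        cov _ _ (by omega) (by omega) (t28_edge2 m φ hcl _ (by simp)),
        cov _ _ (by omega) (by omega) (t28_edge2 m φ hcl _ (by simp))⟩)
  have hlit : ∀ (l : Lit ℕ) (x : ℕ), l.2 < 3 * m → 6 * m ≤ x → x < 9 * m →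
      (rowOf l, x) ∈ vcEdges m φ → x ∉ D → decide (2 * l.2 ∈ D) = l.1 := by
    intro l x hl hx1 hx2 he hx
    obtain ⟨s, v⟩ := l
    have hr : rowOf (s, v) < 6 * m := by
      simp only [rowOf]
      simp only at hl
      split_ifs <;> omega
    have h1 : rowOf (s, v) ∈ D := by
      rcases cov _ _ (by omega) hx2 he with h | h
      · exact h
      · exact absurd h hx
    cases s with
    | true =>
      have h2 : 2 * v ∈ D := by simpa [rowOf] using h1
      simpa using h2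
    | false =>
      have h2 : 2 * v + 1 ∈ D := by simpa [rowOf] using h1
      have h3 : 2 * v ∉ D := fun h => hA v hl ⟨h, h2⟩
      simpa using h3
  refine ⟨fun v => decide (2 * v ∈ D), ?_⟩
  intro cl hcl'
  obtain ⟨c, hc, hcc⟩ := List.getElem_of_mem hcl'
  have hc2 : φ[c]? = some cl := by rw [List.getElem?_eq_getElem hc, hcc]
  have hcm : c < m := by rw [← hlen]; exact hc
  obtain ⟨hv1, hv2, hv3⟩ := hvar cl hcl'
  have hnot := hB c hcm
  by_cases h1 : 6 * m + 3 * c ∈ D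
  · by_cases h2 : 6 * m + 3 * c + 1 ∈ D
    · have h3 : 6 * m + 3 * c + 2 ∉ D := fun h3 => hnot ⟨h1, h2, h3⟩
      right; right
      exact hlit cl.2.2 _ hv3 (by omega) (by omega) (t28_edge2 m φ hc2 _ (by simp)) h3
    · right; left
      exact hlit cl.2.1 _ hv2 (by omega) (by omega) (t28_edge2 m φ hc2 _ (by simp)) h2
  · left
    exact hlit cl.1 _ hv1 (by omega) (by omega) (t28_edge2 m φ hc2 _ (by simp)) h1

end Pool.Agent.H548E
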