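import Pool.Agent.H548E.Defs
import Pool.Agent.H548E.T27
import Pool.Agent.H548E.T28
import Pool.Agent.H548E.T33
import Pool.Agent.H671R2.CK.S10

namespace Pool.Agent.H548E

open Pool.Agent.NPC Pool.Agent.NPC.R671 Pool.Agent.CK

private theorem t34_foldl (fs : List Form) : ∀ a : ℕ, a ≤ fs.foldl (fun a φ => max a φ.length) a ∧
    ∀ φ ∈ fs, φ.length ≤ fs.foldl (fun a φ => max a φ.length) a := by
  induction fs with
  | nil => intro a; simp
  | cons ψ fs ih =>
    intro a
    obtain ⟨h1, h2⟩ := ih (max a ψ.length)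
    refine ⟨(le_max_left _ _).trans h1, ?_⟩
    intro φ hφ
    rcases List.mem_cons.mp hφ with rfl | hφ
    · exact (le_max_right _ _).trans h1
    · exact h2 φ hφ

private theorem t34_max_pos (fs : List Form) : 1 ≤ maxLen fs := (t34_foldl fs 1).1

private theorem t34_max_le (fs : List Form) (φ : Form) (h : φ ∈ fs) : φ.length ≤ maxLen fs :=
  (t34_foldl fs 1).2 φ h

private theorem t34_pow_le (n : ℕ) (hn : n ≠ 0) : 2 ^ n.size ≤ 2 * n := by
  have h1 : 0 < n.size := Nat.size_pos.2 (Nat.pos_of_ne_zero hn)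
  have h2 : n.size - 1 < n.size := by omega
  have h3 : 2 ^ (n.size - 1) ≤ n := Nat.lt_size.1 h2
  have h4 : 2 ^ n.size = 2 * 2 ^ (n.size - 1) := by
    rw [← pow_succ']
    congr 1
    omega
  omega

theorem insG_editable (fs : List Form) (hne : fs ≠ []) (hb : ∀ φ ∈ fs, Bounded3 φ) :
    Editable [⟨4, C4⟩] (insG fs) (insK fs) ↔ ∃ φ ∈ fs, SAT3 φ := by
  have hm := t34_max_pos fs
  have hlen : fs.length ≠ 0 := fun h => hne (List.length_eq_zero_iff.1 h)
  have hnorm : ∀ φ ∈ fs, Norm (maxLen fs) (padTo (maxLen fs) φ) := fun φ hφ =>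
    padTo_norm _ _ (hb φ hφ) hm (t34_max_le fs φ hφ)
  have hK : insK fs = fs.length.size + (2 * (9 * maxLen fs) * (9 * maxLen fs) + 5 * maxLen fs) := by
    unfold insK budget
    ring
  have h := finG_editable fs.length.size (2 * fs.length) (9 * maxLen fs) (5 * maxLen fs)
    (t34_pow_le _ hlen) (edgesOf fs)
  rw [← hK] at h
  unfold insG
  refine h.trans ?_
  have hEl : (edgesOf fs).length = fs.length := by unfold edgesOf; simp
  have hget : ∀ i (hi : i < fs.length), (edgesOf fs).getD i [] =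
      vcEdges (maxLen fs) (padTo (maxLen fs) fs[i]) := by
    intro i hi
    unfold edgesOf
    rw [List.getD_eq_getElem _ _ (by simpa using hi), List.getElem_map]
  constructor
  · rintro ⟨a, -, C, hC, hcov⟩
    have hlt : a % fs.length < fs.length := Nat.mod_lt _ (Nat.pos_of_ne_zero hlen)
    refine ⟨fs[a % fs.length], List.getElem_mem hlt, ?_⟩
    refine (padTo_sat (maxLen fs) _).1 (sat_of_cover _ _ (hnorm _ (List.getElem_mem hlt)) C hC ?_)
    intro u w huw he
    refine hcov u w huw ?_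
    unfold EE
    rw [hEl, hget _ hlt]
    exact he
  · rintro ⟨φ, hφ, hs⟩
    obtain ⟨i, hi, rfl⟩ := List.getElem_of_mem hφ
    obtain ⟨C, hC, hcov⟩ := cover_of_sat _ _ (hnorm _ hφ) ((padTo_sat (maxLen fs) _).2 hs)
    refine ⟨i, lt_trans hi (Nat.lt_size_self _), C, hC, ?_⟩
    intro u w huw he
    refine hcov u w huw ?_
    unfold EE at he
    rw [hEl, Nat.mod_eq_of_lt hi, hget _ hi] at he
    exact he

theorem adjMatrix_insG (fs : List Form) : adjMatrix (insG fs) = insMat fs :=
  adjMatrix_listGraph _ _ (adF_symm _ _) (adF_irrefl _ _)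

end Pool.Agent.H548E
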