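import Pool.Agent.H548E.Defs
import Pool.Agent.H671R2.CK.K13

namespace Pool.Agent.H548E

open Pool.Agent.NPC Pool.Agent.NPC.R671 Pool.Agent.CK

private theorem t36_size : UPoly (fun fs : List Form => fs.length.size) := by
  refine UPoly.of_le (n := fun fs : List Form => fs.length) ?_ (UPoly.length Poly.id) fun fs => ?_
  · exact (Poly.length (Poly.natBits (Poly.length Poly.id))).congr fun fs => by
      rw [Nat.size_eq_bits_len]
  · exact Nat.size_le.2 Nat.lt_two_pow_self

theorem uPoly_insK : UPoly insK := by
  have hm : UPoly (fun fs : List Form => maxLen fs) := upoly_maxLen Poly.id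
  exact UPoly.add t36_size (UPoly.add (UPoly.mul (UPoly.mul (UPoly.const 162) hm) hm)
    (UPoly.mul (UPoly.const 5) hm))

theorem poly_insK : Poly insK := uPoly_insK.toPoly

end Pool.Agent.H548E
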