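import Pool.Agent.H548E.Defs
import Pool.Agent.H671R2.CK.K13

/-! Task T35: the graphs of formulas are computed in polynomial time. -/

namespace Pool.Agent.H548E

open Pool.Agent.NPC Pool.Agent.NPC.R671 Pool.Agent.CK

theorem t35_left {α : Type} [TEnc α] {r : α → List ℕ} (hr : Poly r) :
    Poly (fun a => (r a).map (fun v => (2 * v, 2 * v + 1))) := by
  fun_prop

theorem t35_right {α : Type} [TEnc α] {m : α → ℕ} {φ : α → Form} (hm : Poly m) (hφ : Poly φ) :
    Poly (fun a => (φ a).zipIdx.flatMap fun c =>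
    [(6 * m a + 3 * c.2, 6 * m a + 3 * c.2 + 1), (6 * m a + 3 * c.2, 6 * m a + 3 * c.2 + 2),
      (6 * m a + 3 * c.2 + 1, 6 * m a + 3 * c.2 + 2), (rowOf c.1.1, 6 * m a + 3 * c.2),
      (rowOf c.1.2.1, 6 * m a + 3 * c.2 + 1), (rowOf c.1.2.2, 6 * m a + 3 * c.2 + 2)]) := by
  unfold rowOf
  fun_prop

theorem poly_vcEdges {α : Type} [TEnc α] {m : α → ℕ} {φ : α → Form} (hm : UPoly m)
    (hφ : Poly φ) : Poly (fun a => vcEdges (m a) (φ a)) := by
  have h3 : UPoly (fun a => 3 * m a) := (UPoly.const 3).mul hm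
  have hr : Poly (fun a => List.range (3 * m a)) := h3.range
  exact Poly.append (t35_left hr) (t35_right hm.toPoly hφ)

theorem poly_edgesOf : Poly edgesOf := by
  have hm : UPoly (fun fs : List Form => maxLen fs) := upoly_maxLen Poly.id
  have hm' : UPoly (fun x : List Form × Form => maxLen x.1) :=
    hm.comp (NPC.Poly.fst NPC.Poly.id)
  unfold edgesOf
  refine NPC.Poly.map (F := fun fs φ => vcEdges (maxLen fs) (padTo (maxLen fs) φ)) NPC.Poly.id ?_
  exact poly_vcEdges hm' (poly_padTo hm' (NPC.Poly.snd NPC.Poly.id))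

end Pool.Agent.H548E
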