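import Pool.Agent.H548E.Defs

/-!
# T37: adjacency of codes is polynomial time
-/

set_option autoImplicit false

namespace Pool.Agent.H548E

open Pool.Agent.NPC Pool.Agent.NPC.R671 Pool.Agent.CK

section

variable {α : Type} [TEnc α]

theorem t37_rootL {x : α → Lab} (hx : Poly x) : Poly (fun a => rootL (x a)) := by
  unfold rootL
  fun_prop

theorem t37_freeL {x : α → Lab} (hx : Poly x) : Poly (fun a => freeL (x a)) := by
  unfold freeL
  fun_prop

theorem t37_parL {d : α → ℕ} {Es : α → List (List (ℕ × ℕ))} {x y : α → Lab} (hd : Poly d)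
    (hE : Poly Es) (hx : Poly x) (hy : Poly y) : Poly (fun a => parL (d a) (Es a) (x a) (y a)) := by
  unfold parL
  fun_prop

theorem t37_relM {d : α → ℕ} {Es : α → List (List (ℕ × ℕ))} {p q : α → Option Lab} (hd : Poly d)
    (hE : Poly Es) (hp : Poly p) (hq : Poly q) :
    Poly (fun a => relM (d a) (Es a) (p a) (q a)) := by
  unfold relM
  refine Poly.optElim (γ := Bool) hp ?_ ?_
  · refine Poly.optElim (γ := Bool) hq (NPC.Poly.const false) ?_
    exact Poly.not (t37_rootL (Poly.snd Poly.id))
  · refine Poly.optElim (γ := Bool) (o := fun z : α × Lab => q z.1) (by fun_prop) (NPC.Poly.const false) ?_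
    refine Poly.and ?_ (Poly.or ?_ ?_)
    · have h1 : Poly (fun z : (α × Lab) × Lab => decide (z.1.2 = z.2)) := by fun_prop
      exact (Poly.not h1).congr fun z => by simp
    · exact t37_parL (d := fun z : (α × Lab) × Lab => d z.1.1)
        (Es := fun z : (α × Lab) × Lab => Es z.1.1) (by fun_prop) (by fun_prop) (by fun_prop)
        (by fun_prop)
    · exact t37_parL (d := fun z : (α × Lab) × Lab => d z.1.1)
        (Es := fun z : (α × Lab) × Lab => Es z.1.1) (by fun_prop) (by fun_prop) (by fun_prop)
        (by fun_prop)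

theorem t37_adM {d : α → ℕ} {Es : α → List (List (ℕ × ℕ))} {p q : α → Option Lab} (hd : Poly d)
    (hE : Poly Es) (hp : Poly p) (hq : Poly q) :
    Poly (fun a => adM (d a) (Es a) (p a) (q a)) := by
  unfold adM
  refine Poly.and ?_ (Poly.or (t37_relM hd hE hp hq) (t37_relM hd hE hq hp))
  have h1 : Poly (fun a => decide (p a = q a)) := by fun_prop
  exact (Poly.not h1).congr fun z => by simp

theorem t37_frM {p q : α → Option Lab} (hp : Poly p) (hq : Poly q) :
    Poly (fun a => frM (p a) (q a)) := by
  unfold frM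
  refine Poly.optElim (γ := Bool) hp ?_ ?_
  · refine Poly.optElim (γ := Bool) hq (NPC.Poly.const true) ?_
    exact Poly.not (t37_freeL (Poly.snd Poly.id))
  · refine Poly.optElim (γ := Bool) (o := fun z : α × Lab => q z.1) (by fun_prop) ?_ (NPC.Poly.const true)
    exact Poly.not (t37_freeL (Poly.snd Poly.id))

/-- the cross part of `relF` -/
theorem t37_cross {d : α → ℕ} {Es : α → List (List (ℕ × ℕ))} {a : α → Option Lab}
    {g : α → Option Lab × Option Lab × ℕ × Bool} (hd : Poly d)
    (hE : Poly Es) (ha : Poly a) (hg : Poly g) :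
    Poly (fun z => (frM (g z).1 (g z).2.1 && decide ((g z).1 ≠ (g z).2.1)) &&
        ((adM (d z) (Es z) (g z).1 (g z).2.1 && (decide (a z = (g z).1) || decide (a z = (g z).2.1))) ||
        (!(adM (d z) (Es z) (g z).1 (g z).2.1) && (if (g z).2.2.2 = true then
          decide (a z = (g z).2.1) else decide (a z = (g z).1))))) := by
  have h1 : Poly fun z => (g z).1 := by fun_prop
  have h2 : Poly fun z => (g z).2.1 := by fun_prop
  have h3 : Poly fun z => (g z).2.2.2 := by fun_prop
  have h4 := t37_frM h1 h2
  have h5 := t37_adM hd hE h1 h2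
  have h6 : Poly (fun z => decide ((g z).1 ≠ (g z).2.1)) := by
    have h1 : Poly (fun z => decide ((g z).1 = (g z).2.1)) := by fun_prop
    exact (Poly.not h1).congr fun z => by simp
  have h7 : Poly (fun z => decide (a z = (g z).1)) := by fun_prop
  have h8 : Poly (fun z => decide (a z = (g z).2.1)) := by fun_prop
  have h9 : Poly (fun z => if (g z).2.2.2 = true then
          decide (a z = (g z).2.1) else decide (a z = (g z).1)) :=
    (Poly.cond h3 h8 h7).congr fun z => by cases (g z).2.2.2 <;> simp
  exact Poly.and (Poly.and h4 h6) (Poly.or (Poly.and h5 (Poly.or h7 h8)) (Poly.and (Poly.not h5) h9))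

/-- the gadget part of `relF` -/
theorem t37_gad {d : α → ℕ} {Es : α → List (List (ℕ × ℕ))}
    {g h : α → Option Lab × Option Lab × ℕ × Bool} (hd : Poly d)
    (hE : Poly Es) (hg : Poly g) (hh : Poly h) :
    Poly (fun z => (decide ((g z).1 = (h z).1) && (decide ((g z).2.1 = (h z).2.1) &&
        (decide ((g z).2.2.1 = (h z).2.2.1) &&
        decide ((g z).2.2.2 ≠ (h z).2.2.2)))) && ((frM (g z).1 (g z).2.1 &&
        decide ((g z).1 ≠ (g z).2.1)) &&
        !(adM (d z) (Es z) (g z).1 (g z).2.1))) := by
  have h1 : Poly fun z => (g z).1 := by fun_prop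
  have h2 : Poly fun z => (g z).2.1 := by fun_prop
  have h4 := t37_frM h1 h2
  have h5 := t37_adM hd hE h1 h2
  have h6 : Poly (fun z => decide ((g z).1 ≠ (g z).2.1)) := by
    have h1 : Poly (fun z => decide ((g z).1 = (g z).2.1)) := by fun_prop
    exact (Poly.not h1).congr fun z => by simp
  have h7 : Poly (fun z => decide ((g z).1 = (h z).1)) := by fun_prop
  have h8 : Poly (fun z => decide ((g z).2.1 = (h z).2.1)) := by fun_prop
  have h9 : Poly (fun z => decide ((g z).2.2.1 = (h z).2.2.1)) := by fun_prop
  have h10 : Poly (fun z => decide ((g z).2.2.2 ≠ (h z).2.2.2)) := by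
    have h1 : Poly (fun z => decide ((g z).2.2.2 = (h z).2.2.2)) := by fun_prop
    exact (Poly.not h1).congr fun z => by simp
  exact Poly.and (Poly.and h7 (Poly.and h8 (Poly.and h9 h10)))
    (Poly.and (Poly.and h4 h6) (Poly.not h5))

theorem t37_relF {d : α → ℕ} {Es : α → List (List (ℕ × ℕ))} {x y : α → Lam} (hd : Poly d)
    (hE : Poly Es) (hx : Poly x) (hy : Poly y) :
    Poly (fun a => relF (d a) (Es a) (x a) (y a)) := by
  unfold relF
  refine Poly.sumElim (δ := Bool) hx ?_ ?_
  · refine Poly.sumElim (δ := Bool) (o := fun z : α × Option Lab => y z.1) (by fun_prop) ?_ ?_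
    · exact t37_adM (d := fun z : (α × Option Lab) × Option Lab => d z.1.1)
        (Es := fun z : (α × Option Lab) × Option Lab => Es z.1.1) (by fun_prop) (by fun_prop)
        (by fun_prop) (by fun_prop)
    · exact t37_cross (d := fun z : (α × Option Lab) × (Option Lab × Option Lab × ℕ × Bool) =>
          d z.1.1)
        (Es := fun z : (α × Option Lab) × (Option Lab × Option Lab × ℕ × Bool) => Es z.1.1)
        (a := fun z : (α × Option Lab) × (Option Lab × Option Lab × ℕ × Bool) => z.1.2)
        (g := fun z : (α × Option Lab) × (Option Lab × Option Lab × ℕ × Bool) => z.2)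
        (by fun_prop) (by fun_prop) (by fun_prop) (by fun_prop)
  · refine Poly.sumElim (δ := Bool)
      (o := fun z : α × (Option Lab × Option Lab × ℕ × Bool) => y z.1) (by fun_prop)
      (NPC.Poly.const false) ?_
    exact t37_gad (d := fun z : (α × (Option Lab × Option Lab × ℕ × Bool)) ×
          (Option Lab × Option Lab × ℕ × Bool) => d z.1.1)
        (Es := fun z : (α × (Option Lab × Option Lab × ℕ × Bool)) ×
          (Option Lab × Option Lab × ℕ × Bool) => Es z.1.1)
        (g := fun z : (α × (Option Lab × Option Lab × ℕ × Bool)) ×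
          (Option Lab × Option Lab × ℕ × Bool) => z.1.2)
        (h := fun z : (α × (Option Lab × Option Lab × ℕ × Bool)) ×
          (Option Lab × Option Lab × ℕ × Bool) => z.2)
        (by fun_prop) (by fun_prop) (by fun_prop) (by fun_prop)

end

theorem poly_adF {α : Type} [TEnc α] {d : α → ℕ} {Es : α → List (List (ℕ × ℕ))}
    {x y : α → Lam} (hd : Poly d) (hE : Poly Es) (hx : Poly x) (hy : Poly y) :
    Poly (fun a => adF (d a) (Es a) (x a) (y a)) := by
  unfold adF
  refine Poly.and ?_ (Poly.or (t37_relF hd hE hx hy) (t37_relF hd hE hy hx))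
  have h1 : Poly (fun a => decide (x a = y a)) := by fun_prop
  exact (Poly.not h1).congr fun z => by simp

end Pool.Agent.H548E
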