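import Pool.Agent.H548E.Defs

/-!
# T38: the list of vertices is computable in polynomial time
-/

namespace Pool.Agent.H548E

open Pool.Agent.NPC Pool.Agent.NPC.R671 Pool.Agent.CK

theorem t38_labs {α : Type} [TEnc α] {d M N : α → ℕ} (hd : UPoly d) (hM : UPoly M)
    (hN : UPoly N) : NPC.Poly (fun a => labs (d a) (M a) (N a)) := by
  have h1 : NPC.Poly (fun a => List.range (d a + 1)) := (hd.add (UPoly.const 1)).range
  have h2 : NPC.Poly (fun a => List.range (M a)) := hM.range
  have h3 : NPC.Poly (fun a => List.range (N a)) := hN.range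
  unfold labs
  fun_prop

theorem t38_mains {α : Type} [TEnc α] {d M N : α → ℕ} (hd : UPoly d) (hM : UPoly M)
    (hN : UPoly N) : NPC.Poly (fun a => mains (d a) (M a) (N a)) := by
  have h1 := t38_labs hd hM hN
  unfold mains
  fun_prop

theorem poly_verts {α : Type} [TEnc α] {d M N k : α → ℕ} (hd : UPoly d) (hM : UPoly M)
    (hN : UPoly N) (hk : UPoly k) : Poly (fun a => verts (d a) (M a) (N a) (k a)) := by
  have h1 := t38_mains hd hM hN
  have h2 : NPC.Poly (fun a => List.range (k a + 1)) := (hk.add (UPoly.const 1)).range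
  have h3 : NPC.Poly (fun _ : α => [false, true]) := NPC.Poly.const _
  have h4 : NPC.Poly (fun a => (mains (d a) (M a) (N a)).map
      (Sum.inl : Option Lab → Lam)) := by fun_prop
  have h5 : NPC.Poly (fun a => (mains (d a) (M a) (N a) ×ˢ (mains (d a) (M a) (N a) ×ˢ
      (List.range (k a + 1) ×ˢ [false, true]))).map
      (Sum.inr : (Option Lab × Option Lab × ℕ × Bool) → Lam)) := by fun_prop
  exact NPC.Poly.append h4 h5

end Pool.Agent.H548E
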