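import Pool.Agent.H548E.Defs
import Pool.Agent.H548E.T35
import Pool.Agent.H548E.T36
import Pool.Agent.H548E.T37
import Pool.Agent.H548E.T38

/-!
# T39: the matrix is computable in polynomial time
-/

set_option autoImplicit false

namespace Pool.Agent.H548E

open Pool.Agent.NPC Pool.Agent.NPC.R671 Pool.Agent.CK

private theorem t39_size : UPoly (fun fs : List Form => fs.length.size) := by
  have h : UPoly (fun fs : List Form => fs.length.bits.length) :=
    UPoly.length (Poly.natBits (Poly.length Poly.id))
  refine Poly.congr h ?_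
  intro fs
  show List.replicate fs.length.bits.length () = List.replicate fs.length.size ()
  rw [Nat.size_eq_bits_len]

private theorem t39_finMat {α : Type} [TEnc α] {d M N k : α → ℕ} {Es : α → List (List (ℕ × ℕ))}
    (hd : UPoly d) (hM : UPoly M) (hN : UPoly N) (hk : UPoly k) (hE : Poly Es) :
    Poly (fun a => finMat (d a) (M a) (N a) (k a) (Es a)) := by
  have hv := poly_verts hd hM hN hk
  unfold finMat
  refine NPC.Poly.map hv ?_
  refine NPC.Poly.map (hv.comp (Poly.fst Poly.id)) ?_
  refine poly_adF ?_ ?_ ?_ ?_
  · exact (hd.toPoly.comp (Poly.fst (Poly.fst Poly.id)))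
  · exact (hE.comp (Poly.fst (Poly.fst Poly.id)))
  · exact Poly.snd (Poly.fst Poly.id)
  · exact Poly.snd Poly.id

theorem poly_insMat : Poly insMat := by
  have h1 := t39_finMat t39_size (UPoly.mul (UPoly.const 2) (UPoly.length Poly.id))
    (UPoly.mul (UPoly.const 9) (upoly_maxLen Poly.id)) uPoly_insK poly_edgesOf
  exact h1

end Pool.Agent.H548E
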