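import Pool.Agent.H548E.Defs

namespace Pool.Agent.H548E

open Pool.Agent.NPC Pool.Agent.NPC.R671 Pool.Agent.CK

private theorem t40_foldl (fs : List Form) (m a : ℕ) (h : ∀ φ ∈ fs, φ.length ≤ m)
    (ha : a ≤ m + 1) : fs.foldl (fun a φ => max a φ.length) a ≤ m + 1 := by
  induction fs generalizing a with
  | nil => simpa using ha
  | cons φ fs ih =>
    rw [List.foldl_cons]
    refine ih _ (fun ψ hψ => h ψ (List.mem_cons_of_mem _ hψ)) ?_
    have h1 := h φ List.mem_cons_self
    exact max_le ha (by omega)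

private theorem t40_maxLen (fs : List Form) (m : ℕ) (h : ∀ φ ∈ fs, φ.length ≤ m) :
    maxLen fs ≤ m + 1 := t40_foldl fs m 1 h (by omega)

theorem insK_bound : ∃ q : Polynomial ℕ, ∀ (fs : List Form) (m : ℕ), (∀ φ ∈ fs, φ.length ≤ m) →
    insK fs ≤ q.eval (m + fs.length.size) := by
  refine ⟨Polynomial.X + (Polynomial.C 162 * (Polynomial.X + 1) * (Polynomial.X + 1) +
    Polynomial.C 5 * (Polynomial.X + 1)), fun fs m h => ?_⟩
  have h1 := t40_maxLen fs m h
  have h2 : maxLen fs ≤ m + fs.length.size + 1 := by omega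
  simp only [Polynomial.eval_add, Polynomial.eval_mul, Polynomial.eval_C, Polynomial.eval_X,
    Polynomial.eval_one]
  unfold insK budget
  gcongr
  omega

end Pool.Agent.H548E
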