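import Pool.Agent.H548E.Defs

namespace Pool.Agent.H548E

open Pool.Agent.NPC Pool.Agent.NPC.R671 Pool.Agent.CK

theorem t41_len {n : ℕ} (G : SimpleGraph (Fin n)) : (adjMatrix G).length = n := by
  unfold adjMatrix
  simp

theorem t41_row {n : ℕ} (G : SimpleGraph (Fin n)) (r : List Bool) (h : r ∈ adjMatrix G) :
    r.length = n := by
  unfold adjMatrix at h
  simp only [List.mem_ofFn] at h
  obtain ⟨i, rfl⟩ := h
  simp

theorem t41_sz (k : ℕ) : sz k ≤ 4 * k + 1 := by
  have h1 := sz_nat_le k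
  have h2 : k.size ≤ k := Nat.size_le.2 Nat.lt_two_pow_self
  omega

theorem t41_inj {n n' : ℕ} {G : SimpleGraph (Fin n)} {G' : SimpleGraph (Fin n')} {k k' : ℕ}
    (F : Family) (h : code G k = code G' k') (j : ℕ) :
    k = k' ∧ (Editable F G j ↔ Editable F G' j) := by
  have h1 := bits_injective h
  have h2 : adjMatrix G = adjMatrix G' := congrArg Prod.fst h1
  have h3 : k = k' := congrArg Prod.snd h1
  have h4 : n = n' := by rw [← t41_len G, ← t41_len G', h2]
  subst h4
  rw [adjMatrix_inj h2]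
  exact ⟨h3, Iff.rfl⟩

theorem code_length : ∃ q : Polynomial ℕ, ∀ (n : ℕ) (G : SimpleGraph (Fin n)) (k : ℕ),
    (code G k).length ≤ q.eval (n + k) := by
  refine ⟨Polynomial.X * (4 * Polynomial.X + 2) + 1 + (4 * Polynomial.X + 1) + 1,
    fun n G k => ?_⟩
  unfold code
  rw [bits_length, sz_pair]
  simp only [Polynomial.eval_add, Polynomial.eval_mul, Polynomial.eval_X, Polynomial.eval_ofNat,
    Polynomial.eval_one]
  have h1 : sz (adjMatrix G) ≤ (adjMatrix G).length * ((4 * n + 1) + 1) + 1 := by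
    refine sz_le_length_mul _ _ fun r hr => ?_
    have h2 := sz_le_length_mul r 3 (fun b _ => sz_bool_le b)
    rw [t41_row G r hr] at h2
    omega
  rw [t41_len] at h1
  have h3 := t41_sz k
  have h4 : n * ((4 * n + 1) + 1) ≤ (n + k) * (4 * (n + k) + 2) :=
    Nat.mul_le_mul (by omega) (by omega)
  omega

theorem compression_of_kernel (F : Family) (h : HasPolyKernel F) : HasPolyCompression F := by
  obtain ⟨K, p, hK, h⟩ := h
  obtain ⟨q, hq⟩ := code_length
  refine ⟨K, {x | ∃ (n : ℕ) (G : SimpleGraph (Fin n)) (k : ℕ), x = code G k ∧ Editable F G k},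
    q.comp (2 * p), hK, fun n G k => ?_⟩
  obtain ⟨n', G', k', h1, h2, h3, h4⟩ := h n G k
  constructor
  · rw [h2, h1]
    constructor
    · intro h5
      exact ⟨n', G', k', rfl, h5⟩
    · rintro ⟨n'', G'', k'', h5, h6⟩
      obtain ⟨h7, h8⟩ := t41_inj F h5 k'
      rw [h8, h7]
      exact h6
  · rw [h1]
    refine (hq n' G' k').trans ?_
    rw [Polynomial.eval_comp]
    refine eval_mono q ?_
    simp only [Polynomial.eval_mul, Polynomial.eval_ofNat]
    omega

end Pool.Agent.H548E
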