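import Pool.Agent.H548E.Defs
import Pool.Agent.H548E.T03
import Pool.Agent.H548E.T04
import Pool.Agent.H622R2.CoNP

namespace Pool.Agent.H548E

open Pool.Agent.NPC Pool.Agent.NPC.R671 Pool.Agent.CK

theorem t42_poly_bits {α β : Type} [TEnc α] [TEnc β] {f : α → β} (hf : Poly f) :
    Poly (fun a => bits (f a)) :=
  PC.comp (g := fun x : List Bool => x) (f := fun a => bits (f a)) PC.rawIn hf

/-- A polynomial compression for `2K_2` gives one for `C_4`. -/
theorem compression_compl (h : HasPolyCompression [⟨4, TwoK2⟩]) :
    HasPolyCompression [⟨4, C4⟩] := by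
  obtain ⟨K, L, p, hK, hKL⟩ := h
  have hP : Poly (fun x : List Bool => match unbits (List (List Bool) × ℕ) x with
      | none => ([] : List Bool)
      | some b => K (bits (compMat b.1, b.2))) := by
    have h1 : Poly (fun q : List Bool × (List (List Bool) × ℕ) =>
        K (bits (compMat q.2.1, q.2.2))) := by
      have h2 : Poly (fun q : List Bool × (List (List Bool) × ℕ) => (compMat q.2.1, q.2.2)) :=
        Poly.pair (poly_compMat.comp (Poly.fst (Poly.snd Poly.id)))
          (Poly.snd (Poly.snd Poly.id))
      exact (H622R2.poly_of_polyTime hK).comp (t42_poly_bits h2)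
    refine (Poly.optCases (o := fun x : List Bool => unbits (List (List Bool) × ℕ) x)
      (g := fun _ => ([] : List Bool))
      (h := fun _ b => K (bits (compMat b.1, b.2))) poly_unbits (NPC.Poly.const _) h1).congr
      fun a => ?_
    cases unbits (List (List Bool) × ℕ) a <;> rfl
  refine ⟨_, L, p, H622R2.polyTime_of_poly_list hP, fun n G k => ?_⟩
  have e1 : (match unbits (List (List Bool) × ℕ) (code G k) with
      | none => ([] : List Bool)
      | some b => K (bits (compMat b.1, b.2))) = K (code Gᶜ k) := by
    unfold code
    rw [unbits_bits, adjMatrix_compl]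
  have h2 := hKL n Gᶜ k
  have h3 := editable_compl Gᶜ k
  rw [compl_compl] at h3
  constructor
  · rw [← h3]
    show _ ↔ (match unbits (List (List Bool) × ℕ) (code G k) with
      | none => ([] : List Bool)
      | some b => K (bits (compMat b.1, b.2))) ∈ L
    rw [e1]
    exact h2.1
  · show (match unbits (List (List Bool) × ℕ) (code G k) with
      | none => ([] : List Bool)
      | some b => K (bits (compMat b.1, b.2))).length ≤ _
    rw [e1]
    exact h2.2

end Pool.Agent.H548E
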