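import Pool.Agent.H548E.T01
import Pool.Agent.H548E.T03
import Pool.Agent.H548E.T04
import Pool.Agent.H548E.T17
import Pool.Agent.H548E.T18
import Pool.Agent.H548E.T19
import Pool.Agent.H548E.T33
import Pool.Agent.H548E.T34
import Pool.Agent.H548E.T36
import Pool.Agent.H548E.T39
import Pool.Agent.H548E.T40
import Pool.Agent.H548E.T41
import Pool.Agent.H548E.T42
import Pool.Agent.H671R2.CK.K3
import Pool.Agent.H622R2.CoNP
import Pool.Agent.H671R2.Search

/-! # Assembly -/

namespace Pool.Agent.H548E

open Pool.Agent.NPC Pool.Agent.NPC.R671 Pool.Agent.CK Pool.Agent.H622R2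

theorem eval_mono' (p : Polynomial ℕ) {a b : ℕ} (h : a ≤ b) : p.eval a ≤ p.eval b := by
  rw [Polynomial.eval_eq_sum, Polynomial.eval_eq_sum]
  exact Finset.sum_le_sum fun i _ => Nat.mul_le_mul_left _ (Nat.pow_le_pow_left h i)

/-- the output for the instance of a list of strings -/
def comp (K : List Bool → List Bool) (red : List Bool → Form) (xs : List (List Bool)) :
    List Bool :=
  K (bits (insMat (xs.map red), insK (xs.map red)))

theorem poly_comp {K : List Bool → List Bool} {red : List Bool → Form} (hK : PolyTime K)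
    (hred : Poly red) : Poly (comp K red) := by
  have h1 : Poly (fun xs : List (List Bool) => xs.map red) :=
    NPC.Poly.map (F := fun _ x => red x) NPC.Poly.id (hred.comp (NPC.Poly.snd NPC.Poly.id))
  have h2 : Poly (fun xs : List (List Bool) => (insMat (xs.map red), insK (xs.map red))) :=
    Poly.pair (poly_insMat.comp h1) (poly_insK.comp h1)
  have h3 : Poly (fun xs : List (List Bool) => bits (insMat (xs.map red), insK (xs.map red))) :=
    poly_bits.comp h2
  exact (poly_of_polyTime hK).comp h3

theorem coNP_of_compression (h : HasPolyCompression [⟨4, C4⟩]) : CoNPSubsetNPPoly := by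
  obtain ⟨K, A, g, hK, hker⟩ := h
  intro L hL
  obtain ⟨red, hred, hpr, hL'⟩ := hardPr_SAT3b Lᶜ hL
  have hredP : Poly red := PC.comp (g := red) (f := fun x => x) hred rawOut
  obtain ⟨p, hp⟩ := hredP.sz_le
  obtain ⟨q1, hq1⟩ := insK_bound
  have key : ∀ xs : List (List Bool), xs ≠ [] → ((comp K red xs ∈ A) ↔ ∃ x ∈ xs, x ∉ L) ∧
      (comp K red xs).length ≤ g.eval (insK (xs.map red)) := by
    intro xs hne
    have hb : ∀ φ ∈ xs.map red, Bounded3 φ := by
      intro φ hφ
      obtain ⟨x, -, rfl⟩ := List.mem_map.1 hφ
      exact (hpr x).2.1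
    have h0 : code (insG (xs.map red)) (insK (xs.map red)) =
        bits (insMat (xs.map red), insK (xs.map red)) := by
      unfold code
      rw [adjMatrix_insG]
    have h1 := insG_editable (xs.map red) (by simpa using hne) hb
    have h2 := hker _ (insG (xs.map red)) (insK (xs.map red))
    rw [h0] at h2
    refine ⟨?_, h2.2⟩
    unfold comp
    rw [← h2.1, h1]
    constructor
    · rintro ⟨φ, hφ, hs⟩
      obtain ⟨x, hx, rfl⟩ := List.mem_map.1 hφ
      exact ⟨x, hx, (hL' x).2 hs⟩
    · rintro ⟨x, hx, hxL⟩
      exact ⟨red x, List.mem_map_of_mem hx, (hL' x).1 hxL⟩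
  refine fs L (comp K red) (poly_comp hK hredP) (fun y => y ∈ A)
    (Polynomial.C 4 * (g.comp (q1.comp (p.comp (Polynomial.C 4 * Polynomial.X + 1) +
      Polynomial.X))) + 1) ?_ ?_
  · intro n xs hne hn
    obtain ⟨-, h1⟩ := key xs hne
    have hlen : ∀ φ ∈ xs.map red, φ.length ≤ p.eval (4 * n + 1) := by
      intro φ hφ
      obtain ⟨x, hx, rfl⟩ := List.mem_map.1 hφ
      have e1 := length_lt_sz (red x)
      have e2 := hp x
      have e3 := sz_listBool_le x
      rw [hn x hx] at e3
      have e4 := eval_mono' p e3
      omega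
    have h5 := hq1 (xs.map red) _ hlen
    rw [List.length_map] at h5
    have h6 := sz_listBool_le (comp K red xs)
    simp only [Polynomial.eval_add, Polynomial.eval_comp, Polynomial.eval_mul, Polynomial.eval_C,
      Polynomial.eval_X, Polynomial.eval_one]
    have e5 : p.eval (4 * n + 1) ≤ p.eval (4 * (n + xs.length.size) + 1) :=
      eval_mono' p (by omega)
    have e6 : g.eval (insK (xs.map red)) ≤ g.eval (q1.eval (p.eval (4 * (n + xs.length.size) + 1) +
        (n + xs.length.size))) :=
      eval_mono' g (h5.trans (eval_mono' q1 (by omega)))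
    omega
  · intro n xs hne _
    exact (key xs hne).1

/-- `{C_4, 2K_2}`-free edge editing is solvable in polynomial time. -/
theorem polyTime_both : ∃ V : List Bool → List Bool, PolyTime V ∧
    ∀ (n : ℕ) (G : SimpleGraph (Fin n)) (k : ℕ),
      V (code G k) = [true] ↔ Editable [⟨4, C4⟩, ⟨4, TwoK2⟩] G k := by
  have hP : Poly (fun x : List Bool => match unbits (List (List Bool) × ℕ) x with
      | none => [false]
      | some p => [decE p]) := by
    refine (Poly.optCases (o := fun x : List Bool => unbits (List (List Bool) × ℕ) x)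
      (g := fun _ => [false]) (h := fun (_ : List Bool) p => [decE p]) poly_unbits
      (NPC.Poly.const _) (Poly.cons (poly_decE.comp (Poly.snd Poly.id))
        (NPC.Poly.const []))).congr fun x => ?_
    cases unbits (List (List Bool) × ℕ) x <;> rfl
  refine ⟨_, polyTime_of_poly_list hP, fun n G k => ?_⟩
  rw [← decE_iff]
  unfold code
  simp only [unbits_bits, List.cons.injEq, and_true]

end Pool.Agent.H548E
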