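import Pool.Agent.H548E.Defs

/-! Statements of all tasks (in the namespace `Pool.Agent.H548E.Stub`). Not used in the final
proof. -/

namespace Pool.Agent.H548E.Stub

open Pool.Agent.NPC Pool.Agent.NPC.R671 Pool.Agent.CK Pool.Agent.H548E

/-! ### A: elementary forms -/

/-- A1 -/
theorem freeOf_C4 {V : Type} (G : SimpleGraph V) : FreeOf [⟨4, C4⟩] G ↔ NoC4 G := sorry

/-- A2 -/
theorem freeOf_TwoK2 {V : Type} (G : SimpleGraph V) : FreeOf [⟨4, TwoK2⟩] G ↔ No2K2 G := sorry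

/-- A3 -/
theorem noC4_compl {V : Type} (G : SimpleGraph V) : NoC4 Gᶜ ↔ No2K2 G := sorry

/-- A4 -/
theorem editable_iso (F : Family) {V V' : Type} {G : SimpleGraph V} {G' : SimpleGraph V'}
    (e : G ≃g G') (k : ℕ) : Editable F G k ↔ Editable F G' k := sorry

/-- A5 -/
theorem editable_compl {V : Type} (G : SimpleGraph V) (k : ℕ) :
    Editable [⟨4, TwoK2⟩] G k ↔ Editable [⟨4, C4⟩] Gᶜ k := sorry

/-- A6 -/
theorem adjMatrix_compl {n : ℕ} (G : SimpleGraph (Fin n)) :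
    adjMatrix Gᶜ = compMat (adjMatrix G) := sorry

/-- A7 -/
theorem poly_compMat : Poly compMat := sorry

/-! ### B: pseudo-split graphs -/

/-- B1: Földes and Hammer -/
theorem split_of_free {V : Type} [Fintype V] [DecidableEq V] (G : SimpleGraph V) (h1 : NoC4 G)
    (h2 : No2K2 G) (h5 : ∀ c, ¬ IsC5 G c) :
    ∃ K : Finset V, (∀ a ∈ K, ∀ b ∈ K, a ≠ b → G.Adj a b) ∧ ∀ a, a ∉ K → ∀ b, b ∉ K → ¬ G.Adj a b :=
  sorry

/-- B2 -/
theorem structure_of_C5 {V : Type} (G : SimpleGraph V) (h1 : NoC4 G)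
    (h2 : No2K2 G) (c : Fin 5 → V) (hc : IsC5 G c) :
    ∃ K : Set V, (∀ i, c i ∉ K) ∧ (∀ a ∈ K, ∀ b ∈ K, a ≠ b → G.Adj a b) ∧
      (∀ a ∈ K, ∀ i, G.Adj a (c i)) ∧
      ∀ a, a ∉ K → (∀ i, a ≠ c i) → (∀ i, ¬ G.Adj a (c i)) ∧
        ∀ b, b ∉ K → (∀ i, b ≠ c i) → ¬ G.Adj a b := sorry

/-- B3 -/
theorem fits_of_free {V : Type} [Fintype V] [DecidableEq V] (G : SimpleGraph V) (h1 : NoC4 G)
    (h2 : No2K2 G) : ∃ lab : V → ℕ, ValidLab lab ∧ Fits G lab := sorry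

/-- B4 -/
theorem noC4_of_fits {V : Type} (G : SimpleGraph V) (lab : V → ℕ) (hl : ValidLab lab)
    (hf : Fits G lab) : NoC4 G := sorry

/-- B5 -/
theorem no2K2_of_fits {V : Type} (G : SimpleGraph V) (lab : V → ℕ) (hl : ValidLab lab)
    (hf : Fits G lab) : No2K2 G := sorry

/-- B6 -/
theorem cost_le_of_fits (n : ℕ) (G G' : SimpleGraph (Fin n)) (g : ℕ → ℕ → Bool)
    (hg : ∀ i j : Fin n, g i j = true ↔ G.Adj i j) (lab : ℕ → ℕ)
    (hf : Fits G' (fun i : Fin n => lab i)) :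
    cost n g lab ≤ (symmDiff G.edgeSet G'.edgeSet).ncard := sorry

/-- B7 -/
theorem exists_fits_of_cost (n : ℕ) (G : SimpleGraph (Fin n)) (g : ℕ → ℕ → Bool)
    (hg : ∀ i j : Fin n, g i j = true ↔ G.Adj i j) (lab : ℕ → ℕ) (hl : ∀ i < n, lab i ≤ 6) :
    ∃ G' : SimpleGraph (Fin n), Fits G' (fun i : Fin n => lab i) ∧
      (symmDiff G.edgeSet G'.edgeSet).ncard ≤ cost n g lab := sorry

/-- B8: the number of wrong pairs, as a function of the clique -/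
theorem cost_labOf (n : ℕ) (g : ℕ → ℕ → Bool) (hs : ∀ i j, g i j = g j i)
    (hi : ∀ i, g i i = false) (cs : List ℕ) (hcs : cs = [] ∨ cs.length = 5) (hnd : cs.Nodup)
    (hlt : ∀ c ∈ cs, c < n) (K : Finset ℕ) (hK : ∀ v ∈ K, v < n ∧ v ∉ cs) :
    (cost n g (labOf cs fun v => decide (v ∈ K)) : ℤ) = cost n g (labOf cs fun _ => false) +
      (K.card.choose 2 : ℤ) + cs.length * K.card - ∑ v ∈ K, (score n g cs v : ℤ) := sorry

/-- B9: prefixes are optimal -/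
theorem exists_prefix (S : Finset ℕ) (s : ℕ → ℕ) (K : Finset ℕ) (hK : K ⊆ S) :
    ∃ K' : Finset ℕ, K' ⊆ S ∧ K'.card = K.card ∧ ∑ v ∈ K, s v ≤ ∑ v ∈ K', s v ∧
      (K' = ∅ ∨ ∃ u ∈ S, K' = S.filter fun v => s u < s v ∨ (s u = s v ∧ v ≤ u)) := sorry

/-- B10 -/
theorem mem_cands (n : ℕ) (cs : List ℕ) :
    cs ∈ cands n ↔ (cs = [] ∨ cs.length = 5) ∧ cs.Nodup ∧ ∀ c ∈ cs, c < n := sorry

/-- B11 -/
theorem exists_labOf (n : ℕ) (lab : ℕ → ℕ) (hl : ValidLabN n lab) :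
    ∃ cs ∈ cands n, ∃ K : Finset ℕ, (∀ v ∈ K, v < n ∧ v ∉ cs) ∧
      ∀ v < n, lab v = labOf cs (fun v => decide (v ∈ K)) v := sorry

/-- B12 -/
theorem validLabN_labOf (n : ℕ) (cs : List ℕ) (hcs : cs ∈ cands n) (K : ℕ → Bool) :
    ValidLabN n (labOf cs K) := sorry

/-- B13 -/
theorem cost_congr (n : ℕ) (g : ℕ → ℕ → Bool) (lab lab' : ℕ → ℕ) (h : ∀ v < n, lab v = lab' v) :
    cost n g lab = cost n g lab' := sorry

/-- B14 -/
theorem poly_decE : Poly decE := sorry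

/-- B15: the algorithm is correct -/
theorem decE_iff (n : ℕ) (G : SimpleGraph (Fin n)) (k : ℕ) :
    decE (adjMatrix G, k) = true ↔ Editable [⟨4, C4⟩, ⟨4, TwoK2⟩] G k := sorry

/-- B16 -/
theorem hasPolyKernel_both : HasPolyKernel [⟨4, C4⟩, ⟨4, TwoK2⟩] := sorry

/-! ### C: hardness -/

/-- C1 -/
theorem enf_mp {V : Type} [Fintype V] [DecidableEq V] (G : SimpleGraph V) (Fr : V → V → Prop)
    (k : ℕ) (h : Editable [⟨4, C4⟩] (enf G Fr k) k) :
    ∃ G' : SimpleGraph V, NoC4 G' ∧ (symmDiff G.edgeSet G'.edgeSet).ncard ≤ k ∧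
      ∀ p q, p ≠ q → Fr p q → (G.Adj p q ↔ G'.Adj p q) := sorry

/-- C2 -/
theorem enf_mpr {V : Type} [Fintype V] [DecidableEq V] (G : SimpleGraph V) (Fr : V → V → Prop)
    (k : ℕ) (G' : SimpleGraph V) (h1 : NoC4 G') (h2 : (symmDiff G.edgeSet G'.edgeSet).ncard ≤ k)
    (h3 : ∀ p q, p ≠ q → Fr p q → (G.Adj p q ↔ G'.Adj p q)) :
    Editable [⟨4, C4⟩] (enf G Fr k) k := sorry

/-- C3 -/
theorem apex_mp {W : Type} [Fintype W] [DecidableEq W] (T : SimpleGraph W) (hT : Girth5 T)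
    (R F : Finset W) (hRF : Disjoint R F) (k : ℕ) (G' : SimpleGraph (Option W)) (h1 : NoC4 G')
    (h2 : (symmDiff (apexG T R).edgeSet G'.edgeSet).ncard ≤ k)
    (h3 : ∀ p q, p ≠ q → apexFr F p q → ((apexG T R).Adj p q ↔ G'.Adj p q)) :
    ∃ D : Finset W, D ⊆ F ∧ D.card ≤ k ∧ Good T (↑(R ∪ D) : Set W) := sorry

/-- C4 -/
theorem apex_mpr {W : Type} [Fintype W] [DecidableEq W] (T : SimpleGraph W) (hT : Girth5 T)
    (R F : Finset W) (hRF : Disjoint R F) (k : ℕ) (D : Finset W) (hD : D ⊆ F) (hk : D.card ≤ k)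
    (hg : Good T (↑(R ∪ D) : Set W)) :
    ∃ G' : SimpleGraph (Option W), NoC4 G' ∧
      (symmDiff (apexG T R).edgeSet G'.edgeSet).ncard ≤ k ∧
      ∀ p q, p ≠ q → apexFr F p q → ((apexG T R).Adj p q ↔ G'.Adj p q) := sorry

/-- C5 -/
theorem girth_Tr {d M N : ℕ} (E : ℕ → ℕ → ℕ → Prop) : Girth5 (Tr E : SimpleGraph (W d M N)) :=
  sorry

/-- C6 -/
theorem tree_mp {d M N : ℕ} (hM : 2 ^ d ≤ M) (E : ℕ → ℕ → ℕ → Prop) (q : ℕ)
    (D : Finset (W d M N)) (hD : D ⊆ freeSet d M N) (hk : D.card ≤ d + (2 * N * N + q))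
    (hg : Good (Tr E) (↑(rootSet d M N ∪ D) : Set (W d M N))) :
    ∃ a < 2 ^ d, ∃ C : Finset (Fin N), C.card ≤ q ∧ IsCover (E a) C := sorry

/-- C7 -/
theorem tree_mpr {d M N : ℕ} (hM : 2 ^ d ≤ M) (E : ℕ → ℕ → ℕ → Prop) (q : ℕ) (a : ℕ)
    (ha : a < 2 ^ d) (C : Finset (Fin N)) (hC : C.card ≤ q) (hcov : IsCover (E a) C) :
    ∃ D : Finset (W d M N), D ⊆ freeSet d M N ∧ D.card ≤ d + (2 * N * N + q) ∧
      Good (Tr E) (↑(rootSet d M N ∪ D) : Set (W d M N)) := sorry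

/-- C8 -/
theorem cover_of_sat (m : ℕ) (φ : Form) (hφ : Norm m φ) (h : SAT3 φ) :
    ∃ C : Finset (Fin (9 * m)), C.card ≤ 5 * m ∧ IsCover (fun u w => (u, w) ∈ vcEdges m φ) C :=
  sorry

/-- C9 -/
theorem sat_of_cover (m : ℕ) (φ : Form) (hφ : Norm m φ) (C : Finset (Fin (9 * m)))
    (hC : C.card ≤ 5 * m) (hcov : IsCover (fun u w => (u, w) ∈ vcEdges m φ) C) : SAT3 φ := sorry

/-- C10 -/
theorem verts_nodup (d M N k : ℕ) : (verts d M N k).Nodup := sorry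

/-- C11 -/
theorem mem_verts (d M N k : ℕ) (x : Lam) :
    x ∈ verts d M N k ↔ ∃ y : Option (W d M N) ⊕
      (Option (W d M N) × Option (W d M N) × Fin (k + 1) × Bool), labF y = x := sorry

/-- C12 -/
theorem labF_injective {d M N k : ℕ} : Function.Injective (labF (d := d) (M := M) (N := N)
    (k := k)) := sorry

/-- C13 -/
theorem adM_lab {d M N : ℕ} (Es : List (List (ℕ × ℕ))) (p q : Option (W d M N)) :
    adM d Es (p.map lab) (q.map lab) = true ↔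
      (apexG (Tr (EE Es)) (rootSet d M N)).Adj p q := sorry

/-- C14 -/
theorem frM_lab {d M N : ℕ} (p q : Option (W d M N)) :
    frM (p.map lab) (q.map lab) = true ↔ apexFr (freeSet d M N) p q := sorry

/-- C15 -/
theorem adF_lab {d M N k : ℕ} (Es : List (List (ℕ × ℕ)))
    (x y : Option (W d M N) ⊕ (Option (W d M N) × Option (W d M N) × Fin (k + 1) × Bool)) :
    adF d Es (labF x) (labF y) = true ↔
      (enf (apexG (Tr (EE Es)) (rootSet d M N)) (apexFr (freeSet d M N)) k).Adj x y := sorry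

/-- C16 -/
theorem finG_iso (d M N k : ℕ) (Es : List (List (ℕ × ℕ))) :
    Nonempty (finG d M N k Es ≃g
      enf (apexG (Tr (EE Es)) (rootSet d M N)) (apexFr (freeSet d M N)) k) := sorry

/-- C17 -/
theorem finG_editable (d M N q : ℕ) (hM : 2 ^ d ≤ M) (Es : List (List (ℕ × ℕ))) :
    Editable [⟨4, C4⟩] (finG d M N (d + (2 * N * N + q)) Es) (d + (2 * N * N + q)) ↔
      ∃ a < 2 ^ d, ∃ C : Finset (Fin N), C.card ≤ q ∧ IsCover (EE Es a) C := sorry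

/-- C18 -/
theorem insG_editable (fs : List Form) (hne : fs ≠ []) (hb : ∀ φ ∈ fs, Bounded3 φ) :
    Editable [⟨4, C4⟩] (insG fs) (insK fs) ↔ ∃ φ ∈ fs, SAT3 φ := sorry

/-- C19 -/
theorem adjMatrix_insG (fs : List Form) : adjMatrix (insG fs) = insMat fs := sorry

/-- C20 -/
theorem poly_vcEdges {α : Type} [TEnc α] {m : α → ℕ} {φ : α → Form} (hm : UPoly m)
    (hφ : Poly φ) : Poly (fun a => vcEdges (m a) (φ a)) := sorry

/-- C21 -/
theorem poly_edgesOf : Poly edgesOf := sorry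

/-- C22 -/
theorem poly_insK : Poly insK := sorry

/-- C23 -/
theorem uPoly_insK : UPoly insK := sorry

/-- C24 -/
theorem poly_adF {α : Type} [TEnc α] {d : α → ℕ} {Es : α → List (List (ℕ × ℕ))}
    {x y : α → Lam} (hd : Poly d) (hE : Poly Es) (hx : Poly x) (hy : Poly y) :
    Poly (fun a => adF (d a) (Es a) (x a) (y a)) := sorry

/-- C25 -/
theorem poly_verts {α : Type} [TEnc α] {d M N k : α → ℕ} (hd : UPoly d) (hM : UPoly M)
    (hN : UPoly N) (hk : UPoly k) : Poly (fun a => verts (d a) (M a) (N a) (k a)) := sorry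

/-- C26 -/
theorem poly_insMat : Poly insMat := sorry

/-- C27 -/
theorem insK_bound : ∃ q : Polynomial ℕ, ∀ (fs : List Form) (m : ℕ), (∀ φ ∈ fs, φ.length ≤ m) →
    insK fs ≤ q.eval (m + fs.length.size) := sorry

/-- C28: the length of the code of an instance -/
theorem code_length : ∃ q : Polynomial ℕ, ∀ (n : ℕ) (G : SimpleGraph (Fin n)) (k : ℕ),
    (code G k).length ≤ q.eval (n + k) := sorry

/-- C29 -/
theorem compression_of_kernel (F : Family) (h : HasPolyKernel F) : HasPolyCompression F := sorry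

/-- C30 -/
theorem compression_compl (h : HasPolyCompression [⟨4, TwoK2⟩]) :
    HasPolyCompression [⟨4, C4⟩] := sorry

/-- C31 -/
theorem coNP_of_compression (h : HasPolyCompression [⟨4, C4⟩]) : CoNPSubsetNPPoly := sorry

end Pool.Agent.H548E.Stub
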