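import Pool.Agent.H548E.Defs

/-! Földes and Hammer: a graph without induced `C4`, `2K2`, `C5` is a split graph. -/

set_option autoImplicit false

namespace Pool.Agent.H548E

open Pool.Agent.NPC Pool.Agent.NPC.R671 Pool.Agent.CK

/-- five vertices forming an induced 5-cycle -/
theorem t05_c5 {V : Type} (G : SimpleGraph V) (x y t z w : V) (a1 : G.Adj x y) (a2 : G.Adj y t)
    (a3 : G.Adj t z) (a4 : G.Adj z w) (a5 : G.Adj w x) (n1 : ¬ G.Adj x t) (n2 : ¬ G.Adj x z)
    (n3 : ¬ G.Adj y z) (n4 : ¬ G.Adj y w) (n5 : ¬ G.Adj t w) (d1 : x ≠ t) (d2 : x ≠ z)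
    (d3 : y ≠ z) (d4 : y ≠ w) (d5 : t ≠ w) : IsC5 G ![x, y, t, z, w] := by
  have n1' : ¬ G.Adj t x := fun h => n1 h.symm
  have n2' : ¬ G.Adj z x := fun h => n2 h.symm
  have n3' : ¬ G.Adj z y := fun h => n3 h.symm
  have n4' : ¬ G.Adj w y := fun h => n4 h.symm
  have n5' : ¬ G.Adj w t := fun h => n5 h.symm
  have e1 := a1.ne
  have e2 := a2.ne
  have e3 := a3.ne
  have e4 := a4.ne
  have e5 := a5.ne
  constructor
  · intro i j hij
    fin_cases i <;> fin_cases j <;> first | rfl | (exfalso; revert hij; simp_all [Ne.symm])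
  · intro i j
    fin_cases i <;> fin_cases j <;> simp [a1, a2, a3, a4, a5, n1, n2, n3, n4, n5, n1', n2', n3',
      n4', n5', a1.symm, a2.symm, a3.symm, a4.symm, a5.symm]

/-- B1: Földes and Hammer -/
theorem split_of_free {V : Type} [Fintype V] [DecidableEq V] (G : SimpleGraph V) (h1 : NoC4 G)
    (h2 : No2K2 G) (h5 : ∀ c, ¬ IsC5 G c) :
    ∃ K : Finset V, (∀ a ∈ K, ∀ b ∈ K, a ≠ b → G.Adj a b) ∧ ∀ a, a ∉ K → ∀ b, b ∉ K → ¬ G.Adj a b := by
  classical
  -- cliques, edges outside
  set cl : Finset V → Prop := fun K => ∀ a ∈ K, ∀ b ∈ K, a ≠ b → G.Adj a b with hcl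
  set E : Finset V → Finset (V × V) := fun K =>
    Finset.univ.filter fun p : V × V => p.1 ∉ K ∧ p.2 ∉ K ∧ G.Adj p.1 p.2 with hE
  obtain ⟨K0, hK0, hmax⟩ := Finset.exists_max_image (Finset.univ.filter cl) Finset.card
    ⟨∅, by simp [hcl]⟩
  have hK0' : cl K0 := (Finset.mem_filter.1 hK0).2
  have hmax' : ∀ K, cl K → K.card ≤ K0.card := fun K hK =>
    hmax K (Finset.mem_filter.2 ⟨Finset.mem_univ _, hK⟩)
  obtain ⟨K, hKm, hmin⟩ := Finset.exists_min_image
    (Finset.univ.filter fun K => cl K ∧ K.card = K0.card) (fun K => (E K).card)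
    ⟨K0, by simp [hK0']⟩
  have hK : cl K := (Finset.mem_filter.1 hKm).2.1
  have hKc : K.card = K0.card := (Finset.mem_filter.1 hKm).2.2
  have hmin' : ∀ K', cl K' → K'.card = K.card → (E K).card ≤ (E K').card := fun K' h h' =>
    hmin K' (Finset.mem_filter.2 ⟨Finset.mem_univ _, h, h'.trans hKc⟩)
  refine ⟨K, hK, ?_⟩
  -- non-neighbours in the clique
  have N0 : ∀ v, v ∉ K → ∃ u ∈ K, ¬ G.Adj v u := by
    intro v hv
    by_contra hno
    push Not at hno
    have hc : cl (insert v K) := by
      intro a ha b hb hab
      rw [Finset.mem_insert] at ha hb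
      rcases ha with rfl | ha <;> rcases hb with rfl | hb
      · exact absurd rfl hab
      · exact hno b hb
      · exact (hno a ha).symm
      · exact hK a ha b hb hab
    have := hmax' _ hc
    rw [Finset.card_insert_of_notMem hv] at this
    omega
  have Na : ∀ s t u w, s ∉ K → t ∉ K → G.Adj s t → u ∈ K → w ∈ K → ¬ G.Adj s u → G.Adj t u →
      ¬ G.Adj t w → G.Adj s w → False := by
    intro s t u w hs ht hst hu hw hsu htu htw hsw
    have huw : u ≠ w := by
      rintro rfl
      exact hsu hsw
    rcases h1 s t u w hst htu (hK u hu w hw huw) hsw.symm (by rintro rfl; exact hs hu)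
      (by rintro rfl; exact ht hw) with h | h
    · exact hsu h
    · exact htw h
  have Nb : ∀ s t u w, s ∉ K → t ∉ K → G.Adj s t → u ∈ K → w ∈ K → ¬ G.Adj s u → ¬ G.Adj t u →
      ¬ G.Adj t w → ¬ G.Adj s w → u = w := by
    intro s t u w hs ht hst hu hw hsu htu htw hsw
    by_contra huw
    rcases h2 s t u w hst (hK u hu w hw huw) (by rintro rfl; exact hs hu)
      (by rintro rfl; exact hs hw) (by rintro rfl; exact ht hu) (by rintro rfl; exact ht hw)
      with h | h | h | h
    · exact hsu h
    · exact hsw h
    · exact htu h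
    · exact htw h
  -- the main step
  have main : ∀ x y, x ∉ K → y ∉ K → G.Adj x y → (∀ u ∈ K, ¬ G.Adj x u → ¬ G.Adj y u) → False := by
    intro x y hx hy hxy hsub
    obtain ⟨z, hz, hxz⟩ := N0 x hx
    have hyz := hsub z hz hxz
    have huniq : ∀ u ∈ K, ¬ G.Adj x u → u = z := fun u hu hxu =>
      Nb x y u z hx hy hxy hu hz hxu (hsub u hu hxu) hyz hxz
    have hxz' : x ≠ z := by rintro rfl; exact hx hz
    have hyz' : y ≠ z := by rintro rfl; exact hy hz
    -- a better clique
    obtain ⟨t, ht, htx, htz, hntx⟩ : ∃ t, t ∉ K ∧ t ≠ x ∧ G.Adj t z ∧ ¬ G.Adj t x := by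
      by_contra hno
      push Not at hno
      set K' := insert x (K.erase z) with hK'
      have hmemK' : ∀ a, a ∈ K' ↔ a = x ∨ (a ≠ z ∧ a ∈ K) := by
        intro a
        rw [hK', Finset.mem_insert, Finset.mem_erase]
      have hc : cl K' := by
        intro a ha b hb hab
        rw [hmemK'] at ha hb
        rcases ha with rfl | ⟨ha, ha'⟩ <;> rcases hb with rfl | ⟨hb, hb'⟩
        · exact absurd rfl hab
        · by_contra h
          exact hb (huniq b hb' h)
        · by_contra h
          exact ha (huniq a ha' fun h' => h h'.symm)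
        · exact hK a ha' b hb' hab
      have hcard : K'.card = K.card := by
        rw [hK', Finset.card_insert_of_notMem (by
          rw [Finset.mem_erase]
          exact fun h => hx h.2), Finset.card_erase_of_mem hz]
        have := Finset.card_pos.2 ⟨z, hz⟩
        omega
      have hle := hmin' K' hc hcard
      set f : V × V → V × V := fun p => (Equiv.swap z x p.1, Equiv.swap z x p.2) with hf
      have hfinj : Function.Injective f := by
        intro p q hpq
        rw [hf] at hpq
        simp only [Prod.mk.injEq, EmbeddingLike.apply_eq_iff_eq] at hpq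
        exact Prod.ext hpq.1 hpq.2
      have hout : ∀ a, a ∉ K' → a ≠ x ∧ (a = z ∨ a ∉ K) := by
        intro a ha
        rw [hmemK'] at ha
        push Not at ha
        refine ⟨ha.1, ?_⟩
        by_cases h : a = z
        · exact Or.inl h
        · exact Or.inr (ha.2 h)
      have hss : (E K').image f ⊂ E K := by
        rw [Finset.ssubset_iff_of_subset]
        · refine ⟨(x, y), ?_, ?_⟩
          · rw [hE]
            simp [hx, hy, hxy]
          · intro h
            rw [Finset.mem_image] at h
            obtain ⟨p, hp, hfp⟩ := h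
            rw [hf] at hfp
            simp only [Prod.mk.injEq] at hfp
            have e1 : p.1 = z := by
              have := congrArg (Equiv.swap z x) hfp.1
              rw [Equiv.swap_apply_self, Equiv.swap_apply_right] at this
              exact this
            have e2 : p.2 = y := by
              have := congrArg (Equiv.swap z x) hfp.2
              rw [Equiv.swap_apply_self, Equiv.swap_apply_of_ne_of_ne hyz' hxy.ne'] at this
              exact this
            rw [hE] at hp
            have := (Finset.mem_filter.1 hp).2.2.2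
            rw [e1, e2] at this
            exact hyz this.symm
        · intro q hq
          rw [Finset.mem_image] at hq
          obtain ⟨⟨a, b⟩, hp, rfl⟩ := hq
          rw [hE] at hp ⊢
          obtain ⟨-, ha, hb, hab⟩ := Finset.mem_filter.1 hp
          simp only at ha hb hab
          obtain ⟨ha1, ha2⟩ := hout a ha
          obtain ⟨hb1, hb2⟩ := hout b hb
          refine Finset.mem_filter.2 ⟨Finset.mem_univ _, ?_⟩
          rw [hf]
          simp only
          by_cases haz : a = z
          · subst haz
            have hba : b ≠ a := hab.ne'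
            have hbK : b ∉ K := hb2.resolve_left hba
            rw [Equiv.swap_apply_left, Equiv.swap_apply_of_ne_of_ne hba hb1]
            exact ⟨hx, hbK, (hno b hbK hb1 hab.symm).symm⟩
          · have haK : a ∉ K := ha2.resolve_left haz
            rw [Equiv.swap_apply_of_ne_of_ne haz ha1]
            by_cases hbz : b = z
            · subst hbz
              rw [Equiv.swap_apply_left]
              exact ⟨haK, hx, hno a haK ha1 hab⟩
            · rw [Equiv.swap_apply_of_ne_of_ne hbz hb1]
              exact ⟨haK, hb2.resolve_left hbz, hab⟩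
      have hlt := Finset.card_lt_card hss
      rw [Finset.card_image_of_injective _ hfinj] at hlt
      omega
    have hty : t ≠ y := by
      rintro rfl
      exact hyz htz
    have hyt : G.Adj y t := by
      rcases h2 x y z t hxy htz.symm hxz' htx.symm hyz' hty.symm with h | h | h | h
      · exact absurd h hxz
      · exact absurd h.symm hntx
      · exact absurd h hyz
      · exact h
    obtain ⟨w, hw, htw⟩ := N0 t ht
    have hyw : ¬ G.Adj y w := by
      intro h
      exact Na y t z w hy ht hyt hz hw hyz htz htw h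
    have hwz : w ≠ z := by
      rintro rfl
      exact htw htz
    have hxw : G.Adj x w := by
      by_contra h
      exact hwz (huniq w hw h)
    exact h5 _ (t05_c5 G x y t z w hxy hyt htz (hK z hz w hw hwz.symm) hxw.symm
      (fun h => hntx h.symm) hxz hyz hyw htw htx.symm hxz' hyz'
      (by rintro rfl; exact hy hw) (by rintro rfl; exact ht hw))
  intro x hx y hy hxy
  by_cases hs : ∀ u ∈ K, ¬ G.Adj x u → ¬ G.Adj y u
  · exact main x y hx hy hxy hs
  · push Not at hs
    obtain ⟨u, hu, hxu, hyu⟩ := hs
    refine main y x hy hx hxy.symm fun w hw hyw hxw => ?_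
    exact Na x y u w hx hy hxy hu hw hxu hyu hyw hxw

end Pool.Agent.H548E
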